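import Pool.Agent.Run7.h238.X.ECr
import Pool.Agent.Run7.h238.C.ERep
import Pool.Agent.Run7.h741.CC.A1

/-!
# Pairs `(u, v)` with `4 n = u² + 27 v²` and subsets of the set of the primes
-/

set_option autoImplicit false
set_option linter.unusedVariables false

open scoped Classical

namespace Run7.h238.X

open Finset
open Pool.Agent.Y692.QS
open Pool.Agent.Y703.CX
open Pool.Agent.Y715.T.RecG (Pq)
open Pool.Agent.Y699.E (eq_of_dvd)
open Pool.Agent.Y405.CT (pq_star)
open Pool.Agent.Y333.CX (pp_spec not_dvd_pq)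
open Pool.Agent.Run7.h741.CC (bet nr_bet bet_mul n_three)
open Run7.h238.C.ERep (PR pf_of_mem)

/-- the factor of `be` -/
noncomputable def ff (A : Finset ℕ) (p : ℕ) : Ei := if p ∈ A then star (pp p) else pp p

theorem be_eq (S A : Finset ℕ) : be S A = ∏ p ∈ S, ff A p := rfl

theorem pq_ff {p : ℕ} (hp : p.Prime) (h1 : p % 3 = 1) (A : Finset ℕ) : Pq (ff A p) := by
  unfold ff
  split_ifs
  · exact pq_star (pp_spec hp h1).1
  · exact (pp_spec hp h1).1

theorem nr_ff {p : ℕ} (hp : p.Prime) (h1 : p % 3 = 1) (A : Finset ℕ) : nr (ff A p) = p := by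
  unfold ff
  split_ifs
  · rw [nr_star]
    exact (pp_spec hp h1).2
  · exact (pp_spec hp h1).2

theorem nr_prod (s : Finset ℕ) (f : ℕ → Ei) : nr (∏ p ∈ s, f p) = ∏ p ∈ s, nr (f p) := by
  induction s using Finset.induction_on with
  | empty => rw [prod_empty, prod_empty, nr_one]
  | insert a s ha ih => rw [prod_insert ha, prod_insert ha, nr_mul, ih]

theorem pri_mul {a b : Ei} (ha : (3 : Ei) ∣ a - 1) (hb : (3 : Ei) ∣ b - 1) :
    (3 : Ei) ∣ a * b - 1 := by
  have e : a * b - 1 = a * (b - 1) + (a - 1) := by ring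
  rw [e]
  exact dvd_add (hb.mul_left _) ha

variable {S A : Finset ℕ}

theorem nr_be (hS : ∀ p ∈ S, p.Prime ∧ p % 3 = 1) : nr (be S A) = ((∏ p ∈ S, p : ℕ) : ℤ) := by
  rw [be_eq, nr_prod, prod_congr rfl fun p hp => nr_ff (hS p hp).1 (hS p hp).2 A]
  push_cast
  rfl

theorem pri_be (hS : ∀ p ∈ S, p.Prime ∧ p % 3 = 1) : (3 : Ei) ∣ be S A - 1 := by
  rw [be_eq]
  refine Finset.prod_induction _ (fun z => (3 : Ei) ∣ z - 1) (fun a b => pri_mul) ?_ ?_
  · rw [sub_self]
    exact dvd_zero _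
  · intro p hp
    exact (pq_ff (hS p hp).1 (hS p hp).2 A).2

theorem be_compl : be S (S \ A) = star (be S A) := by
  rw [be_eq, be_eq, star_prod]
  refine prod_congr rfl fun p hp => ?_
  unfold ff
  have hm : p ∈ S \ A ↔ p ∉ A := by
    rw [mem_sdiff]
    exact ⟨fun h => h.2, fun h => ⟨hp, h⟩⟩
  by_cases h : p ∈ A
  · rw [if_neg (fun h' => hm.1 h' h), if_pos h, star_star]
  · rw [if_pos (hm.2 h), if_neg h]

/-- the square of a unit: a primary element of norm one -/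
theorem unit_one {c : Ei} (h : nr c = 1) (h3 : (3 : Ei) ∣ c - 1) : c = 1 := by
  have h4 : (((3 : ℤ) : Ei)) ∣ c - 1 := by exact_mod_cast h3
  rw [int_dvd] at h4
  obtain ⟨h5, h6⟩ := h4
  rw [QuadraticAlgebra.re_sub, QuadraticAlgebra.re_one] at h5
  rw [QuadraticAlgebra.im_sub, QuadraticAlgebra.im_one, sub_zero] at h6
  obtain ⟨x, y⟩ := c
  simp only at h5 h6
  unfold nr at h
  simp only at h
  have hx : -1 ≤ x ∧ x ≤ 1 := by
    constructor <;> nlinarith [sq_nonneg (2 * y - x), sq_nonneg (x - 1), sq_nonneg (x + 1)]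
  have hy : -1 ≤ y ∧ y ≤ 1 := by
    constructor <;> nlinarith [sq_nonneg (2 * x - y), sq_nonneg (y - 1), sq_nonneg (y + 1)]
  have e1 : y = 0 := by omega
  have e2 : x = 1 := by omega
  subst e1 e2
  rfl

theorem dvd_ff {p l : ℕ} (hp : p.Prime ∧ p % 3 = 1) (hl : l.Prime ∧ l % 3 = 1) {A B : Finset ℕ}
    (h : ff A p ∣ ff B l) : p = l ∧ (p ∈ A ↔ l ∈ B) := by
  have h1 := eq_of_dvd (pq_ff hp.1 hp.2 A) (pq_ff hl.1 hl.2 B) h
  have h2 : p = l := by
    have h3 := congrArg nr h1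
    rw [nr_ff hp.1 hp.2, nr_ff hl.1 hl.2] at h3
    exact_mod_cast h3
  subst h2
  refine ⟨rfl, ?_⟩
  unfold ff at h
  split_ifs at h with a b b
  · exact ⟨fun _ => b, fun _ => a⟩
  · exact absurd h (star_ne hp.1 hp.2)
  · exact absurd h (ne_star hp.1 hp.2)
  · exact ⟨fun h => absurd h a, fun h => absurd h b⟩

theorem be_inj {T B : Finset ℕ} (hS : ∀ p ∈ S, p.Prime ∧ p % 3 = 1)
    (hT : ∀ p ∈ T, p.Prime ∧ p % 3 = 1) (hA : A ⊆ S) (hB : B ⊆ T) (h : be S A = be T B) :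
    S = T ∧ A = B := by
  have h1 : ∏ p ∈ S, p = ∏ p ∈ T, p := by
    have h2 := congrArg nr h
    rw [nr_be hS, nr_be hT] at h2
    exact_mod_cast h2
  have h2 : S = T := by
    have h3 := congrArg Nat.primeFactors h1
    rwa [Nat.primeFactors_prod (fun p hp => (hS p hp).1),
      Nat.primeFactors_prod (fun p hp => (hT p hp).1)] at h3
  subst h2
  refine ⟨rfl, ?_⟩
  have key : ∀ p ∈ S, (p ∈ A ↔ p ∈ B) := by
    intro p hp
    have h3 : ff A p ∣ ∏ l ∈ S, ff B l := by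
      rw [← be_eq, ← h, be_eq]
      exact dvd_prod_of_mem _ hp
    obtain ⟨l, hl, h4⟩ := ((pq_ff (hS p hp).1 (hS p hp).2 A).1.dvd_finsetProd_iff _).1 h3
    obtain ⟨rfl, h5⟩ := dvd_ff (hS p hp) (hS l hl) h4
    exact h5
  ext p
  constructor
  · intro h3
    exact (key p (hA h3)).1 h3
  · intro h3
    exact (key p (hB h3)).2 h3

theorem exists_be (hS : ∀ p ∈ S, p.Prime ∧ p % 3 = 1) {z : Ei} (h3 : (3 : Ei) ∣ z - 1)
    (hn : nr z = ((∏ p ∈ S, p : ℕ) : ℤ)) : ∃ A, A ⊆ S ∧ z = be S A := by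
  set A := S.filter fun p => ¬ pp p ∣ z with hAd
  refine ⟨A, filter_subset _ _, ?_⟩
  have h1 : ∀ p ∈ S, ff A p ∣ z := by
    intro p hp
    obtain ⟨hπ, hm⟩ := pp_spec (hS p hp).1 (hS p hp).2
    unfold ff
    split_ifs with h
    · have h4 : pp p ∣ z * star z := by
        rw [mul_star, hn, Int.cast_natCast]
        have h5 : (p : Ei) = pp p * star (pp p) := by
          rw [mul_star, hm, Int.cast_natCast]
        refine (Dvd.intro _ h5.symm).trans ?_
        exact Nat.cast_dvd_cast (dvd_prod_of_mem _ hp)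
      rcases hπ.1.dvd_or_dvd h4 with h5 | h5
      · exact absurd h5 (mem_filter.1 h).2
      · have h6 := Run7.h238.C.ERep.dvd_star' h5
        rwa [star_star] at h6
    · by_contra h4
      exact h (mem_filter.2 ⟨hp, h4⟩)
  have h2 : ∀ T, T ⊆ S → ∏ p ∈ T, ff A p ∣ z := by
    intro T
    induction T using Finset.induction_on with
    | empty =>
      intro _
      rw [prod_empty]
      exact one_dvd _
    | insert a s ha ih =>
      intro hs
      obtain ⟨c, hc⟩ := ih fun x hx => hs (mem_insert_of_mem hx)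
      have haS := hs (mem_insert_self _ _)
      have hp := (pq_ff (hS a haS).1 (hS a haS).2 A).1
      have h4 := h1 a haS
      rw [hc] at h4
      rcases hp.dvd_or_dvd h4 with h5 | h5
      · obtain ⟨l, hl, h6⟩ := (hp.dvd_finsetProd_iff _).1 h5
        have h7 := (dvd_ff (hS a haS) (hS l (hs (mem_insert_of_mem hl))) h6).1
        subst h7
        exact absurd hl ha
      · obtain ⟨d, hd⟩ := h5
        rw [prod_insert ha]
        exact ⟨d, by rw [hc, hd]; ring⟩
  obtain ⟨c, hc⟩ := h2 S Subset.rfl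
  rw [← be_eq] at hc
  have hP : ((∏ p ∈ S, p : ℕ) : ℤ) ≠ 0 := by
    exact_mod_cast (prod_pos fun p hp => (hS p hp).1.pos).ne'
  have hc1 : nr c = 1 := by
    have h4 := congrArg nr hc
    rw [hn, nr_mul, nr_be hS] at h4
    exact (mul_left_cancel₀ hP (by rw [mul_one]; exact h4)).symm
  have hc3 : (3 : Ei) ∣ c - 1 := by
    have h5 := pri_be (A := A) hS
    have e : c - 1 = (z - 1) - c * (be S A - 1) := by
      rw [hc]
      ring
    rw [e]
    exact dvd_sub h3 (h5.mul_left _)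
  rw [hc, unit_one hc1 hc3, mul_one]

/-- complementary sets have the same kernel -/
theorem gdX_compl (g : ℕ → F3) (hA : A ⊆ S) (h : GdX g (sg A) S) : GdX g (sg (S \ A)) S := by
  have hs : ∀ l ∈ S, sg (S \ A) l = -sg A l := by
    intro l hl
    unfold sg
    have hm : l ∈ S \ A ↔ l ∉ A := by
      rw [mem_sdiff]
      exact ⟨fun h => h.2, fun h => ⟨hl, h⟩⟩
    by_cases h' : l ∈ A
    · rw [if_neg (fun h'' => hm.1 h'' h'), if_pos h']
    · rw [if_pos (hm.2 h'), if_neg h', neg_neg]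
  intro x y h1 h2 p hp
  have h3 := h x (fun n => -y n) (fun p hp => by
    rw [← h1 p hp]
    unfold EX1
    congr 1
    refine sum_congr rfl fun l hl => ?_
    rw [hs l hl]
    ring) (fun p hp => by
    have h4 : EX2 g (sg A) S x (fun n => -y n) p = -EX2 g (sg (S \ A)) S x y p := by
      unfold EX2
      have h5 : ∑ l ∈ S, sg A l * (lam l p * (x l - x p)) =
          -∑ l ∈ S, sg (S \ A) l * (lam l p * (x l - x p)) := by
        rw [← Finset.sum_neg_distrib]
        refine sum_congr rfl fun l hl => ?_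
        rw [hs l hl]
        ring
      rw [h5]
      ring
    rw [h4, h2 p hp, neg_zero]) p hp
  exact ⟨h3.1, neg_eq_zero.1 h3.2⟩

theorem gdX_compl_iff (g : ℕ → F3) (hA : A ⊆ S) : GdX g (sg (S \ A)) S ↔ GdX g (sg A) S := by
  constructor
  · intro h
    have h1 := gdX_compl g sdiff_subset h
    rwa [sdiff_sdiff_right_self, inf_eq_inter, inter_eq_right.2 hA] at h1
  · exact gdX_compl g hA

/-! ### the pairs -/

theorem bet_neg {u v : ℤ} {n : ℕ} (hn : 4 * (n : ℤ) = u ^ 2 + 27 * v ^ 2) :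
    bet (-u) (-v) = -bet u v := by
  have h1 := Pool.Agent.Run7.h741.CC.par hn
  have h2 := Pool.Agent.Run7.h741.CC.par (u := -u) (v := -v) (n := n) (by rw [hn]; ring)
  ext
  · rw [QuadraticAlgebra.re_neg]
    show (-u + 3 * -v) / 2 = -((u + 3 * v) / 2)
    omega
  · rw [QuadraticAlgebra.im_neg]
    show 3 * -v = -(3 * v)
    ring

theorem bet_star {u v : ℤ} {n : ℕ} (hn : 4 * (n : ℤ) = u ^ 2 + 27 * v ^ 2) :
    bet u (-v) = star (bet u v) := by
  have h1 := Pool.Agent.Run7.h741.CC.par hn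
  have h2 := Pool.Agent.Run7.h741.CC.par (u := u) (v := -v) (n := n) (by rw [hn]; ring)
  ext
  · rw [star_re]
    show (u + 3 * -v) / 2 = (u + 3 * v) / 2 - 3 * v
    omega
  · rw [star_im]
    show 3 * -v = -(3 * v)
    ring

/-- every element with the last coordinate divisible by three -/
theorem exists_bet {z : Ei} {n : ℕ} (h3 : (3 : ℤ) ∣ z.im) (hn : nr z = (n : ℤ)) :
    ∃ u v : ℤ, 4 * (n : ℤ) = u ^ 2 + 27 * v ^ 2 ∧ z = bet u v := by
  obtain ⟨v, hv⟩ := h3
  refine ⟨2 * z.re - z.im, v, ?_, ?_⟩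
  · rw [← hn]
    unfold nr
    rw [hv]
    ring
  · ext
    · show z.re = (2 * z.re - z.im + 3 * v) / 2
      omega
    · exact hv

theorem bet_inj {u v u' v' : ℤ} {n n' : ℕ} (hn : 4 * (n : ℤ) = u ^ 2 + 27 * v ^ 2)
    (hn' : 4 * (n' : ℤ) = u' ^ 2 + 27 * v' ^ 2) (h : bet u v = bet u' v') : u = u' ∧ v = v' := by
  have h1 := Pool.Agent.Run7.h741.CC.par hn
  have h2 := Pool.Agent.Run7.h741.CC.par hn'
  have h3 : (u + 3 * v) / 2 = (u' + 3 * v') / 2 := congrArg QuadraticAlgebra.re h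
  have h4 : 3 * v = 3 * v' := congrArg QuadraticAlgebra.im h
  omega

/-- one of `± β` is primary -/
theorem pri_or {u v : ℤ} {n : ℕ} (hn : 4 * (n : ℤ) = u ^ 2 + 27 * v ^ 2) (h3 : n % 3 = 1) :
    (3 : Ei) ∣ bet u v - 1 ∨ (3 : Ei) ∣ -bet u v - 1 := by
  have h1 := Pool.Agent.Run7.h741.CC.par hn
  have key : ∀ z : Ei, (3 : Ei) ∣ z - 1 ↔ (3 : ℤ) ∣ z.re - 1 ∧ (3 : ℤ) ∣ z.im := by
    intro z
    have h2 := int_dvd (n := 3) (α := z - 1)
    rw [QuadraticAlgebra.re_sub, QuadraticAlgebra.re_one, QuadraticAlgebra.im_sub,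
      QuadraticAlgebra.im_one, sub_zero] at h2
    rw [← h2]
    norm_cast
  rw [key, key, QuadraticAlgebra.re_neg, QuadraticAlgebra.im_neg]
  have e1 : (bet u v).re = (u + 3 * v) / 2 := rfl
  have e2 : (bet u v).im = 3 * v := rfl
  rw [e1, e2]
  have h4 : ¬ (3 : ℤ) ∣ u := by
    rintro ⟨c, rfl⟩
    have h5 : 4 * (n : ℤ) = 9 * (c ^ 2 + 3 * v ^ 2) := by rw [hn]; ring
    omega
  have h6 : ((u + 3 * v) / 2) % 3 = 1 ∨ ((u + 3 * v) / 2) % 3 = 2 := by
    by_contra hc
    have h7 : ((u + 3 * v) / 2) % 3 = 0 := by omega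
    exact h4 ⟨2 * ((u + 3 * v) / 2 / 3) - v, by omega⟩
  rcases h6 with h6 | h6 <;> omega

end Run7.h238.X
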