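import Pool.Agent.N883.FG.Lf
import Pool.Agent.Run7.h707.TE.Mod
import Pool.Agent.Run7.h741.CC.A5

/-!
# The `L`-series of `y² + q y = x³` over a field unramified at `3` and `q`
-/

set_option autoImplicit false
set_option linter.unusedVariables false
set_option linter.unusedSectionVars false

open scoped Classical

namespace Run7.h238.X

open Finset NumberField IsDedekindDomain
open Pool.Agent.W189.NF (aV eV)
open Pool.Agent.H921R2.TatePole (nm two_le_nm)
open Pool.Agent.Y696.CTK (ED)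
open Pool.Agent.Y696 (HBd)
open Pool.Agent.N883.FG (hbd_all euler_one fac exists_bg)
open Pool.Agent.R432.V (ef qv cn qv_eq)
open Run7.h707.TE (od od_zero od_of_notMem add_F)

variable {L : Type} [Field L] [NumberField L]

theorem od_unr {p : ℕ} (hp : p.Prime) (hd : ¬ (p : ℤ) ∣ discr L) (v : HeightOneSpectrum (𝓞 L))
    (hv : (p : 𝓞 L) ∈ v.asIdeal) : od v (p : 𝓞 L) = 1 := by
  have hpi : Prime (p : ℤ) := Nat.prime_iff_prime_int.1 hp
  have h1 := (NumberField.not_dvd_discr_iff_forall_mem L (𝓞 L) hpi).1 hd v.asIdeal v.isPrime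
    (by exact_mod_cast hv)
  have h2 : v.asIdeal.ramificationIdx ℤ = 1 := Ideal.ramificationIdx_eq_one _ _
  have h3 : v.asIdeal.LiesOver (Ideal.span {(p : ℤ)}) := by
    have := (Ideal.liesOver_span_iff v.isPrime.ne_top hpi).2 (by exact_mod_cast hv)
    exact this
  have hb : Ideal.map (algebraMap ℤ (𝓞 L)) (Ideal.span {(p : ℤ)}) ≠ ⊥ := by
    rw [Ideal.map_span, Set.image_singleton, Ne, Ideal.span_singleton_eq_bot]
    simp [hp.ne_zero]
  have h4 := Ideal.IsDedekindDomain.ramificationIdx_eq_multiplicity (Ideal.span {(p : ℤ)})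
    v.asIdeal hb
  rw [h2, Ideal.map_span, Set.image_singleton] at h4
  unfold od
  simpa using h4.symm

/-- the places of bad reduction -/
theorem bad_q {q : ℕ} (hq : q.Prime) (hq3 : q ≠ 3) (h3 : ¬ (3 : ℤ) ∣ discr L)
    (hqd : ¬ (q : ℤ) ∣ discr L) (v : HeightOneSpectrum (𝓞 L))
    (hv : 3 * ((q : ℕ) : 𝓞 L) ∈ v.asIdeal) :
    aV (ED (((q : ℕ) : 𝓞 L) : L)) v = 0 ∧ eV (ED (((q : ℕ) : 𝓞 L) : L)) v = 0 := by
  have hq0 : ((q : ℕ) : 𝓞 L) ≠ 0 := Nat.cast_ne_zero.2 hq.ne_zero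
  refine add_F hq0 ?_
  have h3' : ¬ ((3 : ℕ) : ℤ) ∣ discr L := by exact_mod_cast h3
  have key : ¬ ((3 : 𝓞 L) ∈ v.asIdeal ∧ ((q : ℕ) : 𝓞 L) ∈ v.asIdeal) := by
    rintro ⟨a, b⟩
    apply v.isPrime.ne_top
    rw [Ideal.eq_top_iff_one]
    obtain ⟨x, y, hxy⟩ : ∃ x y : ℤ, x * 3 + y * q = 1 := by
      have hc : IsCoprime ((3 : ℕ) : ℤ) ((q : ℕ) : ℤ) :=
        Nat.isCoprime_iff_coprime.2 ((Nat.coprime_primes Nat.prime_three hq).2 hq3.symm)
      obtain ⟨x, y, h⟩ := hc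
      exact ⟨x, y, by exact_mod_cast h⟩
    have h1 : (1 : 𝓞 L) = (x : 𝓞 L) * 3 + (y : 𝓞 L) * ((q : ℕ) : 𝓞 L) := by
      have h2 := congrArg (fun z : ℤ => (z : 𝓞 L)) hxy
      push_cast at h2
      exact h2.symm
    rw [h1]
    exact v.asIdeal.add_mem (v.asIdeal.mul_mem_left _ a) (v.asIdeal.mul_mem_left _ b)
  rcases v.isPrime.mem_or_mem hv with h | h
  · have e1 : od v (3 : 𝓞 L) = 1 := by
      have := od_unr (L := L) Nat.prime_three h3' v (by exact_mod_cast h)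
      exact_mod_cast this
    have e2 : od v ((q : ℕ) : 𝓞 L) = 0 := od_of_notMem v fun h' => key ⟨h, h'⟩
    rw [e1, e2]
    norm_num
  · have e1 : od v (3 : 𝓞 L) = 0 := od_of_notMem v fun h' => key ⟨h', h⟩
    have e2 : od v ((q : ℕ) : 𝓞 L) = 1 := od_unr hq hqd v h
    rw [e1, e2]
    norm_num

theorem nm_ne' (v : HeightOneSpectrum (𝓞 L)) : (nm v : ℂ) ≠ 0 := by
  have := two_le_nm v
  exact_mod_cast (by omega : nm v ≠ 0)

/-- the polynomial has no zeros to the right of `1/2` -/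
theorem den_ne {a e : ℤ} {v : HeightOneSpectrum (𝓞 L)} (h : HBd a e (nm v)) {s : ℂ}
    (hs : 1 / 2 < s.re) :
    1 - (a : ℂ) * (nm v : ℂ) ^ (-s) + (e : ℂ) * ((nm v : ℂ) ^ (-s)) ^ 2 ≠ 0 := by
  rcases h with ⟨rfl, rfl⟩ | ⟨x, ha, he, hq⟩
  · simp
  · rw [ha, he]
    set X : ℂ := (nm v : ℂ) ^ (-s) with hX
    have hfac : 1 - (x + (starRingEnd ℂ) x) * X + x * (starRingEnd ℂ) x * X ^ 2 =
        (1 - x * X) * (1 - (starRingEnd ℂ) x * X) := by ring
    rw [hfac]
    have h2 : (2 : ℝ) ≤ nm v := by exact_mod_cast two_le_nm v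
    have h0 : (0 : ℝ) < nm v := by linarith
    have hx : ‖x‖ = Real.sqrt (nm v) := by
      have h3 : ‖x‖ ^ 2 = nm v := by
        have := Complex.mul_conj x
        rw [hq] at this
        rw [← Complex.normSq_eq_norm_sq]
        exact_mod_cast this.symm
      rw [← h3, Real.sqrt_sq (norm_nonneg _)]
    have hXn : ‖X‖ = (nm v : ℝ) ^ (-s.re) := by
      rw [hX, Complex.norm_natCast_cpow_of_pos (by have := two_le_nm v; omega), Complex.neg_re]
    have hlt : ‖x‖ * ‖X‖ < 1 := by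
      rw [hx, hXn, Real.sqrt_eq_rpow, ← Real.rpow_add h0]
      exact Real.rpow_lt_one_of_one_lt_of_neg (by linarith) (by linarith)
    have key : ∀ y : ℂ, ‖y‖ = ‖x‖ → 1 - y * X ≠ 0 := by
      intro y hy h
      have h3 : y * X = 1 := by linear_combination -h
      have h4 := congrArg norm h3
      rw [norm_mul, hy, norm_one] at h4
      linarith
    exact mul_ne_zero (key x rfl) (key _ (RCLike.norm_conj x))

/-- the local factor is analytic to the right of `1/2` -/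
theorem fac_an {D : 𝓞 L} {v : HeightOneSpectrum (𝓞 L)}
    (h : HBd (aV (ED (D : L)) v) (eV (ED (D : L)) v) (nm v)) {s : ℂ} (hs : 1 / 2 < s.re) :
    AnalyticAt ℂ (fun s => fac D v ((nm v : ℂ) ^ (-s))) s := by
  have h1 : AnalyticAt ℂ (fun s : ℂ => (nm v : ℂ) ^ (-s)) s := by
    have h2 : Differentiable ℂ (fun s : ℂ => (nm v : ℂ) ^ (-s)) := by
      intro z
      exact (differentiable_neg z).const_cpow (Or.inl (nm_ne' v))
    exact h2.analyticAt s
  unfold fac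
  refine AnalyticAt.inv ?_ (den_ne h hs)
  exact (analyticAt_const.sub (analyticAt_const.mul h1)).add (analyticAt_const.mul (h1.pow 2))

theorem fac_ne {D : 𝓞 L} {v : HeightOneSpectrum (𝓞 L)}
    (h : HBd (aV (ED (D : L)) v) (eV (ED (D : L)) v) (nm v)) {s : ℂ} (hs : 1 / 2 < s.re) :
    fac D v ((nm v : ℂ) ^ (-s)) ≠ 0 := by
  unfold fac
  exact inv_ne_zero (den_ne h hs)

/-- the factor at a good place -/
theorem fac_good {D : 𝓞 L} {v : HeightOneSpectrum (𝓞 L)} (h3 : (3 : 𝓞 L) ∉ v.asIdeal)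
    (hD : D ∉ v.asIdeal) (s : ℂ) : fac D v ((nm v : ℂ) ^ (-s)) = ef D s v := by
  obtain ⟨β, -, h2, -⟩ := exists_bg v h3
  obtain ⟨b1, b2, b3, b4⟩ := h2 D hD
  unfold fac ef
  congr 1
  have h5 : cn D v = (nm v : ℂ) - (β D + (starRingEnd ℂ) (β D)) := b4
  rw [b2, b3, h5, qv_eq]
  have h6 : (nm v : ℂ) ^ (1 - 2 * s) = (nm v : ℂ) * ((nm v : ℂ) ^ (-s)) ^ 2 := by
    rw [← Complex.cpow_nat_mul, sub_eq_add_neg, Complex.cpow_add _ _ (nm_ne' v), Complex.cpow_one]
    congr 2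
    push_cast
    ring
  rw [h6]
  ring

/-- **The `L`-series of Mathlib.** -/
theorem lser {q n : ℕ} (hq : q.Prime) (hq3 : q ≠ 3) (h3 : ¬ (3 : ℤ) ∣ discr L)
    (hqd : ¬ (q : ℤ) ∣ discr L) (hn : n ≠ 0) {G : ℂ → ℂ} (hG : Differentiable ℂ G)
    (hG1 : G 1 ≠ 0)
    (hP : ∀ s : ℂ, 3 / 2 < s.re →
      HasProd (fun p : {p : HeightOneSpectrum (𝓞 L) |
        ((3 * q * n : ℕ) : 𝓞 L) ∉ p.asIdeal} => ef ((q : ℕ) : 𝓞 L) s p.1) (G s)) :
    ∃ Λ : ℂ → ℂ, AnalyticOnNhd ℂ Λ {s | (1 / 2 : ℝ) < s.re} ∧ Λ 1 ≠ 0 ∧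
      ∀ s : ℂ, 3 / 2 < s.re → Λ s = (ED ((q : ℕ) : L)).LSeries s := by
  have hbad := bad_q (L := L) hq hq3 h3 hqd
  have hbd := fun v => hbd_all hbad v
  set T := (Pool.Agent.R432.JG.fin_places (L := L) n hn).toFinset with hT
  have hTm : ∀ v, v ∈ T ↔ (n : 𝓞 L) ∈ v.asIdeal := by
    intro v
    simp [hT]
  set Q : 𝓞 L := ((q : ℕ) : 𝓞 L) with hQ
  refine ⟨fun s => G s * ∏ v ∈ T, fac Q v ((nm v : ℂ) ^ (-s)), ?_, ?_, ?_⟩
  · intro s hs
    refine (hG.analyticAt s).mul ?_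
    exact Finset.analyticAt_fun_prod T fun v _ => fac_an (hbd v) hs
  · refine mul_ne_zero hG1 (Finset.prod_ne_zero_iff.2 fun v _ => fac_ne (hbd v) ?_)
    norm_num
  · intro s hs
    have h1 := euler_one hbad 0 (s := s) (by simpa using hs)
    have e0 : (((0 : ℕ) : ℂ)) = 0 := Nat.cast_zero
    simp only [pow_zero, one_mul, e0, sub_zero] at h1
    have hQc : ((Q : 𝓞 L) : L) = ((q : ℕ) : L) := by
      rw [hQ]
      push_cast
      rfl
    rw [hQc] at h1
    have f1 := (hasProd_subtype_iff_mulIndicator (f := fun v => ef Q s v)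
      (s := {p : HeightOneSpectrum (𝓞 L) | ((3 * q * n : ℕ) : 𝓞 L) ∉ p.asIdeal})).1 (hP s hs)
    have f2 : HasProd (fun v => if v ∈ T then fac Q v ((nm v : ℂ) ^ (-s)) else 1)
        (∏ v ∈ T, fac Q v ((nm v : ℂ) ^ (-s))) := by
      have h2 : HasProd (fun v => if v ∈ T then fac Q v ((nm v : ℂ) ^ (-s)) else 1)
          (∏ v ∈ T, if v ∈ T then fac Q v ((nm v : ℂ) ^ (-s)) else 1) :=
        hasProd_prod_of_ne_finset_one fun v hv => if_neg hv
      rwa [Finset.prod_congr rfl fun v hv => if_pos hv] at h2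
    have h3 := f1.mul f2
    refine h3.unique (h1.congr_fun fun v => ?_)
    have hB : ((3 * q * n : ℕ) : 𝓞 L) = 3 * Q * (n : 𝓞 L) := by
      rw [hQ]
      push_cast
      ring
    by_cases hv : v ∈ T
    · have hv' := (hTm v).1 hv
      rw [if_pos hv, Set.mulIndicator_of_notMem, one_mul]
      intro h
      apply h
      rw [hB]
      exact v.asIdeal.mul_mem_left _ hv'
    · have hv' := fun h => hv ((hTm v).2 h)
      rw [if_neg hv, mul_one]
      by_cases hb : 3 * Q ∈ v.asIdeal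
      · rw [Set.mulIndicator_of_notMem]
        · obtain ⟨a1, a2⟩ := hbad v hb
          unfold fac
          rw [a1, a2]
          simp
        · intro h
          apply h
          rw [hB]
          exact v.asIdeal.mul_mem_right _ hb
      · rw [Set.mulIndicator_of_mem]
        · exact (fac_good (fun h => hb (v.asIdeal.mul_mem_right _ h))
            (fun h => hb (v.asIdeal.mul_mem_left _ h)) s).symm
        · intro h
          rw [hB] at h
          rcases v.isPrime.mem_or_mem h with h4 | h4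
          · exact hb h4
          · exact hv' h4

end Run7.h238.X
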