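import Pool.Agent.Run7.h238.X.Chain
import Pool.Agent.Y703.CX.Stm

/-!
# The linear system of an antisymmetric kernel

The block system attached to small primes `U` and large primes `ι`, with signs.
-/

set_option autoImplicit false
set_option linter.unusedSectionVars false
set_option linter.unusedVariables false
set_option linter.unusedSimpArgs false

open scoped Classical

namespace Run7.h238.X

open Finset Module
open Pool.Agent.Y703.XK (c9)
open Pool.Agent.Y703.CX (prs ext)

section
variable {U ι : Type} [Fintype U] [Fintype ι]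

/-- the first equation at a large prime -/
def E1 (eU : U → F3) (eI : ι → F3) (gI : ι → F3) (β1 : U → ι → F3) (β2 : ι → U → F3)
    (R : ι → ι → F3) (x y : ι → F3) (yu : U → F3) (k : ι) : F3 :=
  ∑ l, eI l * (R k l * y l - R l k * y k) + ∑ u, eU u * (β2 k u * yu u - β1 u k * y k) -
    gI k * x k

/-- the second equation at a large prime -/
def E2 (eU : U → F3) (eI : ι → F3) (gI : ι → F3) (β1 : U → ι → F3)
    (R : ι → ι → F3) (x y : ι → F3) (xu : U → F3) (k : ι) : F3 :=
  ∑ l, eI l * (R l k * (x l - x k)) + ∑ u, eU u * (β1 u k * (xu u - x k)) - gI k * y k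

/-- the first equation at a small prime -/
def E3 (eU : U → F3) (eI : ι → F3) (gU : U → F3) (A : U → U → F3) (β1 : U → ι → F3)
    (β2 : ι → U → F3) (y : ι → F3) (xu yu : U → F3) (u : U) : F3 :=
  ∑ l, eI l * (β1 u l * y l - β2 l u * yu u) + ∑ v, eU v * (A u v * yu v - A v u * yu u) -
    gU u * xu u

/-- the second equation at a small prime -/
def E4 (eU : U → F3) (eI : ι → F3) (gU : U → F3) (A : U → U → F3)
    (β2 : ι → U → F3) (x : ι → F3) (xu yu : U → F3) (u : U) : F3 :=
  ∑ l, eI l * (β2 l u * (x l - xu u)) + ∑ v, eU v * (A v u * (xu v - xu u)) - gU u * yu u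

/-- the system has only the zero solution -/
def GdXA (eU : U → F3) (eI : ι → F3) (gU : U → F3) (gI : ι → F3) (A : U → U → F3)
    (β1 : U → ι → F3) (β2 : ι → U → F3) (R : ι → ι → F3) : Prop :=
  ∀ (x y : ι → F3) (xu yu : U → F3),
    (∀ k, E1 eU eI gI β1 β2 R x y yu k = 0) → (∀ k, E2 eU eI gI β1 R x y xu k = 0) →
    (∀ u, E3 eU eI gU A β1 β2 y xu yu u = 0) → (∀ u, E4 eU eI gU A β2 x xu yu u = 0) →
    x = 0 ∧ y = 0 ∧ xu = 0 ∧ yu = 0

/-! ### the matrix -/

/-- the large block -/
noncomputable def ma (eI gI : ι → F3) (i i' : ι) : F3 := if i = i' then -(eI i * gI i) else 0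

/-- the fixed columns -/
noncomputable def mW (eU : U → F3) (eI : ι → F3) (β1 : U → ι → F3) : U ⊕ (U ⊕ Unit) → ι → F3
  | .inl u => fun i => eI i * eU u * β1 u i
  | .inr (.inl _) => fun _ => 0
  | .inr (.inr _) => fun i => -∑ u, eI i * eU u * β1 u i

/-- the diagonal entry of the small block -/
noncomputable def mdd (eU : U → F3) (eI : ι → F3) (A : U → U → F3) (β2 : ι → U → F3) (u : U) : F3 :=
  -∑ v, eU u * eU v * A v u - ∑ l, eI l * eU u * β2 l u

/-- the small block: `x_v`, `y_u` -/
noncomputable def mxy (eU : U → F3) (eI : ι → F3) (A : U → U → F3) (β2 : ι → U → F3) (v u : U) : F3 :=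
  eU u * eU v * A v u + if v = u then mdd eU eI A β2 u else 0

/-- the small block -/
noncomputable def md (r : ι) (eU : U → F3) (eI : ι → F3) (gU : U → F3) (gI : ι → F3) (A : U → U → F3)
    (β2 : ι → U → F3) :
    {l : ι // l ≠ r} ⊕ (U ⊕ (U ⊕ Unit)) → {l : ι // l ≠ r} ⊕ (U ⊕ (U ⊕ Unit)) → F3
  | .inl x, .inl x' => if x = x' then -(eI x * gI x) else 0
  | .inl _, .inr (.inl _) => 0
  | .inl x, .inr (.inr (.inl u)) => eI x * eU u * β2 x u
  | .inl x, .inr (.inr (.inr _)) => -(eI x * gI x)
  | .inr (.inl _), .inl _ => 0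
  | .inr (.inl u), .inr (.inl v) => if u = v then -(eU u * gU u) else 0
  | .inr (.inl v), .inr (.inr (.inl u)) => mxy eU eI A β2 v u
  | .inr (.inl _), .inr (.inr (.inr _)) => 0
  | .inr (.inr (.inl u)), .inl x => eI x * eU u * β2 x u
  | .inr (.inr (.inl u)), .inr (.inl v) => mxy eU eI A β2 v u
  | .inr (.inr (.inl u)), .inr (.inr (.inl v)) => if u = v then -(eU u * gU u) else 0
  | .inr (.inr (.inl u)), .inr (.inr (.inr _)) => ∑ l, eI l * eU u * β2 l u
  | .inr (.inr (.inr _)), .inl x => -(eI x * gI x)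
  | .inr (.inr (.inr _)), .inr (.inl _) => 0
  | .inr (.inr (.inr _)), .inr (.inr (.inl u)) => ∑ l, eI l * eU u * β2 l u
  | .inr (.inr (.inr _)), .inr (.inr (.inr _)) => -∑ l, eI l * gI l

/-- the random block -/
noncomputable def mB (r : ι) (eU : U → F3) (eI : ι → F3) (β1 : U → ι → F3) (R : ι → ι → F3)
    (x : {l : ι // l ≠ r}) (y : ι) : F3 :=
  eI y * eI x * R x y +
    if x.1 = y then -(∑ k, eI y * eI k * R k y) - ∑ u, eI y * eU u * β1 u y else 0

/-- the extension of the differences by zero -/
noncomputable def xe (r : ι) (x' : {l : ι // l ≠ r} → F3) (l : ι) : F3 := if h : l ≠ r then x' ⟨l, h⟩ else 0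

theorem sum_xe (r : ι) (x' : {l : ι // l ≠ r} → F3) (G : ι → F3) :
    ∑ x : {l : ι // l ≠ r}, G x * x' x = ∑ l, G l * xe r x' l := by
  have h1 : ∑ l, G l * xe r x' l = ∑ l ∈ univ.filter (fun l => l ≠ r), G l * xe r x' l := by
    symm
    apply sum_subset (filter_subset _ _)
    intro l _ hl
    rw [mem_filter, not_and] at hl
    have : ¬ l ≠ r := hl (mem_univ _)
    unfold xe
    rw [dif_neg this, mul_zero]
  rw [h1, Finset.sum_subtype (p := fun l => l ≠ r) (univ.filter fun l => l ≠ r) (by simp)
    (fun l => G l * xe r x' l)]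
  refine sum_congr rfl fun x _ => ?_
  unfold xe
  rw [dif_pos x.2]

variable {r : ι} {eU : U → F3} {eI : ι → F3} {gU : U → F3} {gI : ι → F3} {A : U → U → F3}
  {β1 : U → ι → F3} {β2 : ι → U → F3} {R : ι → ι → F3}

/-- the matrix of the system -/
noncomputable abbrev MM (r : ι) (eU : U → F3) (eI : ι → F3) (gU : U → F3) (gI : ι → F3)
    (A : U → U → F3) (β1 : U → ι → F3) (β2 : ι → U → F3) (b : {l : ι // l ≠ r} → ι → F3) :=
  Mx (ma eI gI) (mW eU eI β1) (md r eU eI gU gI A β2) b

/-- the vector -/
def vv (r : ι) (y : ι → F3) (x' : {l : ι // l ≠ r} → F3) (xu yu : U → F3) (c : F3) :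
    ι ⊕ ({l : ι // l ≠ r} ⊕ (U ⊕ (U ⊕ Unit))) → F3
  | .inl i => y i
  | .inr (.inl x) => x' x
  | .inr (.inr (.inl u)) => xu u
  | .inr (.inr (.inr (.inl u))) => yu u
  | .inr (.inr (.inr (.inr _))) => c

theorem sum_ite_mul {κ : Type} [Fintype κ] [DecidableEq κ] (i : κ) (a : F3) (f : κ → F3) :
    ∑ j, (if i = j then a else 0) * f j = a * f i := by
  rw [Finset.sum_eq_single i]
  · rw [if_pos rfl]
  · intro j _ hj
    rw [if_neg (Ne.symm hj), zero_mul]
  · intro h
    exact absurd (mem_univ _) h

theorem sum_ite_mul' {κ : Type} [Fintype κ] [DecidableEq κ] (i : κ) (a : κ → F3) (f : κ → F3) :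
    ∑ j, (if j = i then a j else 0) * f j = a i * f i := by
  rw [Finset.sum_eq_single i]
  · rw [if_pos rfl]
  · intro j _ hj
    rw [if_neg hj, zero_mul]
  · intro h
    exact absurd (mem_univ _) h

variable (y : ι → F3) (x' : {l : ι // l ≠ r} → F3) (xu yu : U → F3) (c : F3)

/-- the row of `y_i` -/
theorem rowY (i : ι) : Dm (MM r eU eI gU gI A β1 β2 (mB r eU eI β1 R)) (Sum.inl i)
      (vv r y x' xu yu c) =
    eI i * E2 eU eI gI β1 R (fun l => xe r x' l + c) y xu i := by
  unfold MM Mx
  rw [Dm_inl, Fintype.sum_sum_type, Fintype.sum_sum_type, Fintype.sum_sum_type]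
  simp only [Sum.elim_inl, Sum.elim_inr, mW, vv, zero_mul, sum_const_zero, zero_add,
    Fintype.sum_unique, ma, sum_ite_mul]
  have e1 : ∑ x : {l : ι // l ≠ r}, mB r eU eI β1 R x i * x' x =
      ∑ l, (eI i * eI l * R l i +
        if l = i then -(∑ k, eI i * eI k * R k i) - ∑ u, eI i * eU u * β1 u i else 0) *
          xe r x' l :=
    sum_xe r x' fun l => (eI i * eI l * R l i +
        if l = i then -(∑ k, eI i * eI k * R k i) - ∑ u, eI i * eU u * β1 u i else 0)
  rw [e1]
  have e2 : ∑ l, (eI i * eI l * R l i +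
        if l = i then -(∑ k, eI i * eI k * R k i) - ∑ u, eI i * eU u * β1 u i else 0) *
          xe r x' l = ∑ l, eI i * eI l * R l i * xe r x' l +
        (-(∑ k, eI i * eI k * R k i) - ∑ u, eI i * eU u * β1 u i) * xe r x' i := by
    simp only [add_mul, sum_add_distrib, sum_ite_mul']
  rw [e2]
  unfold E2
  have e3 : ∑ l, eI l * (R l i * (xe r x' l + c - (xe r x' i + c))) =
      ∑ l, eI l * R l i * xe r x' l - (∑ l, eI l * R l i) * xe r x' i := by
    rw [sum_mul, ← sum_sub_distrib]
    exact sum_congr rfl fun l _ => by ring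
  have e4 : ∑ u, eU u * (β1 u i * (xu u - (xe r x' i + c))) =
      ∑ u, eU u * β1 u i * xu u - (∑ u, eU u * β1 u i) * (xe r x' i + c) := by
    rw [sum_mul, ← sum_sub_distrib]
    exact sum_congr rfl fun l _ => by ring
  rw [e3, e4]
  have e5 : ∑ l, eI i * eI l * R l i * xe r x' l = eI i * ∑ l, eI l * R l i * xe r x' l := by
    rw [mul_sum]
    exact sum_congr rfl fun l _ => by ring
  have e6 : ∑ k, eI i * eI k * R k i = eI i * ∑ l, eI l * R l i := by
    rw [mul_sum]
    exact sum_congr rfl fun l _ => by ring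
  have e7 : ∑ u, eI i * eU u * β1 u i = eI i * ∑ u, eU u * β1 u i := by
    rw [mul_sum]
    exact sum_congr rfl fun l _ => by ring
  have e8 : ∑ u, eI i * eU u * β1 u i * xu u = eI i * ∑ u, eU u * β1 u i * xu u := by
    rw [mul_sum]
    exact sum_congr rfl fun l _ => by ring
  rw [e5, e6, e7, e8]
  ring

/-- the row of `x_l` -/
theorem rowX (hR : ∀ k, R k k = 0) (l : {l : ι // l ≠ r}) :
    Dm (MM r eU eI gU gI A β1 β2 (mB r eU eI β1 R)) (Sum.inr (Sum.inl l))
      (vv r y x' xu yu c) =
    eI l * E1 eU eI gI β1 β2 R (fun l => xe r x' l + c) y yu l := by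
  unfold MM Mx
  rw [Dm_inr, Fintype.sum_sum_type, Fintype.sum_sum_type, Fintype.sum_sum_type]
  simp only [Sum.elim_inl, Sum.elim_inr, md, vv, zero_mul, sum_const_zero, zero_add,
    Fintype.sum_unique, sum_ite_mul, mB]
  have e1 : ∑ i, (eI i * eI l * R l i +
        if l.1 = i then -(∑ k, eI i * eI k * R k i) - ∑ u, eI i * eU u * β1 u i else 0) * y i =
      ∑ i, eI i * eI l * R l i * y i +
        (-(∑ k, eI l * eI k * R k l) - ∑ u, eI l * eU u * β1 u l) * y l := by
    simp only [add_mul, sum_add_distrib]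
    congr 1
    rw [Finset.sum_eq_single l.1]
    · rw [if_pos rfl]
    · intro j _ hj
      rw [if_neg (Ne.symm hj), zero_mul]
    · intro h
      exact absurd (mem_univ _) h
  rw [e1]
  unfold E1
  have hx : xe r x' l = x' l := by
    unfold xe
    rw [dif_pos l.2]
  simp only [hx]
  have e3 : ∑ k, eI k * (R l k * y k - R k l * y l) =
      ∑ k, eI k * R l k * y k - (∑ k, eI k * R k l) * y l := by
    rw [sum_mul, ← sum_sub_distrib]
    exact sum_congr rfl fun l _ => by ring
  have e4 : ∑ u, eU u * (β2 l u * yu u - β1 u l * y l) =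
      ∑ u, eU u * β2 l u * yu u - (∑ u, eU u * β1 u l) * y l := by
    rw [sum_mul, ← sum_sub_distrib]
    exact sum_congr rfl fun l _ => by ring
  rw [e3, e4]
  have e5 : ∑ i, eI i * eI l * R l i * y i = eI l * ∑ k, eI k * R l k * y k := by
    rw [mul_sum]
    exact sum_congr rfl fun l _ => by ring
  have e6 : ∑ k, eI l * eI k * R k l = eI l * ∑ k, eI k * R k l := by
    rw [mul_sum]
    exact sum_congr rfl fun l _ => by ring
  have e7 : ∑ u, eI l * eU u * β1 u l = eI l * ∑ u, eU u * β1 u l := by
    rw [mul_sum]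
    exact sum_congr rfl fun l _ => by ring
  have e8 : ∑ u, eI l * eU u * β2 l u * yu u = eI l * ∑ u, eU u * β2 l u * yu u := by
    rw [mul_sum]
    exact sum_congr rfl fun l _ => by ring
  rw [e5, e6, e7, e8]
  ring

/-- the row of `x_u` -/
theorem rowXu (u : U) : Dm (MM r eU eI gU gI A β1 β2 (mB r eU eI β1 R))
      (Sum.inr (Sum.inr (Sum.inl u))) (vv r y x' xu yu c) =
    eU u * E3 eU eI gU A β1 β2 y xu yu u := by
  unfold MM Mx
  rw [Dm_inr, Fintype.sum_sum_type, Fintype.sum_sum_type, Fintype.sum_sum_type]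
  simp only [Sum.elim_inl, Sum.elim_inr, md, mW, mxy, vv, zero_mul, sum_const_zero, zero_add,
    add_zero, Fintype.sum_unique, sum_ite_mul, add_mul, sum_add_distrib]
  have e0 : ∑ v, (if u = v then mdd eU eI A β2 v else 0) * yu v = mdd eU eI A β2 u * yu u := by
    rw [Finset.sum_eq_single u]
    · rw [if_pos rfl]
    · intro j _ hj
      rw [if_neg (Ne.symm hj), zero_mul]
    · intro h
      exact absurd (mem_univ _) h
  rw [e0]
  unfold E3 mdd
  have e3 : ∑ l, eI l * (β1 u l * y l - β2 l u * yu u) =
      ∑ l, eI l * β1 u l * y l - (∑ l, eI l * β2 l u) * yu u := by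
    rw [sum_mul, ← sum_sub_distrib]
    exact sum_congr rfl fun l _ => by ring
  have e4 : ∑ v, eU v * (A u v * yu v - A v u * yu u) =
      ∑ v, eU v * A u v * yu v - (∑ v, eU v * A v u) * yu u := by
    rw [sum_mul, ← sum_sub_distrib]
    exact sum_congr rfl fun l _ => by ring
  rw [e3, e4]
  have e5 : ∑ i, eI i * eU u * β1 u i * y i = eU u * ∑ l, eI l * β1 u l * y l := by
    rw [mul_sum]
    exact sum_congr rfl fun l _ => by ring
  have e6 : ∑ v, eU v * eU u * A u v * yu v = eU u * ∑ v, eU v * A u v * yu v := by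
    rw [mul_sum]
    exact sum_congr rfl fun l _ => by ring
  have e7 : ∑ v, eU u * eU v * A v u = eU u * ∑ v, eU v * A v u := by
    rw [mul_sum]
    exact sum_congr rfl fun l _ => by ring
  have e8 : ∑ l, eI l * eU u * β2 l u = eU u * ∑ l, eI l * β2 l u := by
    rw [mul_sum]
    exact sum_congr rfl fun l _ => by ring
  rw [e5, e6, e7, e8]
  ring

/-- the row of `y_u` -/
theorem rowYu (u : U) : Dm (MM r eU eI gU gI A β1 β2 (mB r eU eI β1 R))
      (Sum.inr (Sum.inr (Sum.inr (Sum.inl u)))) (vv r y x' xu yu c) =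
    eU u * E4 eU eI gU A β2 (fun l => xe r x' l + c) xu yu u := by
  unfold MM Mx
  rw [Dm_inr, Fintype.sum_sum_type, Fintype.sum_sum_type, Fintype.sum_sum_type]
  simp only [Sum.elim_inl, Sum.elim_inr, md, mW, mxy, vv, zero_mul, sum_const_zero, zero_add,
    add_zero, Fintype.sum_unique, sum_ite_mul, add_mul, sum_add_distrib]
  have e0 : ∑ v, (if v = u then mdd eU eI A β2 u else 0) * xu v = mdd eU eI A β2 u * xu u := by
    rw [Finset.sum_eq_single u]
    · rw [if_pos rfl]
    · intro j _ hj
      rw [if_neg hj, zero_mul]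
    · intro h
      exact absurd (mem_univ _) h
  have e1 : ∑ x : {l : ι // l ≠ r}, eI x * eU u * β2 x u * x' x =
      ∑ l, eI l * eU u * β2 l u * xe r x' l :=
    sum_xe r x' fun l => eI l * eU u * β2 l u
  rw [e0, e1]
  unfold E4 mdd
  have e3 : ∑ l, eI l * (β2 l u * (xe r x' l + c - xu u)) =
      ∑ l, eI l * β2 l u * xe r x' l + (∑ l, eI l * β2 l u) * (c - xu u) := by
    rw [sum_mul, ← sum_add_distrib]
    exact sum_congr rfl fun l _ => by ring
  have e4 : ∑ v, eU v * (A v u * (xu v - xu u)) =
      ∑ v, eU v * A v u * xu v - (∑ v, eU v * A v u) * xu u := by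
    rw [sum_mul, ← sum_sub_distrib]
    exact sum_congr rfl fun l _ => by ring
  rw [e3, e4]
  have e5 : ∑ l, eI l * eU u * β2 l u * xe r x' l = eU u * ∑ l, eI l * β2 l u * xe r x' l := by
    rw [mul_sum]
    exact sum_congr rfl fun l _ => by ring
  have e6 : ∑ v, eU u * eU v * A v u * xu v = eU u * ∑ v, eU v * A v u * xu v := by
    rw [mul_sum]
    exact sum_congr rfl fun l _ => by ring
  have e7 : ∑ v, eU u * eU v * A v u = eU u * ∑ v, eU v * A v u := by
    rw [mul_sum]
    exact sum_congr rfl fun l _ => by ring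
  have e8 : ∑ l, eI l * eU u * β2 l u = eU u * ∑ l, eI l * β2 l u := by
    rw [mul_sum]
    exact sum_congr rfl fun l _ => by ring
  rw [e5, e6, e7, e8]
  ring

/-- the row of `c` -/
theorem rowC : Dm (MM r eU eI gU gI A β1 β2 (mB r eU eI β1 R))
      (Sum.inr (Sum.inr (Sum.inr (Sum.inr ())))) (vv r y x' xu yu c) =
    ∑ l, eI l * E1 eU eI gI β1 β2 R (fun l => xe r x' l + c) y yu l := by
  unfold MM Mx
  rw [Dm_inr, Fintype.sum_sum_type, Fintype.sum_sum_type, Fintype.sum_sum_type]
  simp only [Sum.elim_inl, Sum.elim_inr, md, mW, mxy, vv, zero_mul, sum_const_zero, zero_add,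
    add_zero, Fintype.sum_unique]
  have e1 : ∑ x : {l : ι // l ≠ r}, -(eI x * gI x) * x' x =
      ∑ l, -(eI l * gI l) * xe r x' l :=
    sum_xe r x' fun l => -(eI l * gI l)
  rw [e1]
  unfold E1
  have e2 : ∑ l, eI l * (∑ k, eI k * (R l k * y k - R k l * y l) +
      ∑ u, eU u * (β2 l u * yu u - β1 u l * y l) - gI l * (xe r x' l + c)) =
      ∑ l, ∑ k, eI l * eI k * R l k * y k - ∑ l, ∑ k, eI l * eI k * R k l * y l +
      (∑ l, ∑ u, eI l * eU u * β2 l u * yu u - ∑ l, (∑ u, eI l * eU u * β1 u l) * y l) -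
      ∑ l, (eI l * gI l * xe r x' l) - (∑ l, eI l * gI l) * c := by
    rw [sum_mul, ← sum_sub_distrib, ← sum_sub_distrib, ← sum_add_distrib, ← sum_sub_distrib,
      ← sum_sub_distrib]
    refine sum_congr rfl fun l _ => ?_
    rw [mul_sub, mul_add, mul_sum, mul_sum, ← sum_sub_distrib, sum_mul, ← sum_sub_distrib]
    have f1 : ∑ k, eI l * (eI k * (R l k * y k - R k l * y l)) =
        ∑ k, (eI l * eI k * R l k * y k - eI l * eI k * R k l * y l) :=
      sum_congr rfl fun k _ => by ring
    have f2 : ∑ u, eI l * (eU u * (β2 l u * yu u - β1 u l * y l)) =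
        ∑ u, (eI l * eU u * β2 l u * yu u - eI l * eU u * β1 u l * y l) :=
      sum_congr rfl fun k _ => by ring
    rw [f1, f2]
    ring
  have e3 : ∑ l, ∑ k, eI l * eI k * R l k * y k = ∑ l, ∑ k, eI l * eI k * R k l * y l := by
    rw [sum_comm]
    exact sum_congr rfl fun k _ => sum_congr rfl fun l _ => by ring
  have e4 : ∑ u, (∑ l, eI l * eU u * β2 l u) * yu u =
      ∑ l, ∑ u, eI l * eU u * β2 l u * yu u := by
    rw [sum_comm]
    exact sum_congr rfl fun u _ => by rw [sum_mul]
  rw [e2, e3, e4]
  simp only [neg_mul, sum_neg_distrib]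
  ring

/-! ### the equivalence -/

theorem vv_surj (r : ι) (w : ι ⊕ ({l : ι // l ≠ r} ⊕ (U ⊕ (U ⊕ Unit))) → F3) :
    w = vv r (fun i => w (.inl i)) (fun x => w (.inr (.inl x))) (fun u => w (.inr (.inr (.inl u))))
      (fun u => w (.inr (.inr (.inr (.inl u))))) (w (.inr (.inr (.inr (.inr ()))))) := by
  funext j
  rcases j with i | x | u | u | u <;> rfl

theorem nsg_iff (heU : ∀ u, eU u ≠ 0) (heI : ∀ i, eI i ≠ 0) (hR : ∀ k, R k k = 0) :
    Nsg (MM r eU eI gU gI A β1 β2 (mB r eU eI β1 R)) ↔ GdXA eU eI gU gI A β1 β2 R := by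
  constructor
  · intro h x y xu yu h1 h2 h3 h4
    have hx : (fun l => xe r (fun l => x l - x r) l + x r) = x := by
      funext l
      unfold xe
      split_ifs with hl
      · simp
      · rw [not_not.1 hl, zero_add]
    have h5 : vv r y (fun l => x l - x r) xu yu (x r) = 0 := by
      apply h
      intro j
      rcases j with i | l | u | u | u
      · rw [rowY, hx, h2, mul_zero]
      · rw [rowX _ _ _ _ _ hR, hx, h1, mul_zero]
      · rw [rowXu, h3, mul_zero]
      · rw [rowYu, hx, h4, mul_zero]
      · rw [rowC, hx]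
        exact sum_eq_zero fun l _ => by rw [h1, mul_zero]
    have hy : y = 0 := funext fun i => congrFun h5 (.inl i)
    have hxu : xu = 0 := funext fun i => congrFun h5 (.inr (.inr (.inl i)))
    have hyu : yu = 0 := funext fun i => congrFun h5 (.inr (.inr (.inr (.inl i))))
    have hc : x r = 0 := congrFun h5 (.inr (.inr (.inr (.inr ()))))
    have hx' : ∀ l : {l : ι // l ≠ r}, x l - x r = 0 := fun l => congrFun h5 (.inr (.inl l))
    refine ⟨?_, hy, hxu, hyu⟩
    funext l
    by_cases hl : l = r
    · rw [hl, hc, Pi.zero_apply]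
    · have := hx' ⟨l, hl⟩
      rw [hc, sub_zero] at this
      exact this
  · intro h w hw
    rw [vv_surj r w] at hw ⊢
    set y : ι → F3 := fun i => w (.inl i)
    set x' : {l : ι // l ≠ r} → F3 := fun x => w (.inr (.inl x))
    set xu : U → F3 := fun u => w (.inr (.inr (.inl u)))
    set yu : U → F3 := fun u => w (.inr (.inr (.inr (.inl u))))
    set c : F3 := w (.inr (.inr (.inr (.inr ()))))
    set x : ι → F3 := fun l => xe r x' l + c with hx
    have h2 : ∀ k, E2 eU eI gI β1 R x y xu k = 0 := by
      intro k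
      have := hw (.inl k)
      rw [rowY] at this
      exact (mul_eq_zero.1 this).resolve_left (heI k)
    have h1' : ∀ k, k ≠ r → E1 eU eI gI β1 β2 R x y yu k = 0 := by
      intro k hk
      have := hw (.inr (.inl ⟨k, hk⟩))
      rw [rowX _ _ _ _ _ hR] at this
      exact (mul_eq_zero.1 this).resolve_left (heI k)
    have h1 : ∀ k, E1 eU eI gI β1 β2 R x y yu k = 0 := by
      intro k
      by_cases hk : k = r
      · subst hk
        have := hw (.inr (.inr (.inr (.inr ()))))
        rw [rowC, Finset.sum_eq_single k (fun l _ hl => by rw [h1' l hl, mul_zero])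
          (fun h => absurd (mem_univ _) h)] at this
        exact (mul_eq_zero.1 this).resolve_left (heI k)
      · exact h1' k hk
    have h3 : ∀ u, E3 eU eI gU A β1 β2 y xu yu u = 0 := by
      intro k
      have := hw (.inr (.inr (.inl k)))
      rw [rowXu] at this
      exact (mul_eq_zero.1 this).resolve_left (heU k)
    have h4 : ∀ u, E4 eU eI gU A β2 x xu yu u = 0 := by
      intro k
      have := hw (.inr (.inr (.inr (.inl k))))
      rw [rowYu] at this
      exact (mul_eq_zero.1 this).resolve_left (heU k)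
    obtain ⟨k1, k2, k3, k4⟩ := h x y xu yu h1 h2 h3 h4
    have hc : c = 0 := by
      have := congrFun k1 r
      simp only [hx] at this
      unfold xe at this
      rw [dif_neg (not_not.2 rfl), zero_add] at this
      exact this
    have hx' : x' = 0 := by
      funext l
      have := congrFun k1 l.1
      simp only [hx, hc, add_zero] at this
      unfold xe at this
      rw [dif_pos l.2] at this
      exact this
    funext j
    rcases j with i | l | u | u | u
    · exact congrFun k2 i
    · exact congrFun hx' l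
    · exact congrFun k3 u
    · exact congrFun k4 u
    · exact hc

/-! ### the bijection -/

theorem ext_self (α : prs (univ : Finset ι) → F3) (k : ι) : ext α k k = 0 := by
  unfold Pool.Agent.Y703.CX.ext
  rw [dif_neg]
  intro h
  unfold prs at h
  rw [mem_filter] at h
  exact h.2.2 rfl

theorem ext_of (α : prs (univ : Finset ι) → F3) (e : prs (univ : Finset ι)) :
    ext α e.1.1 e.1.2 = α e := by
  unfold Pool.Agent.Y703.CX.ext
  rw [dif_pos (show (e.1.1, e.1.2) ∈ prs (univ : Finset ι) from e.2)]

theorem card_prs : (prs (univ : Finset ι)).card = Fintype.card ι * (Fintype.card ι - 1) := by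
  have e : prs (univ : Finset ι) = (univ : Finset ι).offDiag := by
    ext ⟨k, l⟩
    unfold prs
    rw [mem_filter, mem_offDiag]
    constructor
    · rintro ⟨-, -, h⟩
      exact ⟨mem_univ _, mem_univ _, fun h' => h h'.symm⟩
    · rintro ⟨-, -, h⟩
      exact ⟨mem_univ _, mem_univ _, fun h' => h h'.symm⟩
  rw [e, offDiag_card, card_univ, Nat.mul_sub, mul_one]

theorem mB_inj (heI : ∀ i, eI i ≠ 0) : Function.Injective
    fun α : prs (univ : Finset ι) → F3 => mB r eU eI β1 (ext α) := by
  intro α α' h
  have h' : ∀ (x : {l : ι // l ≠ r}) (y : ι), mB r eU eI β1 (ext α) x y =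
      mB r eU eI β1 (ext α') x y := fun x y => congrFun (congrFun h x) y
  -- away from the special row
  have h1 : ∀ k l : ι, k ≠ r → k ≠ l → ext α k l = ext α' k l := by
    intro k l hk hkl
    have := h' ⟨k, hk⟩ l
    unfold mB at this
    rw [if_neg hkl, if_neg hkl, add_zero, add_zero] at this
    exact mul_left_cancel₀ (mul_ne_zero (heI _) (heI _)) this
  have h2 : ∀ l : ι, l ≠ r → ext α r l = ext α' r l := by
    intro l hl
    have := h' ⟨l, hl⟩ l
    unfold mB at this
    rw [if_pos rfl, if_pos rfl, ext_self, ext_self] at this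
    have h3 : ∑ k, eI l * eI k * ext α k l = ∑ k, eI l * eI k * ext α' k l := by
      linear_combination -this
    rw [← Finset.add_sum_erase _ _ (mem_univ r), ← Finset.add_sum_erase _ _ (mem_univ r)] at h3
    have h4 : ∑ k ∈ univ.erase r, eI l * eI k * ext α k l =
        ∑ k ∈ univ.erase r, eI l * eI k * ext α' k l := by
      refine sum_congr rfl fun k hk => ?_
      rw [mem_erase] at hk
      by_cases hkl : k = l
      · subst hkl
        rw [ext_self, ext_self]
      · rw [h1 k l hk.1 hkl]
    rw [h4] at h3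
    have h5 := add_right_cancel h3
    exact mul_left_cancel₀ (mul_ne_zero (heI _) (heI _)) h5
  funext e
  rw [← ext_of α e, ← ext_of α' e]
  have he : e.1.2 ≠ e.1.1 := by
    have := e.2
    unfold prs at this
    rw [mem_filter] at this
    exact this.2.2
  by_cases hk : e.1.1 = r
  · rw [hk] at he ⊢
    exact h2 _ he
  · exact h1 _ _ hk he.symm

theorem card_ne (r : ι) : Fintype.card {l : ι // l ≠ r} = Fintype.card ι - 1 := by
  rw [Fintype.card_subtype_compl, Fintype.card_subtype_eq]

theorem mB_bij (heI : ∀ i, eI i ≠ 0) : Function.Bijective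
    fun α : prs (univ : Finset ι) → F3 => mB r eU eI β1 (ext α) := by
  rw [Fintype.bijective_iff_injective_and_card]
  refine ⟨mB_inj heI, ?_⟩
  rw [Fintype.card_fun, Fintype.card_fun, Fintype.card_fun, ZMod.card, Fintype.card_coe, card_prs,
    card_ne, ← pow_mul]

/-! ### a small set of rows -/

theorem small_set {κ : Type} [Fintype κ] (β : ι → κ → F3)
    (h : ∀ v : κ → F3, (∀ l, ∑ k, v k * β l k = 0) → v = 0) :
    ∃ s : Finset ι, s.card ≤ Fintype.card κ ∧
      ∀ v : κ → F3, (∀ l ∈ s, ∑ k, v k * β l k = 0) → v = 0 := by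
  let Ann : Finset ι → Submodule F3 (κ → F3) := fun s =>
    { carrier := {v | ∀ l ∈ s, ∑ k, v k * β l k = 0}
      add_mem' := by
        intro v v' h1 h2 l hl
        have e : ∑ k, (v + v') k * β l k = ∑ k, v k * β l k + ∑ k, v' k * β l k := by
          rw [← sum_add_distrib]
          exact sum_congr rfl fun k _ => by rw [Pi.add_apply, add_mul]
        rw [e, h1 l hl, h2 l hl, add_zero]
      zero_mem' := fun l _ => sum_eq_zero fun k _ => by rw [Pi.zero_apply, zero_mul]
      smul_mem' := by
        intro c v h1 l hl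
        have e : ∑ k, (c • v) k * β l k = c * ∑ k, v k * β l k := by
          rw [mul_sum]
          exact sum_congr rfl fun k _ => by rw [Pi.smul_apply, smul_eq_mul, mul_assoc]
        rw [e, h1 l hl, mul_zero] }
  have key : ∀ (n : ℕ) (s : Finset ι), finrank F3 (Ann s) ≤ n →
      ∃ s' : Finset ι, s'.card ≤ s.card + n ∧ Ann s' = ⊥ := by
    intro n
    induction n with
    | zero =>
      intro s hs
      exact ⟨s, le_rfl, Submodule.finrank_eq_zero.1 (Nat.le_zero.1 hs)⟩
    | succ n ih =>
      intro s hs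
      by_cases h0 : Ann s = ⊥
      · exact ⟨s, by omega, h0⟩
      · obtain ⟨v, hv, hv0⟩ := Submodule.exists_mem_ne_zero_of_ne_bot h0
        obtain ⟨l, hl⟩ : ∃ l, ∑ k, v k * β l k ≠ 0 := by
          by_contra hno
          push Not at hno
          exact hv0 (h v hno)
        have hlt : Ann (insert l s) < Ann s := by
          refine lt_of_le_of_ne (fun w hw j hj => hw j (mem_insert_of_mem hj)) ?_
          intro e
          apply hl
          have h3 : v ∈ Ann (insert l s) := by rw [e]; exact hv
          exact h3 l (mem_insert_self l s)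
        have h1 := Submodule.finrank_lt_finrank_of_lt hlt
        obtain ⟨s', hs', hs2⟩ := ih (insert l s) (by omega)
        refine ⟨s', ?_, hs2⟩
        have := card_insert_le l s
        omega
  obtain ⟨s', hs', hs2⟩ := key (Fintype.card κ) ∅ (by
    refine (Submodule.finrank_le _).trans (le_of_eq ?_)
    rw [Module.finrank_fintype_fun_eq_card])
  refine ⟨s', by rw [card_empty, zero_add] at hs'; exact hs', fun v hv => ?_⟩
  have : v ∈ Ann s' := hv
  rw [hs2] at this
  exact (Submodule.mem_bot F3).1 this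

/-- the number does not depend on the instances -/
theorem card_inst {α : Type} (i j : Fintype α) (P : α → Prop) (D D' : DecidablePred P) :
    (@Finset.filter α P D (@univ α i)).card = (@Finset.filter α P D' (@univ α j)).card := by
  obtain rfl : i = j := Subsingleton.elim _ _
  obtain rfl : D = D' := Subsingleton.elim _ _
  rfl

/-- **The linear algebra**: the proportion of the good completions. -/
theorem lax (eU : U → F3) (eI : ι → F3) (gU : U → F3) (gI : ι → F3) (A : U → U → F3)
    (β1 : U → ι → F3) (β2 : ι → U → F3) (heU : ∀ u, eU u ≠ 0) (heI : ∀ i, eI i ≠ 0)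
    (h1 : ∀ v : U → F3, (∀ l, ∑ u, v u * β1 u l = 0) → v = 0)
    (h2 : ∀ (v : U → F3) (c : F3), (∀ l, ∑ u, v u * β2 l u + c * gI l = 0) → v = 0 ∧ c = 0)
    (V : ℕ) (hV : 4 * Fintype.card U + 4 + 2 * V ≤
      (univ.filter fun l : ι => gI l ≠ 0).card) :
    |((univ.filter fun α : prs (univ : Finset ι) → F3 =>
        GdXA eU eI gU gI A β1 β2 (ext α)).card : ℝ) - c9 * 3 ^ (prs (univ : Finset ι)).card| ≤
    (2 * Fintype.card ι + 2) * (1 / 3 : ℝ) ^ V * 3 ^ (prs (univ : Finset ι)).card := by
  have hρ : (univ.filter fun l : ι => gI l ≠ 0).card ≤ Fintype.card ι := card_le_univ _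
  have hρ2 : (univ.filter fun l : ι => gI l = 0).card +
      (univ.filter fun l : ι => gI l ≠ 0).card = Fintype.card ι := by
    rw [← card_univ]
    exact Finset.card_filter_add_card_filter_not (s := univ) (fun l => gI l = 0)
  -- a small set of rows
  obtain ⟨s₁, hs₁, hs₁'⟩ := small_set (κ := U ⊕ Unit) (fun l => Sum.elim (β2 l) fun _ => gI l) (by
    intro v hv
    have := h2 (fun u => v (.inl u)) (v (.inr ())) (by
      intro l
      have := hv l
      rw [Fintype.sum_sum_type] at this
      simpa using this)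
    funext j
    rcases j with u | u
    · exact congrFun this.1 u
    · exact this.2)
  rw [Fintype.card_sum, Fintype.card_unit] at hs₁
  obtain ⟨r, hr⟩ : ∃ r, r ∉ s₁ := by
    by_contra hno
    push Not at hno
    have : s₁ = univ := eq_univ_iff_forall.2 hno
    rw [this, card_univ] at hs₁
    omega
  set s₀ : Finset {l : ι // l ≠ r} := s₁.subtype (fun l => l ≠ r) with hs₀
  have hs₀c : s₀.card = s₁.card := by
    rw [hs₀, card_subtype, filter_true_of_mem]
    intro l hl h
    exact hr (h ▸ hl)
  have C : Ch (ma eI gI) (mW eU eI β1) (md r eU eI gU gI A β2) s₀ := by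
    refine ⟨fun y y' h => if_neg h, ?_, ?_, ?_⟩
    · intro z z'
      rcases z with x | u | u | u <;> rcases z' with x' | v | v | v
      · show (if x = x' then -(eI x * gI x) else 0) = if x' = x then -(eI x' * gI x') else 0
        by_cases h : x = x'
        · rw [h]
        · rw [if_neg h, if_neg (Ne.symm h)]
      · rfl
      · rfl
      · rfl
      · rfl
      · show (if u = v then -(eU u * gU u) else 0) = if v = u then -(eU v * gU v) else 0
        by_cases h : u = v
        · rw [h]
        · rw [if_neg h, if_neg (Ne.symm h)]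
      · rfl
      · rfl
      · rfl
      · rfl
      · show (if u = v then -(eU u * gU u) else 0) = if v = u then -(eU v * gU v) else 0
        by_cases h : u = v
        · rw [h]
        · rw [if_neg h, if_neg (Ne.symm h)]
      · rfl
      · rfl
      · rfl
      · rfl
      · rfl
    · intro x x' h
      exact if_neg h
    · intro z hz1 hz2
      have k1 : ∀ u, eU u * (z (.inl u) - z (.inr (.inr ()))) = 0 := by
        have := h1 (fun u => eU u * (z (.inl u) - z (.inr (.inr ())))) (by
          intro l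
          have h3 := hz1 l
          rw [Fintype.sum_sum_type, Fintype.sum_sum_type] at h3
          simp only [mW, zero_mul, sum_const_zero, zero_add, Fintype.sum_unique] at h3
          have h4 : eI l * ∑ u, eU u * (z (.inl u) - z (.inr (.inr ()))) * β1 u l = 0 := by
            rw [← h3, mul_sum, neg_mul, sum_mul, ← sub_eq_add_neg, ← sum_sub_distrib]
            refine sum_congr rfl fun u _ => ?_
            have : (default : Unit) = () := rfl
            rw [this]
            ring
          exact (mul_eq_zero.1 h4).resolve_left (heI l))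
        intro u
        exact congrFun this u
      have k2 : ∀ u, z (.inl u) = z (.inr (.inr ())) := fun u =>
        sub_eq_zero.1 ((mul_eq_zero.1 (k1 u)).resolve_left (heU u))
      have k3 := hs₁' (Sum.elim (fun u => eU u * z (.inr (.inl u))) fun _ => -z (.inr (.inr ()))) (by
        intro l hl
        have hlr : l ≠ r := fun h => hr (h ▸ hl)
        have h3 := hz2 ⟨l, hlr⟩ (by rw [hs₀, mem_subtype]; exact hl)
        rw [Fintype.sum_sum_type, Fintype.sum_sum_type] at h3
        simp only [md, zero_mul, sum_const_zero, zero_add, Fintype.sum_unique] at h3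
        rw [Fintype.sum_sum_type]
        simp only [Sum.elim_inl, Sum.elim_inr, Fintype.sum_unique]
        have h4 : eI l * (∑ u, eU u * z (.inr (.inl u)) * β2 l u +
            -z (.inr (.inr ())) * gI l) = 0 := by
          rw [← h3, mul_add, mul_sum]
          have : (default : Unit) = () := rfl
          rw [this]
          congr 1
          · exact sum_congr rfl fun u _ => by ring
          · ring
        exact (mul_eq_zero.1 h4).resolve_left (heI l))
      have hc : z (.inr (.inr ())) = 0 := by
        have := congrFun k3 (.inr ())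
        simpa using this
      have hy : ∀ u, z (.inr (.inl u)) = 0 := by
        intro u
        have := congrFun k3 (.inl u)
        exact (mul_eq_zero.1 this).resolve_left (heU u)
      funext j
      rcases j with u | u | u
      · rw [k2, hc, Pi.zero_apply]
      · exact hy u
      · exact hc
  have hch := chain C
  -- the count
  have hcount : (univ.filter fun α : prs (univ : Finset ι) → F3 =>
        GdXA eU eI gU gI A β1 β2 (ext α)).card =
      (univ.filter fun b : {l : ι // l ≠ r} → ι → F3 =>
        Nsg (Mx (ma eI gI) (mW eU eI β1) (md r eU eI gU gI A β2) b)).card := by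
    apply card_bij (fun α _ => mB r eU eI β1 (ext α))
    · intro α hα
      rw [mem_filter] at hα ⊢
      exact ⟨mem_univ _, (nsg_iff heU heI (ext_self α)).2 hα.2⟩
    · intro α _ α' _ h
      exact mB_inj heI h
    · intro b hb
      rw [mem_filter] at hb
      obtain ⟨α, hα⟩ := (mB_bij (r := r) (eU := eU) (β1 := β1) heI).2 b
      refine ⟨α, ?_, hα⟩
      rw [mem_filter]
      refine ⟨mem_univ _, (nsg_iff (r := r) heU heI (ext_self α)).1 ?_⟩
      have hα' : mB r eU eI β1 (ext α) = b := hα
      unfold MM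
      rw [hα']
      exact hb.2
  have hcard : Fintype.card {l : ι // l ≠ r} * Fintype.card ι = (prs (univ : Finset ι)).card := by
    rw [card_prs, card_ne, mul_comm]
  refine le_trans (le_of_eq ?_) (hch.trans ?_)
  · rw [hcount, ← hcard]
    exact congrArg (fun t : ℕ => |(t : ℝ) -
      c9 * 3 ^ (Fintype.card { l // l ≠ r } * Fintype.card ι)|) (card_inst _ _ _ _ _)
  rw [hcard]
  refine mul_le_mul_of_nonneg_right ?_ (by positivity)
  -- the error
  have hz0 : (univ.filter fun y : ι => ma eI gI y y = 0).card =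
      (univ.filter fun l : ι => gI l = 0).card := by
    congr 1
    refine filter_congr fun l _ => ?_
    unfold ma
    rw [if_pos rfl, neg_eq_zero, mul_eq_zero]
    exact ⟨fun h => h.resolve_left (heI l), fun h => Or.inr h⟩
  have hn0 : n0 (U ⊕ (U ⊕ Unit)) (md r eU eI gU gI A β2) ≤
      2 * Fintype.card U + 1 + (univ.filter fun l : ι => gI l = 0).card := by
    unfold n0
    rw [Fintype.card_sum, Fintype.card_sum, Fintype.card_unit]
    have : (univ.filter fun x : {l : ι // l ≠ r} =>
        md r eU eI gU gI A β2 (.inl x) (.inl x) = 0).card ≤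
        (univ.filter fun l : ι => gI l = 0).card := by
      apply card_le_card_of_injOn (fun x => x.1)
      · intro x hx
        rw [mem_coe, mem_filter] at hx ⊢
        refine ⟨mem_univ _, ?_⟩
        have h3 := hx.2
        unfold md at h3
        simp only [if_true, neg_eq_zero, mul_eq_zero] at h3
        exact h3.resolve_left (heI _)
      · intro x _ x' _ h
        exact Subtype.ext h
    omega
  set m := Fintype.card ι with hm
  set z0 := (univ.filter fun l : ι => gI l = 0).card with hz0'
  set ρ := (univ.filter fun l : ι => gI l ≠ 0).card with hρ'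
  have hq : (3 : ℝ) ^ n0 (U ⊕ (U ⊕ Unit)) (md r eU eI gU gI A β2) / 3 ^ m ≤
      (1 / 3 : ℝ) ^ (2 * V) := by
    rw [div_le_iff₀ (by positivity), one_div, inv_pow, inv_mul_eq_div, le_div_iff₀ (by positivity),
      ← pow_add]
    exact pow_le_pow_right₀ (by norm_num) (by omega)
  have hsq : Real.sqrt ((3 : ℝ) ^ n0 (U ⊕ (U ⊕ Unit)) (md r eU eI gU gI A β2) / 3 ^ m) ≤
      (1 / 3 : ℝ) ^ V := by
    rw [Real.sqrt_le_left (by positivity), ← pow_mul, mul_comm V 2]
    exact hq
  have hle : (1 / 3 : ℝ) ^ (2 * V) ≤ (1 / 3) ^ V :=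
    pow_le_pow_of_le_one (by norm_num) (by norm_num) (by omega)
  have her : er {l : ι // l ≠ r} ι (U ⊕ (U ⊕ Unit)) (md r eU eI gU gI A β2) ≤
      2 * (1 / 3 : ℝ) ^ V := by
    unfold er
    rw [← hm]
    linarith
  have hlast : (3 : ℝ) ^ ((univ.filter fun y : ι => ma eI gI y y = 0).card + s₀.card +
      Fintype.card (U ⊕ (U ⊕ Unit))) / 3 ^ (Fintype.card {l : ι // l ≠ r} - s₀.card) ≤
      (1 / 3 : ℝ) ^ V := by
    rw [hz0, hs₀c, card_ne, Fintype.card_sum, Fintype.card_sum, Fintype.card_unit,
      div_le_iff₀ (by positivity), one_div, inv_pow, inv_mul_eq_div, le_div_iff₀ (by positivity),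
      ← pow_add]
    exact pow_le_pow_right₀ (by norm_num) (by omega)
  have hX : (Fintype.card {l : ι // l ≠ r} : ℝ) ≤ m := by
    exact_mod_cast Fintype.card_subtype_le _
  have h0 : (0 : ℝ) ≤ (1 / 3 : ℝ) ^ V := by positivity
  calc (Fintype.card {l : ι // l ≠ r} : ℝ) *
        er {l : ι // l ≠ r} ι (U ⊕ (U ⊕ Unit)) (md r eU eI gU gI A β2) +
      2 * (3 ^ ((univ.filter fun y : ι => ma eI gI y y = 0).card + s₀.card +
        Fintype.card (U ⊕ (U ⊕ Unit))) / 3 ^ (Fintype.card {l : ι // l ≠ r} - s₀.card)) ≤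
      m * (2 * (1 / 3 : ℝ) ^ V) + 2 * (1 / 3 : ℝ) ^ V := by
        refine add_le_add (mul_le_mul hX her er_nonneg (Nat.cast_nonneg _)) ?_
        exact mul_le_mul_of_nonneg_left hlast (by norm_num)
    _ = _ := by ring

end

end Run7.h238.X
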