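import Pool.Agent.Run7.h238.C.L3
import Pool.Agent.Run7.h238.X.KeyX

/-!
# Few sets have few large primes with a nonzero symbol
-/

set_option autoImplicit false
set_option linter.unusedVariables false

open scoped Classical

namespace Run7.h238.X

open Finset
open Filter
open Pool.Agent.Y692.QS (Ei)
open Pool.Agent.Y699.E (ez PS nrm lg one_le_lg sum_le_inj ez_zero ez_add CH)
open Pool.Agent.Y703.CX
open Pool.Agent.Y911.CX (TT mem_TT)
open Pool.Agent.Y495.CX.Few (PN mert log_small zz_ge loglog_zz rpow_eq le_of_mem_prod euler)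
open Pool.Agent.R413.SQ (Sml sml_of sml_add)
open Pool.Agent.R413.SQ.FEW (moment)
open Run7.h238.WSie (wsie)
open Run7.h238.WFew (wt wt_nonneg wt_mono wt_union wt_card)
open Run7.h238.WTail (sml_mono)
open Run7.h238.C (SP mem_SP SP_sub_TT TT_prop sml_cs HDc ExC halG L3 t_L3 chV ntV jx U3 chV_ok
  chV_val U3_spec bad)
open Pool.Agent.Y37.CX (Sf prod_sub_le sub_range)

/-- sets with many small primes -/
theorem sml_smallX :
    Sml 0 fun X => wt ((TT X).filter fun S => eL X / 800 < ((sm (zz X) S).card : ℝ)) := by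
  obtain ⟨C, hC0, hC⟩ := mert
  set κ : ℝ := Real.exp 4000 with hκ
  have κ0 : 0 < κ := Real.exp_pos _
  refine sml_cs (C := Real.exp (κ * C)) (a := 4) (fun X => filter_subset _ _)
    (Real.exp_pos _).le (by norm_num) ?_
  filter_upwards [eL_tendsto.eventually (log_small (3 * κ) 1 (by norm_num)),
    eL_tendsto.eventually (eventually_ge_atTop 2)] with X h1 h2
  have h3 := moment X (zz X) (TT X) (fun S hS => TT_prop hS) κ κ0.le
  have h4 := hC (zz X) (zz_ge h2)
  have h5 := loglog_zz h2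
  have h6 : (((TT X).filter fun S => eL X / 800 < ((sm (zz X) S).card : ℝ)).card : ℝ) *
      Real.exp (5 * eL X) ≤ ∑ S ∈ TT X, κ ^ (sm (zz X) S).card := by
    rw [← nsmul_eq_mul, ← sum_const]
    refine le_trans ?_ (sum_le_sum_of_subset_of_nonneg
      (filter_subset (fun S => eL X / 800 < ((sm (zz X) S).card : ℝ)) (TT X))
      fun S _ _ => by positivity)
    refine sum_le_sum fun S hS => ?_
    rw [mem_filter] at hS
    rw [hκ, ← Real.exp_nat_mul]
    apply Real.exp_le_exp.2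
    linarith [hS.2]
  have h7 := h6.trans h3
  have h8 : κ * ∑ p ∈ PN (zz X), (1 : ℝ) / p ≤ κ * C + 1 * eL X := by
    have : κ * ∑ p ∈ PN (zz X), (1 : ℝ) / p ≤ κ * (3 * Real.log (eL X) + C) :=
      mul_le_mul_of_nonneg_left (by linarith) κ0.le
    nlinarith
  have h9 : (X : ℝ) * Real.exp (κ * ∑ p ∈ PN (zz X), (1 : ℝ) / p) ≤
      X * (Real.exp (κ * C) * Real.exp (1 * eL X)) := by
    rw [← Real.exp_add]
    exact mul_le_mul_of_nonneg_left (Real.exp_le_exp.2 h8) (Nat.cast_nonneg _)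
  have h10 := h7.trans h9
  have h11 : (Real.exp (κ * C) * (X * Real.exp (-4 * eL X))) * Real.exp (5 * eL X) =
      X * (Real.exp (κ * C) * Real.exp (1 * eL X)) := by
    have : Real.exp (1 * eL X) = Real.exp (-4 * eL X) * Real.exp (5 * eL X) := by
      rw [← Real.exp_add]
      congr 1
      ring
    rw [this]
    ring
  rw [← h11] at h10
  exact le_of_mul_le_mul_right h10 (Real.exp_pos _)

/-- the family: few large exceptional primes -/
noncomputable def LQ (χ : Ei → ℂ) (X z B : ℕ) : Finset (Finset ℕ) :=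
  (range (X + 1)).powerset.filter fun S => (∀ p ∈ S, p.Prime ∧ p % 3 = 1) ∧ ∏ p ∈ S, p ≤ X ∧
    ((la z S).filter fun p => ExC χ p).card ≤ B

theorem mem_LQ {χ : Ei → ℂ} {X z B : ℕ} {S : Finset ℕ} : S ∈ LQ χ X z B ↔
    S ⊆ range (X + 1) ∧ (∀ p ∈ S, p.Prime ∧ p % 3 = 1) ∧ ∏ p ∈ S, p ≤ X ∧
      ((la z S).filter fun p => ExC χ p).card ≤ B := by
  unfold LQ
  rw [mem_filter, mem_powerset]

theorem LQ_sub {χ : Ei → ℂ} {X z B : ℕ} {S T : Finset ℕ} (hS : S ∈ LQ χ X z B) (h : T ⊆ S) :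
    T ∈ LQ χ X z B := by
  rw [mem_LQ] at hS ⊢
  obtain ⟨a0, a1, a2, a3⟩ := hS
  refine ⟨h.trans a0, fun p hp => a1 p (h hp), ?_, ?_⟩
  · exact (prod_sub_le h fun p hp => (a1 p hp).1).trans a2
  · refine (card_le_card (filter_subset_filter _ ?_)).trans a3
    unfold la
    exact filter_subset_filter _ h

/-- the exceptional parts -/
noncomputable def EQx (X z B : ℕ) : Finset (Finset ℕ) :=
  (PN X).powerset.filter fun S => (la z S).card ≤ B

theorem EQx_sum (X z B : ℕ) : ∑ S ∈ EQx X z B, (1 : ℝ) / ((∏ p ∈ S, p : ℕ) : ℝ) ≤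
    16 ^ B * Real.exp (∑ p ∈ PN z, (1 : ℝ) / p + 1 / 16 * ∑ p ∈ PN X, (1 : ℝ) / p) := by
  set w : ℕ → ℝ := fun p => if p ≤ z then 1 else 1 / 16 with hw
  have h1 : ∀ S ∈ EQx X z B, (1 : ℝ) / ((∏ p ∈ S, p : ℕ) : ℝ) ≤
      16 ^ B * ∏ p ∈ S, (w p * (1 / (p : ℝ))) := by
    intro S hS
    unfold EQx at hS
    rw [mem_filter, mem_powerset] at hS
    rw [prod_mul_distrib, prod_div_distrib, prod_const_one, Nat.cast_prod]
    have h2 : (1 : ℝ) ≤ 16 ^ B * ∏ p ∈ S, w p := by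
      have e1 : ∏ p ∈ S, w p = (1 / 16) ^ (la z S).card := by
        rw [hw]
        simp only
        rw [Finset.prod_ite, prod_const_one, prod_const, one_mul]
        rfl
      rw [e1]
      have h3 : (1 / 16 : ℝ) ^ B ≤ (1 / 16) ^ (la z S).card :=
        pow_le_pow_of_le_one (by norm_num) (by norm_num) hS.2
      have h4 : (16 : ℝ) ^ B * (1 / 16) ^ B = 1 := by
        rw [← mul_pow]
        norm_num
      calc (1 : ℝ) = 16 ^ B * (1 / 16) ^ B := h4.symm
        _ ≤ _ := mul_le_mul_of_nonneg_left h3 (by positivity)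
    have h3 : (0 : ℝ) ≤ 1 / ∏ p ∈ S, (p : ℝ) := by positivity
    calc (1 : ℝ) / ∏ p ∈ S, (p : ℝ) = 1 * (1 / ∏ p ∈ S, (p : ℝ)) := by ring
      _ ≤ (16 ^ B * ∏ p ∈ S, w p) * (1 / ∏ p ∈ S, (p : ℝ)) := mul_le_mul_of_nonneg_right h2 h3
      _ = _ := by ring
  refine (sum_le_sum h1).trans ?_
  rw [← mul_sum]
  refine mul_le_mul_of_nonneg_left ?_ (by positivity)
  have hw0 : ∀ p, 0 ≤ w p := by
    intro p
    simp only [hw]
    split_ifs <;> norm_num
  refine (sum_le_sum_of_subset_of_nonneg (filter_subset _ _)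
    fun S _ _ => prod_nonneg fun p _ => mul_nonneg (hw0 p) (by positivity)).trans ?_
  refine (euler (PN X) (fun p => w p * (1 / (p : ℝ))) fun p _ =>
    mul_nonneg (hw0 p) (by positivity)).trans ?_
  apply Real.exp_le_exp.2
  have h2 : ∀ p ∈ PN X, w p * (1 / (p : ℝ)) ≤ (if p ≤ z then 1 / (p : ℝ) else 0) +
      1 / 16 * (1 / (p : ℝ)) := by
    intro p _
    have h3 : (0 : ℝ) ≤ 1 / (p : ℝ) := by positivity
    simp only [hw]
    split_ifs <;> linarith
  refine (sum_le_sum h2).trans ?_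
  rw [sum_add_distrib, ← mul_sum, ← sum_filter]
  refine add_le_add ?_ le_rfl
  refine sum_le_sum_of_subset_of_nonneg ?_ fun _ _ _ => by positivity
  intro p hp
  rw [mem_filter, mem_filter, mem_Icc] at hp
  rw [mem_filter, mem_Icc]
  exact ⟨⟨hp.1.1.1, hp.2⟩, hp.1.2⟩

/-- the logarithmic density of the family -/
theorem LQ_sum (χ : Ei → ℂ) (X z B : ℕ) : ∑ S ∈ LQ χ X z B, (1 : ℝ) / ((∏ p ∈ S, p : ℕ) : ℝ) ≤
    (∑ S ∈ EQx X z B, (1 : ℝ) / ((∏ p ∈ S, p : ℕ) : ℝ)) *
      ∑ S ∈ HDc χ X, (1 : ℝ) / ((∏ p ∈ S, p : ℕ) : ℝ) := by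
  rw [sum_mul_sum, ← sum_product' (f := fun A B => (1 : ℝ) / ((∏ p ∈ A, p : ℕ) : ℝ) *
    (1 / ((∏ p ∈ B, p : ℕ) : ℝ)))]
  refine sum_le_inj (fun T => (T.filter (fun p => ExC χ p), T.filter (fun p => ¬ ExC χ p)))
    ?_ ?_ ?_ ?_
  · intro T hT
    rw [mem_LQ] at hT
    obtain ⟨a0, a1, a2, a3⟩ := hT
    have hpr : ∀ p ∈ T, p.Prime := fun p hp => (a1 p hp).1
    have hle : ∀ p ∈ T, p ≤ X := fun p hp => by
      have := mem_range.1 (a0 hp); omega
    rw [mem_product]
    refine ⟨?_, ?_⟩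
    · unfold EQx
      rw [mem_filter, mem_powerset]
      refine ⟨fun p hp => ?_, ?_⟩
      · have hp' := (mem_filter.1 hp).1
        rw [mem_filter, mem_Icc]
        exact ⟨⟨(hpr p hp').one_lt.le, hle p hp'⟩, hpr p hp'⟩
      · refine le_trans (le_of_eq ?_) a3
        congr 1
        unfold la
        rw [filter_filter, filter_filter]
        refine filter_congr fun p _ => ?_
        tauto
    · rw [HDc, mem_filter, mem_powerset]
      refine ⟨(filter_subset _ _).trans a0, fun p hp => ?_,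
        (prod_sub_le (filter_subset _ _) hpr).trans a2⟩
      obtain ⟨k1, k3⟩ := mem_filter.1 hp
      unfold ExC at k3
      rw [not_not] at k3
      exact ⟨hpr p k1, (a1 p k1).2, k3.1, k3.2⟩
  · intro S _ T _ h
    simp only [Prod.mk.injEq] at h
    obtain ⟨h1, h2⟩ := h
    rw [← filter_union_filter_not_eq (fun p => ExC χ p) S,
      ← filter_union_filter_not_eq (fun p => ExC χ p) T, h1, h2]
  · intro T _
    apply le_of_eq
    simp only
    rw [← prod_filter_mul_prod_filter_not T (fun p => ExC χ p)]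
    push_cast
    rw [one_div_mul_one_div]
  · intro x _
    positivity

/-- the weight of the family -/
theorem sml_LQ (hs : S_SIE) (hL : LamP) {χ : Ei → ℂ} (hχ : CH χ) {N : ℕ} (hN : 1 ≤ N)
    (hB : Run7.h238.C.Bd χ N) : Sml 0 fun X => wt (LQ χ X (zz X) ⌊eL X / 40⌋₊) := by
  obtain ⟨C, hC0, hC⟩ := mert
  obtain ⟨C', hC'1, hC'⟩ := wsie hs
  set D : ℝ := 864 * (lg N) ^ (1 / 6 : ℝ) with hD
  have hD0 : 0 ≤ D := by
    have := one_le_lg N
    positivity
  refine sml_of (C := C' * (D * Real.exp (2 * C)) ^ 2) (a := 1 / 50) (by norm_num) ?_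
  filter_upwards [eL_tendsto.eventually (log_small 3 (1 / 80) (by norm_num)),
    eL_tendsto.eventually (eventually_ge_atTop 2), eventually_ge_atTop 3] with X h1 h2 h3
  set l := eL X with hl
  have h4 := hC (zz X) (zz_ge h2)
  have h5 := loglog_zz h2
  have h6 := hC X h3
  rw [← hl] at h5
  have h7 := hC' X (LQ χ X (zz X) ⌊l / 40⌋₊) (by omega)
    (fun S hS => ⟨fun p hp => ((mem_LQ.1 hS).2.1 p hp).1, (mem_LQ.1 hS).2.2.1⟩)
    (fun S hS T hT => LQ_sub hS hT)
  have hlX : Real.log X = Real.exp l := by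
    have := rpow_eq (X := X) h2 1
    rwa [Real.rpow_one, one_mul] at this
  have h8 := LQ_sum χ X (zz X) ⌊l / 40⌋₊
  have h9 := EQx_sum X (zz X) ⌊l / 40⌋₊
  have h10 := halG hL hχ hN hB (T := X) (by omega)
  have h16 : (16 : ℝ) ^ ⌊l / 40⌋₊ ≤ Real.exp (7 / 100 * l) := by
    have e1 : (16 : ℝ) = Real.exp (Real.log 16) := (Real.exp_log (by norm_num)).symm
    rw [e1, ← Real.exp_nat_mul]
    apply Real.exp_le_exp.2
    have e2 : ((⌊l / 40⌋₊ : ℕ) : ℝ) ≤ l / 40 := Nat.floor_le (by positivity)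
    have e3 : Real.log 16 ≤ 28 / 10 := by
      have : (16 : ℝ) = 2 ^ 4 := by norm_num
      rw [this, Real.log_pow]
      have := Real.log_two_lt_d9
      push_cast
      linarith
    have e4 : 0 ≤ Real.log 16 := Real.log_nonneg (by norm_num)
    calc ((⌊l / 40⌋₊ : ℕ) : ℝ) * Real.log 16 ≤ (l / 40) * (28 / 10) :=
          mul_le_mul e2 e3 e4 (by positivity)
      _ = _ := by ring
  have h11 : ∑ p ∈ PN (zz X), (1 : ℝ) / p + 1 / 16 * ∑ p ∈ PN X, (1 : ℝ) / p ≤
      2 * C + (3 * Real.log l + 1 / 16 * l) := by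
    have : 1 / 16 * ∑ p ∈ PN X, (1 : ℝ) / p ≤ 1 / 16 * (l + C) :=
      mul_le_mul_of_nonneg_left h6 (by norm_num)
    linarith
  have h12 : ∑ S ∈ EQx X (zz X) ⌊l / 40⌋₊, (1 : ℝ) / ((∏ p ∈ S, p : ℕ) : ℝ) ≤
      Real.exp (2 * C) * Real.exp (3 * Real.log l + (7 / 100 + 1 / 16) * l) := by
    refine h9.trans ?_
    calc (16 : ℝ) ^ ⌊l / 40⌋₊ * Real.exp (∑ p ∈ PN (zz X), (1 : ℝ) / p +
          1 / 16 * ∑ p ∈ PN X, (1 : ℝ) / p) ≤
          Real.exp (7 / 100 * l) * Real.exp (2 * C + (3 * Real.log l + 1 / 16 * l)) := by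
          gcongr
      _ = _ := by
          rw [← Real.exp_add, ← Real.exp_add]
          congr 1
          ring
  have h13 : ∑ S ∈ HDc χ X, (1 : ℝ) / ((∏ p ∈ S, p : ℕ) : ℝ) ≤ D * Real.exp (1 / 3 * l) := by
    refine h10.trans (le_of_eq ?_)
    rw [hlX, ← Real.exp_mul, hD, mul_comm l]
  have hn1 : 0 ≤ ∑ S ∈ HDc χ X, (1 : ℝ) / ((∏ p ∈ S, p : ℕ) : ℝ) :=
    sum_nonneg fun _ _ => by positivity
  have hn2 : 0 ≤ ∑ S ∈ LQ χ X (zz X) ⌊l / 40⌋₊, (1 : ℝ) / ((∏ p ∈ S, p : ℕ) : ℝ) :=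
    sum_nonneg fun _ _ => by positivity
  have h14 : ∑ S ∈ LQ χ X (zz X) ⌊l / 40⌋₊, (1 : ℝ) / ((∏ p ∈ S, p : ℕ) : ℝ) ≤
      (D * Real.exp (2 * C)) * Real.exp (49 / 100 * l) := by
    refine h8.trans ?_
    calc (∑ S ∈ EQx X (zz X) ⌊l / 40⌋₊, (1 : ℝ) / ((∏ p ∈ S, p : ℕ) : ℝ)) *
          ∑ S ∈ HDc χ X, (1 : ℝ) / ((∏ p ∈ S, p : ℕ) : ℝ) ≤
          (Real.exp (2 * C) * Real.exp (3 * Real.log l + (7 / 100 + 1 / 16) * l)) *
            (D * Real.exp (1 / 3 * l)) := mul_le_mul h12 h13 hn1 (by positivity)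
      _ = (D * Real.exp (2 * C)) *
          Real.exp (3 * Real.log l + (7 / 100 + 1 / 16) * l + 1 / 3 * l) := by
          rw [Real.exp_add (3 * Real.log l + (7 / 100 + 1 / 16) * l)]
          ring
      _ ≤ _ := by
          refine mul_le_mul_of_nonneg_left ?_ (by positivity)
          apply Real.exp_le_exp.2
          linarith
  have h15 := pow_le_pow_left₀ hn2 h14 2
  rw [hlX] at h7
  have h17 : wt (LQ χ X (zz X) ⌊l / 40⌋₊) * Real.exp l ≤
      C' * X * ((D * Real.exp (2 * C)) * Real.exp (49 / 100 * l)) ^ 2 :=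
    h7.trans (mul_le_mul_of_nonneg_left h15 (by positivity))
  have h18 : (C' * (D * Real.exp (2 * C)) ^ 2 * (X * Real.exp (-(1 / 50) * l))) * Real.exp l =
      C' * X * ((D * Real.exp (2 * C)) * Real.exp (49 / 100 * l)) ^ 2 := by
    have e1 : Real.exp (49 / 100 * l) ^ 2 = Real.exp (-(1 / 50) * l) * Real.exp l := by
      rw [← Real.exp_nat_mul, ← Real.exp_add]
      congr 1
      push_cast
      ring
    rw [mul_pow _ (Real.exp (49 / 100 * l)), e1]
    ring
  rw [← h18] at h17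
  exact le_of_mul_le_mul_right h17 (Real.exp_pos _)

theorem ez_eq_one {a : ZMod 3} (h : ez a = 1) : a = 0 := by
  by_contra hne
  exact Pool.Agent.Y699.E.ez_ne hne h

/-- the character of `q` -/
noncomputable def chq (q : ℕ) : Ei → ℂ := chV {q} false fun _ => 1

theorem sf_q {q : ℕ} (hq3 : q ≠ 3) : Sf false (U3 {q}) = {q} := by
  unfold Sf U3
  rw [if_neg (by simp)]
  ext x
  rw [mem_filter, mem_singleton]
  exact ⟨fun h => h.1, fun h => ⟨h, h ▸ hq3⟩⟩

theorem jx_q {q : ℕ} (hq3 : q ≠ 3) : jx {q} false (fun _ => 1) = 0 := by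
  unfold jx
  rw [if_neg (by simp), if_neg]
  rw [mem_singleton]
  exact fun h => hq3 h.symm

theorem exC_q (hL : LamP) (h3 : L3) {q p : ℕ} (hq : q.Prime) (hq1 : q % 3 = 2) (hp : p.Prime)
    (hp1 : p % 3 = 1) : ExC (chq q) p ↔ lam p q ≠ 0 := by
  have hq3 : q ≠ 3 := by rintro rfl; omega
  have hpU : p ∉ ({q} : Finset ℕ) := by
    rw [mem_singleton]
    rintro rfl
    omega
  obtain ⟨e1, e2⟩ := chV_val hL h3 (U := {q}) (fun u hu => by
    rw [mem_singleton] at hu
    rw [hu]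
    exact hq) false (fun _ => 1) hp hp1 hpU
  rw [sf_q hq3, jx_q hq3] at e1 e2
  simp only [sum_singleton, one_mul, Bool.false_eq_true, if_false, zero_mul, add_zero,
    neg_zero] at e1 e2
  unfold ExC chq
  rw [e1, e2, not_iff_not]
  constructor
  · rintro ⟨h, -⟩
    exact ez_eq_one h
  · intro h
    rw [h, neg_zero, ez_zero]
    exact ⟨rfl, rfl⟩

theorem chq_ok (hL : LamP) {q : ℕ} (hq : q.Prime) (hq1 : q % 3 = 2) :
    CH (chq q) ∧ ∃ N, 1 ≤ N ∧ Run7.h238.C.Bd (chq q) N := by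
  have hq3 : q ≠ 3 := by rintro rfl; omega
  have hU : ∀ u ∈ ({q} : Finset ℕ), u.Prime := fun u hu => by
    rw [mem_singleton] at hu
    rw [hu]
    exact hq
  obtain ⟨h1, h2⟩ := chV_ok hL hU false (fun _ => 1) (Or.inl ⟨q, by
    rw [sf_q hq3]
    exact mem_singleton_self q, one_ne_zero⟩)
  refine ⟨h1, _, ?_, h2⟩
  have hdP := Pool.Agent.Y37.CX.dtP hL (U3_spec hU) false (fun _ => 1)
  have hdQ := Pool.Agent.Y37.CX.dtQ hL (U3_spec hU) false (fun _ => 1)
  have a1 := Pool.Agent.Y699.E.nrm_pos' hdP.ps.ne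
  have a2 := Pool.Agent.Y699.E.nrm_pos' hdQ.ps.ne
  have := Nat.mul_pos a1 a2
  omega

/-- the parameter -/
noncomputable def VX (X : ℕ) : ℕ := ⌊eL X / 800⌋₊

/-- degenerate labels -/
theorem not_nx {q V : ℕ} {S₀ S₁ : Finset ℕ} (hq : q.Prime) (hq1 : q % 3 = 2)
    (hS₀ : ∀ u ∈ S₀, u % 3 = 1) (hN : Nd ({q} ∪ S₀) S₁)
    (hf : 4 * S₀.card + 4 + 2 * V ≤ (S₁.filter fun x => lam x q ≠ 0).card) :
    Nx (fun x => lam x q) V S₀ S₁ := by
  have hqS : q ∉ S₀ := fun h => by
    have := hS₀ q h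
    omega
  refine ⟨fun v hv => ?_, fun w c hwc => ?_, hf⟩
  · obtain ⟨u, hu⟩ := Function.ne_iff.1 hv
    have h1 := hN.1 (fun n => if h : n ∈ S₀ then v ⟨n, h⟩ else 0) ⟨u, mem_union_right _ u.2,
      hS₀ u u.2, by
        simp only [u.2, dite_true]
        exact hu⟩
    obtain ⟨x, hx⟩ := card_pos.1 (lt_of_lt_of_le (by norm_num) h1)
    rw [mem_filter] at hx
    refine ⟨x, hx.1, ?_⟩
    have e : ({q} ∪ S₀).filter (fun u => u % 3 = 1) = S₀ := by
      ext n
      rw [mem_filter, mem_union, mem_singleton]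
      constructor
      · rintro ⟨rfl | h, h2⟩
        · omega
        · exact h
      · intro h
        exact ⟨Or.inr h, hS₀ n h⟩
    rw [e] at hx
    have e2 : ∑ u ∈ S₀, (if h : u ∈ S₀ then v ⟨u, h⟩ else 0) * lam u x =
        ∑ u : S₀, v u * lam u x := by
      rw [← Finset.sum_coe_sort S₀]
      refine sum_congr rfl fun u _ => ?_
      simp only [u.2, dite_true]
    rw [← e2]
    exact hx.2.2
  · have h1 := hN.2 (fun n => if h : n ∈ S₀ then w ⟨n, h⟩ else c) (by
      by_cases hc : c = 0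
      · have hw : w ≠ 0 := fun h => hwc ⟨h, hc⟩
        obtain ⟨u, hu⟩ := Function.ne_iff.1 hw
        exact ⟨u, mem_union_right _ u.2, by
          simp only [u.2, dite_true]
          exact hu⟩
      · exact ⟨q, mem_union_left _ (mem_singleton_self q), by
          simp only [hqS, dite_false]
          exact hc⟩)
    obtain ⟨x, hx, hx1, hx2⟩ := h1
    refine ⟨x, hx, ?_⟩
    have e2 : ∑ u ∈ {q} ∪ S₀, (if h : u ∈ S₀ then w ⟨u, h⟩ else c) * lam x u =
        ∑ u : S₀, w u * lam x u + c * lam x q := by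
      rw [sum_union (disjoint_singleton_left.2 hqS), sum_singleton]
      simp only [hqS, dite_false]
      rw [add_comm]
      congr 1
      rw [← Finset.sum_coe_sort S₀]
      refine sum_congr rfl fun u _ => ?_
      simp only [u.2, dite_true]
    rw [← e2]
    exact hx2

/-- **the sets with degenerate labels or few large primes are few** -/
theorem sml_nx (hs : S_SIE) (hL : LamP) (h3 : L3) {q : ℕ} (hq : q.Prime) (hq1 : q % 3 = 2) :
    Sml 0 fun X => wt ((SP X).filter fun S => S.card ≤ kk X ∧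
      ¬ Nx (fun x => lam x q) (VX X) (sm (zz X) S) (la (zz X) S)) := by
  obtain ⟨hχ, N, hN1, hB⟩ := chq_ok hL hq hq1
  have s1 := sml_smallX
  have s2 := sml_LQ hs hL hχ hN1 hB
  have s3 := bad hs hL h3 {q} (fun t ht => by
    rw [mem_singleton] at ht
    rw [ht]
    exact hq)
  refine sml_mono ?_ (sml_add (sml_add s1 s2) s3)
  filter_upwards [ev_eL 800] with X h9
  have h11 : ((SP X).filter fun S => S.card ≤ kk X ∧
      ¬ Nx (fun x => lam x q) (VX X) (sm (zz X) S) (la (zz X) S)) ⊆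
      (((TT X).filter fun S => eL X / 800 < ((sm (zz X) S).card : ℝ)) ∪
        LQ (chq q) X (zz X) ⌊eL X / 40⌋₊) ∪
      (SP X).filter fun S => S.card ≤ kk X ∧ ¬ Nd ({q} ∪ sm (zz X) S) (la (zz X) S) := by
    intro S hS
    rw [mem_filter] at hS
    obtain ⟨a1, a3⟩ := mem_SP.1 hS.1
    rw [mem_union, mem_union, mem_filter, mem_filter]
    by_cases hc : eL X / 800 < ((sm (zz X) S).card : ℝ)
    · exact Or.inl (Or.inl ⟨SP_sub_TT X hS.1, hc⟩)
    · by_cases hd : Nd ({q} ∪ sm (zz X) S) (la (zz X) S)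
      · left
        right
        rw [not_lt] at hc
        rw [mem_LQ]
        refine ⟨sub_range (fun p hp => (a1 p hp).1) a3, a1, a3, ?_⟩
        apply Nat.le_floor
        have h12 : ¬ (4 * (sm (zz X) S).card + 4 + 2 * VX X ≤
            ((la (zz X) S).filter fun x => lam x q ≠ 0).card) := by
          intro hf
          exact hS.2.2 (not_nx hq hq1 (fun u hu => (a1 u (mem_filter.1 hu).1).2) hd hf)
        have e : (la (zz X) S).filter (fun p => ExC (chq q) p) =
            (la (zz X) S).filter fun x => lam x q ≠ 0 := by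
          refine filter_congr fun p hp => ?_
          have := a1 p (mem_filter.1 hp).1
          exact exC_q hL h3 hq hq1 this.1 this.2
        rw [e]
        rw [not_le] at h12
        have h13 : (((la (zz X) S).filter fun x => lam x q ≠ 0).card : ℝ) ≤
            4 * ((sm (zz X) S).card : ℝ) + 4 + 2 * (VX X : ℝ) := by
          exact_mod_cast h12.le
        have h14 : (VX X : ℝ) ≤ eL X / 800 := Nat.floor_le (by linarith)
        linarith
      · exact Or.inr ⟨hS.1, hS.2.1, hd⟩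
  exact (wt_mono h11).trans ((wt_union _ _).trans (add_le_add (wt_union _ _) le_rfl))

end Run7.h238.X
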