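import Pool.Agent.Run7.h238.X.Cnt
import Pool.Agent.Run7.h238.X.LawX

/-!
# The number of the pairs `(u, v)`
-/

set_option autoImplicit false
set_option linter.unusedVariables false

open scoped Classical

namespace Run7.h238.X

open Finset Filter
open Pool.Agent.Y692.QS
open Pool.Agent.Y703.CX
open Pool.Agent.Y703.XK (c9)
open Pool.Agent.Y715.T.RecG (Pq)
open Pool.Agent.Run7.h741.CC (bet nr_bet bet_mul n_three)
open Run7.h238.C.ERep (PR pf_of_mem)
open Run7.h238.C (SP mem_SP)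
open Run7.h238.WFew (wt)

/-- the pair `(u, v)` is the pair of a conductor at most `X` -/
def Pt (X : ℕ) (b : ℕ × ℕ) : Prop :=
  0 < b.1 ∧ 0 < b.2 ∧ ∃ n : ℕ, n ≤ X ∧ Squarefree n ∧ 4 * n = b.1 ^ 2 + 27 * b.2 ^ 2

/-- the pairs -/
noncomputable def PN (X : ℕ) : Finset (ℕ × ℕ) :=
  ((range (4 * X + 1)) ×ˢ (range (4 * X + 1))).filter (Pt X)

theorem mem_PN {X : ℕ} {b : ℕ × ℕ} : b ∈ PN X ↔ Pt X b := by
  unfold PN
  rw [mem_filter, mem_product, mem_range, mem_range]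
  refine ⟨fun h => h.2, fun h => ⟨?_, h⟩⟩
  obtain ⟨h1, h2, n, h3, -, h4⟩ := h
  constructor <;> nlinarith

/-- the pair of an element -/
def fz (z : Ei) : ℕ × ℕ := ((2 * z.re - z.im).natAbs, (z.im / 3).natAbs)

theorem fz_bet {u v : ℤ} {n : ℕ} (hn : 4 * (n : ℤ) = u ^ 2 + 27 * v ^ 2) :
    fz (bet u v) = (u.natAbs, v.natAbs) := by
  have h1 := Pool.Agent.Run7.h741.CC.par hn
  have e1 : 2 * (bet u v).re - (bet u v).im = u := by
    show 2 * ((u + 3 * v) / 2) - 3 * v = u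
    omega
  have e2 : (bet u v).im / 3 = v := by
    show 3 * v / 3 = v
    omega
  unfold fz
  rw [e1, e2]

theorem fz_neg {u v : ℤ} {n : ℕ} (hn : 4 * (n : ℤ) = u ^ 2 + 27 * v ^ 2) :
    fz (-bet u v) = (u.natAbs, v.natAbs) := by
  rw [← bet_neg hn, fz_bet (n := n) (by rw [hn]; ring), Int.natAbs_neg, Int.natAbs_neg]

theorem fz_star {u v : ℤ} {n : ℕ} (hn : 4 * (n : ℤ) = u ^ 2 + 27 * v ^ 2) :
    fz (star (bet u v)) = (u.natAbs, v.natAbs) := by
  rw [← bet_star hn, fz_bet (n := n) (by rw [hn]; ring), Int.natAbs_neg]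

/-- the conductor of a pair -/
theorem pair_facts {X : ℕ} {u v : ℕ} {n : ℕ} (hsq : Squarefree n)
    (h4 : 4 * n = u ^ 2 + 27 * v ^ 2) : 4 * (n : ℤ) = (u : ℤ) ^ 2 + 27 * (v : ℤ) ^ 2 ∧
    (∀ p ∈ n.primeFactors, p.Prime ∧ p % 3 = 1) ∧ ∏ p ∈ n.primeFactors, p = n := by
  have h4' : 4 * (n : ℤ) = (u : ℤ) ^ 2 + 27 * (v : ℤ) ^ 2 := by exact_mod_cast h4
  have h3 := n_three h4' hsq
  have hPR : bet u v ∈ PR n := by
    refine ⟨nr_bet h4', fun l hl hd => ?_⟩
    obtain ⟨c, hc⟩ := hd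
    have h5 := congrArg nr hc
    rw [nr_bet h4', nr_mul, nr_nat] at h5
    have h6 : l * l ∣ n := by
      have : ((l * l : ℕ) : ℤ) ∣ (n : ℤ) := ⟨nr c, by rw [h5]; push_cast; ring⟩
      exact_mod_cast this
    have h7 := hsq l h6
    rw [Nat.isUnit_iff] at h7
    exact hl.one_lt.ne' h7
  refine ⟨h4', fun p hp => ⟨Nat.prime_of_mem_primeFactors hp,
    pf_of_mem (by omega) hPR p hp⟩, Nat.prod_primeFactors_of_squarefree hsq⟩

theorem sqf_prod {S : Finset ℕ} (hS : ∀ p ∈ S, p.Prime ∧ p % 3 = 1) : Squarefree (∏ p ∈ S, p) := by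
  induction S using Finset.induction_on with
  | empty =>
    rw [prod_empty]
    exact squarefree_one
  | insert a s ha ih =>
    rw [prod_insert ha]
    have h1 := ih fun p hp => hS p (mem_insert_of_mem hp)
    have h2 := (hS a (mem_insert_self _ _)).1
    refine (Nat.squarefree_mul ?_).2 ⟨h2.squarefree, h1⟩
    refine Nat.Coprime.prod_right fun p hp => ?_
    exact (Nat.coprime_primes h2 (hS p (mem_insert_of_mem hp)).1).2 fun h => ha (h ▸ hp)

theorem prod_mod3 {S : Finset ℕ} (hS : ∀ p ∈ S, p.Prime ∧ p % 3 = 1) : (∏ p ∈ S, p) % 3 = 1 := by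
  induction S using Finset.induction_on with
  | empty => rfl
  | insert a s ha ih =>
    rw [prod_insert ha, Nat.mul_mod, ih fun p hp => hS p (mem_insert_of_mem hp),
      (hS a (mem_insert_self _ _)).2]

theorem prod_one {S : Finset ℕ} (hS : ∀ p ∈ S, p.Prime ∧ p % 3 = 1) (h : ∏ p ∈ S, p = 1) :
    S = ∅ := by
  by_contra hne
  obtain ⟨p, hp⟩ := nonempty_iff_ne_empty.2 hne
  have h1 : p ∣ 1 := by
    rw [← h]
    exact dvd_prod_of_mem _ hp
  exact (hS p hp).1.one_lt.ne' (Nat.dvd_one.1 h1)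

/-- the element of a set as `β` -/
theorem be_bet {S A : Finset ℕ} (hS : ∀ p ∈ S, p.Prime ∧ p % 3 = 1) : ∃ u v : ℤ,
    4 * ((∏ p ∈ S, p : ℕ) : ℤ) = u ^ 2 + 27 * v ^ 2 ∧ be S A = bet u v := by
  have h3 := pri_be (A := A) hS
  have h4 : (((3 : ℤ) : Ei)) ∣ be S A - 1 := by exact_mod_cast h3
  rw [int_dvd, QuadraticAlgebra.im_sub, QuadraticAlgebra.im_one, sub_zero] at h4
  exact exists_bet h4.2 (nr_be hS)

theorem not_pri {z : Ei} (h : (3 : Ei) ∣ z - 1) : ¬ (3 : Ei) ∣ -z - 1 := by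
  intro h2
  have h4 : (((3 : ℤ) : Ei)) ∣ z - 1 := by exact_mod_cast h
  have h5 : (((3 : ℤ) : Ei)) ∣ -z - 1 := by exact_mod_cast h2
  rw [int_dvd, QuadraticAlgebra.re_sub, QuadraticAlgebra.re_one] at h4 h5
  rw [QuadraticAlgebra.re_neg] at h5
  obtain ⟨h4, -⟩ := h4
  obtain ⟨h5, -⟩ := h5
  omega

section
variable {R : Finset ℕ → Finset ℕ → Prop} {Gp : ℕ × ℕ → Prop}

/-- the good pairs of sets -/
noncomputable def sX (R : Finset ℕ → Finset ℕ → Prop) (X : ℕ) :
    Finset ((_ : Finset ℕ) × Finset ℕ) :=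
  ((SP X).filter (·.Nonempty)).sigma fun S => S.powerset.filter fun A => R S A

/-- the translation -/
def Tr (R : Finset ℕ → Finset ℕ → Prop) (Gp : ℕ × ℕ → Prop) : Prop :=
  ∀ (S A : Finset ℕ), (∀ p ∈ S, p.Prime ∧ p % 3 = 1) → A ⊆ S → S.Nonempty → ∀ u v : ℤ,
    be S A = bet u v → 4 * ((∏ p ∈ S, p : ℕ) : ℤ) = u ^ 2 + 27 * v ^ 2 →
      (Gp (u.natAbs, v.natAbs) ↔ R S A)

theorem maps (hT : Tr R Gp) (X : ℕ) : ∀ x ∈ sX R X, fz (be x.1 x.2) ∈ (PN X).filter Gp := by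
  rintro ⟨S, A⟩ hx
  unfold sX at hx
  rw [mem_sigma, mem_filter, mem_filter, mem_powerset, mem_SP] at hx
  simp only at hx ⊢
  obtain ⟨⟨⟨hS, hX⟩, hne⟩, hA, hg⟩ := hx
  obtain ⟨u, v, h4, hb⟩ := be_bet (A := A) hS
  rw [hb, fz_bet h4, mem_filter, mem_PN]
  have hm := prod_mod3 hS
  refine ⟨⟨?_, ?_, ∏ p ∈ S, p, hX, sqf_prod hS, ?_⟩, (hT S A hS hA hne u v hb h4).2 hg⟩
  · show 0 < u.natAbs
    rw [Int.natAbs_pos]
    rintro rfl
    omega
  · show 0 < v.natAbs
    rw [Int.natAbs_pos]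
    rintro rfl
    have h5 : (u / 2) * 2 = u := by
      have h6 : u % 2 = 0 := by
        rcases Int.emod_two_eq_zero_or_one u with h | h
        · exact h
        · exfalso
          have h7 : (u ^ 2) % 2 = 1 := by
            rw [pow_two, Int.mul_emod, h]
            rfl
          omega
      omega
    have h6 : (∏ p ∈ S, p : ℕ) = (u / 2).natAbs * (u / 2).natAbs := by
      have h7 : ((∏ p ∈ S, p : ℕ) : ℤ) = (u / 2) * (u / 2) := by
        have h8 : 4 * ((∏ p ∈ S, p : ℕ) : ℤ) = 4 * ((u / 2) * (u / 2)) := by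
          rw [h4]
          nth_rewrite 1 [← h5]
          ring
        linarith
      rw [← Int.natAbs_mul, ← h7, Int.natAbs_natCast]
    have h7 := sqf_prod hS
    rw [h6] at h7
    have h8 := h7 _ dvd_rfl
    rw [Nat.isUnit_iff] at h8
    rw [h8] at h6
    exact hne.ne_empty (prod_one hS h6)
  · have h5 : ((4 * ∏ p ∈ S, p : ℕ) : ℤ) = ((u.natAbs ^ 2 + 27 * v.natAbs ^ 2 : ℕ) : ℤ) := by
      push_cast
      rw [sq_abs, sq_abs]
      rw [← h4]
      push_cast
      rfl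
    exact_mod_cast h5

theorem fib (hT : Tr R Gp) (X : ℕ) : ∀ b ∈ (PN X).filter Gp,
    ((sX R X).filter fun x => fz (be x.1 x.2) = b).card = 2 := by
  rintro ⟨u, v⟩ hb
  rw [mem_filter, mem_PN] at hb
  obtain ⟨⟨hu, hv, n, hnX, hsq, h4⟩, hG⟩ := hb
  simp only at hu hv h4
  obtain ⟨h4', hS, hP⟩ := pair_facts (X := X) hsq h4
  set S := n.primeFactors with hSd
  have hn3 := n_three h4' hsq
  have hn1 : n ≠ 1 := by
    rintro rfl
    nlinarith
  have hne : S.Nonempty := by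
    rw [nonempty_iff_ne_empty]
    intro h
    rw [h, prod_empty] at hP
    exact hn1 hP.symm
  -- the primary element
  obtain ⟨z, hz, h3⟩ : ∃ z : Ei, (z = bet u v ∨ z = -bet u v) ∧ (3 : Ei) ∣ z - 1 := by
    rcases pri_or h4' hn3 with h | h
    · exact ⟨_, Or.inl rfl, h⟩
    · exact ⟨_, Or.inr rfl, h⟩
  have hnz : nr z = ((∏ p ∈ S, p : ℕ) : ℤ) := by
    rw [hP]
    rcases hz with h | h
    · rw [h, nr_bet h4']
    · rw [h, nr_neg, nr_bet h4']
  obtain ⟨A, hA, hzA⟩ := exists_be hS h3 hnz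
  have hfz : fz (be S A) = (u, v) := by
    rw [← hzA]
    rcases hz with h | h
    · rw [h, fz_bet h4', Int.natAbs_natCast, Int.natAbs_natCast]
    · rw [h, fz_neg h4', Int.natAbs_natCast, Int.natAbs_natCast]
  obtain ⟨U, V, hUV, hbU⟩ := be_bet (A := A) hS
  have hUV' := hfz
  rw [hbU, fz_bet hUV, Prod.mk.injEq] at hUV'
  have hg : R S A := by
    rw [← hT S A hS hA hne U V hbU hUV, hUV'.1, hUV'.2]
    exact hG
  have hgc : R S (S \ A) := by
    rw [← hT S (S \ A) hS sdiff_subset hne U (-V) (by rw [be_compl, hbU, bet_star hUV])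
      (by rw [hUV]; ring), Int.natAbs_neg, hUV'.1, hUV'.2]
    exact hG
  have hSP : S ∈ (SP X).filter (·.Nonempty) := by
    rw [mem_filter, mem_SP]
    exact ⟨⟨hS, by rw [hP]; exact hnX⟩, hne⟩
  have hfzc : fz (be S (S \ A)) = (u, v) := by
    rw [be_compl, hbU, fz_star hUV, ← fz_bet hUV, ← hbU, hfz]
  have hAc : A ≠ S \ A := by
    intro h
    obtain ⟨p, hp⟩ := hne
    by_cases hpA : p ∈ A
    · have h5 := hpA
      rw [h, Finset.mem_sdiff] at h5
      exact h5.2 hpA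
    · apply hpA
      rw [h, Finset.mem_sdiff]
      exact ⟨hp, hpA⟩
  have hset : ((sX R X).filter fun x => fz (be x.1 x.2) = (u, v)) =
      {(⟨S, A⟩ : (_ : Finset ℕ) × Finset ℕ), ⟨S, S \ A⟩} := by
    ext ⟨T, B⟩
    rw [mem_filter, mem_insert, mem_singleton]
    unfold sX
    rw [mem_sigma, mem_filter (s := T.powerset), mem_powerset]
    simp only
    constructor
    · rintro ⟨⟨hT1, hB, hTg⟩, hf⟩
      rw [mem_filter, mem_SP] at hT1
      obtain ⟨⟨hT1, -⟩, -⟩ := hT1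
      obtain ⟨U', V', hUV2, hbU2⟩ := be_bet (A := B) hT1
      have hUV2' := hf
      rw [hbU2, fz_bet hUV2, Prod.mk.injEq, ← hUV'.1, ← hUV'.2] at hUV2'
      have p1 := pri_be (A := B) hT1
      have p2 := pri_be (A := A) hS
      have p3 := pri_be (A := S \ A) hS
      have key : be T B = be S A ∨ be T B = be S (S \ A) := by
        rw [be_compl, hbU2, hbU]
        rcases Int.natAbs_eq_natAbs_iff.1 hUV2'.1 with h1 | h1 <;>
        rcases Int.natAbs_eq_natAbs_iff.1 hUV2'.2 with h2 | h2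
        · left; rw [h1, h2]
        · right; rw [h1, h2, bet_star hUV]
        · exfalso
          rw [hbU2, h1, h2] at p1
          have e : bet (-U) V = -be S (S \ A) := by
            rw [be_compl, hbU, ← bet_star hUV,
              ← bet_neg (u := U) (v := -V) (n := ∏ p ∈ S, p) (by rw [hUV]; ring), neg_neg]
          rw [e] at p1
          exact not_pri p3 p1
        · exfalso
          rw [hbU2, h1, h2, bet_neg hUV, ← hbU] at p1
          exact not_pri p2 p1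
      rcases key with h | h
      · left
        obtain ⟨e1, e2⟩ := be_inj hT1 hS hB hA h
        rw [e1, e2]
      · right
        obtain ⟨e1, e2⟩ := be_inj hT1 hS hB sdiff_subset h
        rw [e1, e2]
    · rintro (h | h)
      · obtain ⟨rfl, h2⟩ := Sigma.mk.inj_iff.1 h
        obtain rfl := eq_of_heq h2
        exact ⟨⟨hSP, hA, hg⟩, hfz⟩
      · obtain ⟨rfl, h2⟩ := Sigma.mk.inj_iff.1 h
        obtain rfl := eq_of_heq h2
        exact ⟨⟨hSP, sdiff_subset, hgc⟩, hfzc⟩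
  rw [hset, card_pair]
  intro h
  exact hAc (eq_of_heq (Sigma.mk.inj_iff.1 h).2)

/-- **the number of the good pairs** -/
theorem card_good (hT : Tr R Gp) (X : ℕ) : (((PN X).filter Gp).card : ℝ) * 2 =
    ∑ S ∈ (SP X).filter (·.Nonempty), ((S.powerset.filter fun A => R S A).card : ℝ) := by
  have h1 := card_eq_sum_card_fiberwise (maps hT X)
  rw [sum_congr rfl (fib hT X), sum_const, smul_eq_mul] at h1
  unfold sX at h1
  rw [card_sigma] at h1
  have h2 : (((PN X).filter Gp).card : ℝ) * 2 = ((((PN X).filter Gp).card * 2 : ℕ) : ℝ) := by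
    push_cast
    rfl
  rw [h2, ← h1]
  push_cast
  rfl

end

/-- **the number of all pairs** -/
theorem card_all (X : ℕ) : (((PN X).card : ℝ)) * 2 =
    ∑ S ∈ (SP X).filter (·.Nonempty), (2 : ℝ) ^ S.card := by
  have h1 := card_good (R := fun _ _ => True) (Gp := fun _ => True)
    (fun _ _ _ _ _ _ _ _ _ => Iff.rfl) X
  rw [filter_true] at h1
  rw [h1]
  refine sum_congr rfl fun S _ => ?_
  rw [filter_true, card_powerset]
  push_cast
  rfl

end Run7.h238.X
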