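import Pool.Agent.Run7.h238.C.EMob
import Pool.Agent.Run7.h238.X.Cnt2

/-!
# The lower bound for the total weight and the limit
-/

set_option autoImplicit false
set_option linter.unusedVariables false

open scoped Classical

namespace Run7.h238.X

open Finset Filter Topology
open Run7.h238.C.EP Run7.h238.C.EL Run7.h238.C.ED Run7.h238.C.EM
open Run7.h238.C (SP mem_SP)
open Run7.h238.WFew (wt wt_nonneg wt_mono)
open Pool.Agent.Y703.XK (c9)
open Pool.Agent.Y703.CX (lam)

theorem PX_low : ∃ c : ℝ, 0 < c ∧ ∀ᶠ X : ℕ in atTop, c * X ≤ ((PX X).card : ℝ) := by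
  have h := CQ_tendsto 3
  have hpos : 0 < ar * mean (gq 3) * kap := by
    rw [mean_three]
    have h1 := ar_pos
    have h2 := kap_pos
    positivity
  refine ⟨ar * mean (gq 3) * kap / 2, by positivity, ?_⟩
  have h2 := h.eventually (eventually_gt_nhds (show ar * mean (gq 3) * kap / 2 <
    ar * mean (gq 3) * kap by linarith))
  filter_upwards [h2, eventually_ge_atTop 1] with X h3 h4
  have hX : (0 : ℝ) < X := by exact_mod_cast h4
  rw [lt_div_iff₀ hX] at h3
  rw [PX_eq]
  exact h3.le

theorem SP_mono {X Y : ℕ} (h : X ≤ Y) : SP X ⊆ SP Y := by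
  intro S hS
  rw [mem_SP] at hS ⊢
  exact ⟨hS.1, hS.2.trans h⟩

/-- **the lower bound** -/
theorem low : ∃ c : ℝ, 0 < c ∧ ∀ᶠ X : ℕ in atTop, c * X ≤ wt (SP X) := by
  obtain ⟨CT, hCT, htot⟩ := hcard
  obtain ⟨c, hc, hlow⟩ := PX_low
  have hs := bd_summable
  have hbd0 : ∀ k, 0 ≤ bd k := by
    intro k
    unfold bd
    split_ifs
    · positivity
    · exact le_rfl
  -- the tail
  have ht : Tendsto (fun K : ℕ => ∑ k ∈ range K, bd k) atTop (nhds (∑' k, bd k)) :=
    hs.hasSum.tendsto_sum_nat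
  obtain ⟨K, hK⟩ := (ht.eventually (eventually_gt_nhds (show (∑' k, bd k) - c / (12 * CT) <
    ∑' k, bd k by
      have : 0 < c / (12 * CT) := by positivity
      linarith))).exists
  set B : ℝ := ∑ k ∈ range K, 6 * 2 ^ k.primeFactors.card with hB
  have hB0 : 0 ≤ B := sum_nonneg fun k _ => by positivity
  refine ⟨c / (2 * (B + 1)), by positivity, ?_⟩
  filter_upwards [hlow, eventually_ge_atTop 1] with X h1 h2
  have hX : (0 : ℝ) < X := by exact_mod_cast h2
  have e1 := sum_pairs (fun _ => (1 : ℝ)) X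
  rw [sum_const, nsmul_eq_mul, mul_one] at e1
  have key : ∀ k ∈ (Icc 1 X).filter Pw, 6 * 2 ^ k.primeFactors.card *
      ∑ S ∈ SD k (X / k), (2 : ℝ) ^ S.card * 1 ≤
      (if k < K then 6 * 2 ^ k.primeFactors.card * wt (SP X) else 0) +
        (if ¬ k < K then 6 * CT * bd k * X else 0) := by
    intro k hk
    rw [mem_filter, mem_Icc] at hk
    obtain ⟨⟨hk1, hk2⟩, hkP⟩ := hk
    have hk0 : k ≠ 0 := by omega
    have hkr : (0 : ℝ) < k := by exact_mod_cast hk1
    have h3 : ∑ S ∈ SD k (X / k), (2 : ℝ) ^ S.card * 1 ≤ wt (SP (X / k)) := by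
      simp only [mul_one]
      unfold wt
      exact sum_le_sum_of_subset_of_nonneg (filter_subset _ _) fun _ _ _ => by positivity
    by_cases h : k < K
    · rw [if_pos h, if_neg (not_not.2 h), add_zero]
      refine mul_le_mul_of_nonneg_left (h3.trans ?_) (by positivity)
      exact wt_mono (SP_mono (Nat.div_le_self _ _))
    · rw [if_neg h, if_pos h, zero_add]
      have h4 : ((X / k : ℕ) : ℝ) ≤ X / (k : ℝ) := Nat.cast_div_le
      have h5 := two_pow_le hk0 hkP
      have h6 : bd k = (k : ℝ) ^ (-(3 / 4) : ℝ) := by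
        unfold bd
        rw [if_pos ⟨hk0, hkP⟩]
      rw [h6]
      calc 6 * 2 ^ k.primeFactors.card * ∑ S ∈ SD k (X / k), (2 : ℝ) ^ S.card * 1 ≤
            6 * 2 ^ k.primeFactors.card * (CT * (X / (k : ℝ))) := by
            refine mul_le_mul_of_nonneg_left (h3.trans ((htot _).trans ?_)) (by positivity)
            exact mul_le_mul_of_nonneg_left h4 hCT.le
        _ = 6 * CT * (2 ^ k.primeFactors.card / (k : ℝ)) * X := by
            field_simp
        _ ≤ 6 * CT * (k : ℝ) ^ (-(3 / 4) : ℝ) * X := by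
            gcongr
  have h7 := sum_le_sum key
  rw [← e1, sum_add_distrib, ← sum_filter, ← sum_filter] at h7
  have hw0 : 0 ≤ wt (SP X) := wt_nonneg _
  have h8 : ∑ k ∈ ((Icc 1 X).filter Pw).filter (fun k => k < K),
      6 * 2 ^ k.primeFactors.card * wt (SP X) ≤ B * wt (SP X) := by
    rw [← sum_mul]
    refine mul_le_mul_of_nonneg_right ?_ hw0
    refine sum_le_sum_of_subset_of_nonneg ?_ fun _ _ _ => by positivity
    intro k hk
    rw [mem_filter] at hk
    exact mem_range.2 hk.2
  have h9 : ∑ k ∈ ((Icc 1 X).filter Pw).filter (fun k => k < K),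
      6 * 2 ^ k.primeFactors.card * wt (SP X) +
      ∑ k ∈ ((Icc 1 X).filter Pw).filter (fun k => ¬ k < K), 6 * CT * bd k * X ≤
      B * wt (SP X) + c / 2 * X := by
    refine add_le_add h8 ?_
    have h10 : ∑ k ∈ ((Icc 1 X).filter Pw).filter (fun k => ¬ k < K), bd k ≤ c / (12 * CT) := by
      have h11 : Disjoint (range K) (((Icc 1 X).filter Pw).filter (fun k => ¬ k < K)) := by
        rw [Finset.disjoint_left]
        intro k hk hk'
        exact (mem_filter.1 hk').2 (mem_range.1 hk)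
      have h12 : ∑ k ∈ (range K ∪ ((Icc 1 X).filter Pw).filter (fun k => ¬ k < K)), bd k ≤
          ∑' k, bd k := hs.sum_le_tsum _ fun k _ => hbd0 k
      rw [sum_union h11] at h12
      linarith
    rw [← sum_mul]
    refine mul_le_mul_of_nonneg_right ?_ hX.le
    rw [← mul_sum]
    calc 6 * CT * ∑ k ∈ ((Icc 1 X).filter Pw).filter (fun k => ¬ k < K), bd k ≤
          6 * CT * (c / (12 * CT)) := mul_le_mul_of_nonneg_left h10 (by positivity)
      _ = c / 2 := by
        field_simp
        norm_num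
  have h13 : ((PX X).card : ℝ) ≤ B * wt (SP X) + c / 2 * X := by
    exact h7.trans h9
  have h14 : c / 2 * X ≤ (B + 1) * wt (SP X) := by linarith
  rw [div_mul_eq_mul_div, div_le_iff₀ (by positivity)]
  linarith

theorem split_empty {X : ℕ} (hX : 1 ≤ X) (f : Finset ℕ → ℝ) :
    ∑ S ∈ SP X, f S = f ∅ + ∑ S ∈ (SP X).filter (·.Nonempty), f S := by
  have h1 : (∅ : Finset ℕ) ∈ SP X := by
    rw [mem_SP]
    refine ⟨fun p hp => absurd hp (notMem_empty p), ?_⟩
    rw [prod_empty]
    exact hX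
  have h2 : (SP X).filter (·.Nonempty) = (SP X).erase ∅ := by
    ext S
    rw [mem_filter, mem_erase, nonempty_iff_ne_empty, and_comm]
  rw [h2, add_sum_erase _ _ h1]

/-- **the proportion** -/
theorem ratio {q : ℕ} (hq : q.Prime) (hq1 : q % 3 = 2) {Gp : ℕ × ℕ → Prop}
    (hT : Tr (fun S A => GdX (fun x => lam x q) (sg A) S) Gp) :
    Tendsto (fun X : ℕ => (((PN X).filter Gp).card : ℝ) / ((PN X).card : ℝ)) atTop (nhds c9) := by
  obtain ⟨c, hc, hlow⟩ := low
  rw [Metric.tendsto_atTop']
  intro ε hε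
  have h0 := c9_pos
  have h1 := c9_lt
  have hlaw := lawX hq hq1 (fun _ => 1) 1 (fun _ => zero_le_one) (fun _ => le_rfl) (c * ε / 8)
    (by positivity)
  have hlarge : ∀ᶠ X : ℕ in atTop, 8 / (c * ε) + 2 / c ≤ (X : ℝ) :=
    tendsto_natCast_atTop_atTop.eventually (eventually_ge_atTop _)
  have hev := (hlow.and (hlaw.and (hlarge.and (eventually_ge_atTop 1)))).exists_forall_of_atTop
  obtain ⟨N, hN⟩ := hev
  refine ⟨N, fun X hX => ?_⟩
  obtain ⟨a1, a2, a3, a4⟩ := hN X hX.le
  have hX0 : (0 : ℝ) < X := by exact_mod_cast a4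
  have hg := card_good hT X
  have ha := card_all X
  set G : ℝ := (((PN X).filter Gp).card : ℝ) with hGd
  set T : ℝ := ((PN X).card : ℝ) with hTd
  simp only [one_mul] at a2
  rw [sum_sub_distrib, split_empty a4, ← mul_sum, split_empty a4 (fun S => (2 : ℝ) ^ S.card)] at a2
  have hg' : ∑ S ∈ (SP X).filter (·.Nonempty), fX (fun x => lam x q) S = G * 2 := hg.symm
  rw [hg', ← ha] at a2
  have f1 := fX_nonneg (fun x => lam x q) ∅
  have f2 := fX_le (fun x => lam x q) ∅
  rw [card_empty, pow_zero] at a2 f2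
  have hw : c * X ≤ 1 + T * 2 := by
    refine a1.trans (le_of_eq ?_)
    unfold wt
    rw [split_empty a4 (fun S => (2 : ℝ) ^ S.card), ← ha, card_empty, pow_zero]
  have b1 : 2 / c ≤ X := le_trans (by have : 0 < 8 / (c * ε) := by positivity
                                      linarith) a3
  have b2 : 8 / (c * ε) ≤ X := le_trans (by have : 0 < 2 / c := by positivity
                                            linarith) a3
  rw [div_le_iff₀ hc] at b1
  rw [div_le_iff₀ (by positivity)] at b2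
  have b3 : c * X ≤ 4 * T := by nlinarith
  have hT0 : 0 < T := by
    have : 0 < c * X := by positivity
    linarith
  have b4 : |G - c9 * T| ≤ c * ε / 8 * X := by
    rw [abs_le] at a2 ⊢
    obtain ⟨a5, a6⟩ := a2
    constructor <;> nlinarith
  rw [Real.dist_eq]
  have e : G / T - c9 = (G - c9 * T) / T := by
    field_simp
  rw [e, abs_div, abs_of_pos hT0, div_lt_iff₀ hT0]
  calc |G - c9 * T| ≤ c * ε / 8 * X := b4
    _ = ε / 8 * (c * X) := by ring
    _ ≤ ε / 8 * (4 * T) := mul_le_mul_of_nonneg_left b3 (by positivity)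
    _ < ε * T := by nlinarith

end Run7.h238.X
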