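import Pool.Agent.Run7.h238.X.Cnt2
import Pool.Agent.Run7.h707.TC.Crit3
import Pool.Agent.Run7.h741.CC.A5
import Pool.Agent.Y455.CTK.JEX

/-!
# The criterion over the field of the third roots of unity
-/

set_option autoImplicit false
set_option linter.unusedVariables false
set_option linter.unusedSectionVars false

open scoped Classical

namespace Run7.h238.X

open Finset NumberField
open Pool.Agent.Y692.QS
open Pool.Agent.Y703.CX (lam)
open Pool.Agent.Y703.CT (Dt pD Ker)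
open Pool.Agent.Run7.h741.CC (bet nr_bet bet_mul bet_add bet_sub n_three)
open Pool.Agent.Y696.CTK (ED Tri)
open Pool.Agent.TH841.NF.D (Sha)

variable {q : ℕ} {S A : Finset ℕ}

theorem nine_px (hq9 : q % 9 = 2 ∨ q % 9 = 5) (hS : ∀ p ∈ S, p.Prime ∧ p % 3 = 1) :
    ¬ (9 : ℤ) ∣ nr (pD (px q S) (exx A S)) - 1 := by
  rw [pD_px hS, nr_neg, nr_mul, nr_mul, nr_nat, nr_nat, nr_be hS]
  set n : ℕ := ∏ p ∈ S, p with hn
  have hn3 : n % 3 = 1 := prod_mod3 hS
  have e : ((q : ℤ) ^ 2 * (n : ℤ) ^ 2 * (n : ℤ)) = ((q ^ 2 * n ^ 3 : ℕ) : ℤ) := by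
    push_cast
    ring
  rw [e]
  intro h
  have h1 : (q ^ 2 * n ^ 3) % 9 = 1 := by omega
  have h2 : n ^ 3 % 9 = 1 := by
    have h3 : n % 9 = 1 ∨ n % 9 = 4 ∨ n % 9 = 7 := by omega
    rw [Nat.pow_mod]
    rcases h3 with h3 | h3 | h3 <;> rw [h3]
  rw [Nat.mul_mod, h2, Nat.pow_mod] at h1
  rcases hq9 with h3 | h3 <;> rw [h3] at h1 <;> norm_num at h1

section
variable {K : Type} [Field K] [NumberField K]

theorem tri_px (j : Ei ≃+* 𝓞 K) (hq : q.Prime) (hq9 : q % 9 = 2 ∨ q % 9 = 5)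
    (hS : ∀ p ∈ S, p.Prime ∧ p % 3 = 1) {z : Ei}
    (hz : z = (q : Ei) * ((∏ p ∈ S, p : ℕ) : Ei) * be S A ∨
      z = -((q : Ei) * ((∏ p ∈ S, p : ℕ) : Ei) * be S A)) :
    Tri (j z) ↔ GdX (fun n => lam n q) (sg A) S := by
  have hq2 : q % 3 = 2 := by omega
  have hD := dt_px (A := A) hq hq2 hS
  have h9 := nine_px (A := A) hq9 hS
  rw [← ker_iff hq hq2 hS]
  rcases hz with h | h
  · have e : z = pD (px q S) (exx A S) * (-1) ^ 3 := by
      rw [h, pD_px hS]
      ring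
    rw [e]
    exact Run7.h707.TC.tri_A3 j hD h9 (by norm_num)
  · have e : z = pD (px q S) (exx A S) * 1 ^ 3 := by
      rw [h, pD_px hS]
      ring
    rw [e]
    exact Run7.h707.TC.tri_A3 j hD h9 (by norm_num)

/-- `E_D(K)` is finite and the `3`-primary part of the Tate-Shafarevich group is trivial -/
def TriK (D : K) : Prop :=
  Finite (ED D).toAffine.Point ∧ ∀ (k : ℕ) (x : Sha (ED D)), 3 ^ k • x = 0 → x = 0

/-- the good pairs -/
def Gq (K : Type) [Field K] [NumberField K] (q : ℕ) (b : ℕ × ℕ) : Prop :=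
  ∀ n : ℕ, 4 * n = b.1 ^ 2 + 27 * b.2 ^ 2 → ∀ s : K, s ^ 2 = -3 →
    TriK ((q : K) * (n : K) * (((b.1 : K) + 3 * (b.2 : K) * s) / 2))

theorem sq_j (j : Ei ≃+* 𝓞 K) : ((j (1 + 2 * w) : 𝓞 K) : K) ^ 2 = -3 := by
  have h1 : ((1 + 2 * w : Ei)) ^ 2 = -3 := by decide
  have h2 := congrArg (fun z => ((j z : 𝓞 K) : K)) h1
  simp only [map_pow, map_neg, map_ofNat] at h2
  exact h2

theorem coe_bet (j : Ei ≃+* 𝓞 K) {u v : ℤ} {n : ℕ} (hn : 4 * (n : ℤ) = u ^ 2 + 27 * v ^ 2) :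
    ((j (bet u v) : 𝓞 K) : K) =
      ((u : K) + 3 * (v : K) * ((j (1 + 2 * w) : 𝓞 K) : K)) / 2 := by
  have h1 : 2 * bet u v = ((u : ℤ) : Ei) + 3 * (v : Ei) * (1 + 2 * w) := by
    linear_combination bet_add hn + bet_sub hn
  have h2 := congrArg (fun z => ((j z : 𝓞 K) : K)) h1
  simp only [map_mul, map_add, map_one, map_ofNat, map_intCast] at h2
  rw [eq_div_iff (two_ne_zero : (2 : K) ≠ 0), mul_comm]
  simp only [map_mul, map_add, map_one, map_ofNat]
  exact h2

theorem cast_abs (U : ℤ) : (U.natAbs : K) = (U : K) ∨ (U.natAbs : K) = -(U : K) := by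
  rw [← Int.cast_natCast (R := K) U.natAbs]
  rcases Int.natAbs_eq U with h | h
  · left
    exact congrArg (fun x : ℤ => (x : K)) h.symm
  · right
    rw [← Int.cast_neg]
    exact congrArg (fun x : ℤ => (x : K)) (by omega)

/-- the ring homomorphism -/
noncomputable def ph (j : Ei ≃+* 𝓞 K) : Ei →+* K := (algebraMap (𝓞 K) K).comp (j : Ei →+* 𝓞 K)

theorem ph_apply (j : Ei ≃+* 𝓞 K) (z : Ei) : ph j z = ((j z : 𝓞 K) : K) := rfl

theorem tr_Gq [IsCyclotomicExtension {3} ℚ K] (hq : q.Prime) (hq9 : q % 9 = 2 ∨ q % 9 = 5) :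
    Tr (fun S A => GdX (fun n => lam n q) (sg A) S) (Gq K q) := by
  obtain ⟨⟨j, -⟩, -⟩ := Pool.Agent.Y455.CTK.jex K
  intro S A hS hA hne U V hb h4
  set n : ℕ := ∏ p ∈ S, p with hnd
  -- the values
  have key : ∀ s : K, s ^ 2 = -3 →
      (TriK ((q : K) * (n : K) * (((U.natAbs : K) + 3 * (V.natAbs : K) * s) / 2)) ↔
        GdX (fun n => lam n q) (sg A) S) := by
    intro s hs
    set s₀ : K := ((j (1 + 2 * w) : 𝓞 K) : K) with hs₀
    have hs₀2 : s₀ ^ 2 = -3 := sq_j j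
    have hss : s = s₀ ∨ s = -s₀ := by
      have h1 : (s - s₀) * (s + s₀) = 0 := by linear_combination hs - hs₀2
      rcases mul_eq_zero.1 h1 with h | h
      · left; linear_combination h
      · right; linear_combination h
    have cU := cast_abs (K := K) U
    have cV := cast_abs (K := K) V
    have b1 := coe_bet j h4
    have b2 := coe_bet j (u := U) (v := -V) (n := n) (by rw [h4]; ring)
    rw [bet_star h4, Int.cast_neg] at b2
    rw [← hs₀, ← ph_apply] at b1 b2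
    rw [← hb] at b1
    rw [← hb, ← be_compl] at b2
    -- the four values
    have main : ∃ (B : Finset ℕ) (z : Ei), (B = A ∨ B = S \ A) ∧
        (z = (q : Ei) * (n : Ei) * be S B ∨ z = -((q : Ei) * (n : Ei) * be S B)) ∧
        ph j z = (q : K) * (n : K) *
          (((U.natAbs : K) + 3 * (V.natAbs : K) * s) / 2) := by
      have c1 : ph j ((q : Ei) * (n : Ei) * be S A) =
          (q : K) * (n : K) * (((U : K) + 3 * (V : K) * s₀) / 2) := by
        rw [map_mul, map_mul, map_natCast, map_natCast, b1]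
      have c2 : ph j ((q : Ei) * (n : Ei) * be S (S \ A)) =
          (q : K) * (n : K) * (((U : K) + 3 * -(V : K) * s₀) / 2) := by
        rw [map_mul, map_mul, map_natCast, map_natCast, b2]
      have c3 : ph j (-((q : Ei) * (n : Ei) * be S A)) =
          -((q : K) * (n : K) * (((U : K) + 3 * (V : K) * s₀) / 2)) := by
        rw [map_neg, ← c1]
      have c4 : ph j (-((q : Ei) * (n : Ei) * be S (S \ A))) =
          -((q : K) * (n : K) * (((U : K) + 3 * -(V : K) * s₀) / 2)) := by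
        rw [map_neg, ← c2]
      rcases cU with hU | hU <;> rcases cV with hV | hV <;> rcases hss with h | h <;>
        rw [hU, hV, h]
      · exact ⟨A, _, Or.inl rfl, Or.inl rfl, c1⟩
      · exact ⟨S \ A, _, Or.inr rfl, Or.inl rfl, by rw [c2]; ring⟩
      · exact ⟨S \ A, _, Or.inr rfl, Or.inl rfl, by rw [c2]⟩
      · exact ⟨A, _, Or.inl rfl, Or.inl rfl, by rw [c1]; ring⟩
      · exact ⟨S \ A, _, Or.inr rfl, Or.inr rfl, by rw [c4]; ring⟩
      · exact ⟨A, _, Or.inl rfl, Or.inr rfl, by rw [c3]; ring⟩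
      · exact ⟨A, _, Or.inl rfl, Or.inr rfl, by rw [c3]; ring⟩
      · exact ⟨S \ A, _, Or.inr rfl, Or.inr rfl, by rw [c4]; ring⟩
    obtain ⟨B, z, hB, hz, hjz⟩ := main
    rw [← hjz]
    have h5 := tri_px (A := B) j hq hq9 hS hz
    have h6 : TriK (ph j z) ↔ Tri (j z) := Iff.rfl
    rw [h6, h5]
    rcases hB with rfl | rfl
    · exact Iff.rfl
    · exact gdX_compl_iff _ hA
  have h4' : 4 * n = U.natAbs ^ 2 + 27 * V.natAbs ^ 2 := by
    have h5 : ((4 * n : ℕ) : ℤ) = ((U.natAbs ^ 2 + 27 * V.natAbs ^ 2 : ℕ) : ℤ) := by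
      push_cast
      rw [sq_abs, sq_abs]
      exact h4
    exact_mod_cast h5
  constructor
  · intro h
    exact (key _ (sq_j j)).1 (h n h4' _ (sq_j j))
  · intro h m hm s hs
    have hmn : m = n := by
      simp only at hm
      omega
    subst hmn
    exact (key s hs).2 h

end

end Run7.h238.X
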