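import Pool.Agent.Run7.h238.X.Fld
import Pool.Agent.Run7.h238.X.LSer
import Pool.Agent.Run7.h238.X.TriX
import Pool.Agent.Run7.h238.X.Low

/-!
# The curve over the cyclic cubic fields
-/

set_option autoImplicit false
set_option linter.unusedVariables false
set_option linter.unusedSectionVars false

open scoped Classical

namespace Run7.h238.X

open Finset NumberField Filter
open Pool.Agent.Y692.QS
open Pool.Agent.Y703.CX (lam)
open Pool.Agent.Y703.CT (Dt pD Ker)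
open Pool.Agent.Y703.XK (c9)
open Pool.Agent.Run7.h741.CC (bet nr_bet n_three IsPair pair_of)
open Pool.Agent.Y696.CTK (ED)
open Pool.Agent.TH841.NF.D (Sha)
open Run7.h238.WFew (wt)
open Run7.h238.C (SP)

/-- **The good fields.** -/
theorem overF (K : Type) [Field K] [NumberField K] [IsCyclotomicExtension {3} ℚ K] {q : ℕ}
    (hq : q.Prime) (hq9 : q % 9 = 2 ∨ q % 9 = 5) {u v : ℕ} (hG : Gq K q (u, v))
    {F : Type} [Field F] [NumberField F] (hd : Module.finrank ℚ F = 3) (hp : IsPair F u v) :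
    Finite (ED ((q : ℕ) : F)).toAffine.Point ∧
    (∀ (k : ℕ) (y : Sha (ED ((q : ℕ) : F))), 3 ^ k • y = 0 → 3 • y = 0) ∧
    ∃ Λ : ℂ → ℂ, AnalyticOnNhd ℂ Λ {s | (1 / 2 : ℝ) < s.re} ∧ Λ 1 ≠ 0 ∧
      ∀ s : ℂ, 3 / 2 < s.re → Λ s = (ED ((q : ℕ) : F)).LSeries s := by
  obtain ⟨hu, hv, n, hn, hsq, hdisc, th, hth⟩ := hp
  obtain ⟨h4', hS, hP⟩ := pair_facts (X := 0) hsq hn
  set S := n.primeFactors with hSd
  have hn3 := n_three h4' hsq
  have hn1 : n ≠ 1 := by
    rintro rfl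
    nlinarith
  have hn0 : n ≠ 0 := hsq.ne_zero
  have hne : S.Nonempty := by
    rw [nonempty_iff_ne_empty]
    intro h
    rw [h, prod_empty] at hP
    exact hn1 hP.symm
  have hq2 : q % 3 = 2 := by omega
  -- the primary element
  obtain ⟨z, U, V, hz, h3, hzU, hUV, hUa, hVa⟩ : ∃ (z : Ei) (U V : ℤ),
      (z = bet u v ∨ z = -bet u v) ∧ (3 : Ei) ∣ z - 1 ∧ z = bet U V ∧
      4 * (n : ℤ) = U ^ 2 + 27 * V ^ 2 ∧ U.natAbs = u ∧ V.natAbs = v := by
    rcases pri_or h4' hn3 with h | h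
    · exact ⟨_, u, v, Or.inl rfl, h, rfl, h4', Int.natAbs_natCast u, Int.natAbs_natCast v⟩
    · exact ⟨_, -u, -v, Or.inr rfl, h, (bet_neg h4').symm, by rw [h4']; ring,
        by rw [Int.natAbs_neg, Int.natAbs_natCast], by rw [Int.natAbs_neg, Int.natAbs_natCast]⟩
  have hnz : nr z = ((∏ p ∈ S, p : ℕ) : ℤ) := by
    rw [hP, hzU, nr_bet hUV]
  obtain ⟨A, hA, hzA⟩ := exists_be hS h3 hnz
  have hg : GdX (fun n => lam n q) (sg A) S := by
    refine (tr_Gq (K := K) hq hq9 S A hS hA hne U V (by rw [← hzA, hzU]) (by rw [hP, hUV])).1 ?_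
    rw [hUa, hVa]
    exact hG
  have hker := (ker_iff hq hq2 hS).2 hg
  have hD := dt_px (A := A) hq hq2 hS
  have hpD := pD_px (q := q) (A := A) hS
  rw [hP, ← hzA] at hpD
  have hDp : ((q : ℕ) : Ei) * (n : ℕ) * bet u v = pD (px q S) (exx A S) ∨
      ((q : ℕ) : Ei) * (n : ℕ) * bet u v = -pD (px q S) (exx A S) := by
    rcases hz with h | h
    · right
      rw [hpD, h, neg_neg]
    · left
      rw [hpD, h]
      ring
  have hth' : th ^ 3 = 3 * (n : F) * th + (n : F) * (((u : ℕ) : ℤ) : F) := by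
    rw [hth]
    push_cast
    rfl
  obtain ⟨a1, a2, G, a3, a4, a5⟩ := Pool.Agent.Run7.h741.CC.fieldA (u := (u : ℤ)) (v := (v : ℤ))
    hq hq9 h4' hsq hn1 hD hDp hker th hd hth'
  have hq3 : q ≠ 3 := by rintro rfl; omega
  have hd3 : ¬ (3 : ℤ) ∣ discr F := by
    rw [hdisc]
    exact Pool.Agent.Run7.h741.CC.disc_three hn hsq
  have hdq : ¬ (q : ℤ) ∣ discr F := by
    rw [hdisc]
    intro h
    have h1 : (q : ℤ) ∣ (n : ℤ) := (Nat.prime_iff_prime_int.1 hq).dvd_of_dvd_pow h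
    have h2 : q ∣ n := by exact_mod_cast h1
    have h3 := (hS q (Nat.mem_primeFactors.2 ⟨hq, h2, hn0⟩)).2
    omega
  exact ⟨a1, a2, lser hq hq3 hd3 hdq hn0 a3 a4 a5⟩

/-- the number of the fields -/
theorem many : ∃ c : ℝ, 0 < c ∧ ∃ X₀ : ℕ, ∀ X : ℕ, X₀ ≤ X →
    c * X ≤ ({F : Subfield ℂ | Cyc X F}.ncard : ℝ) := by
  obtain ⟨c, hc, hlow⟩ := low
  have hlarge : ∀ᶠ X : ℕ in atTop, 2 / c ≤ (X : ℝ) :=
    tendsto_natCast_atTop_atTop.eventually (eventually_ge_atTop _)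
  obtain ⟨X₀, h⟩ := (hlow.and (hlarge.and (eventually_ge_atTop 1))).exists_forall_of_atTop
  refine ⟨c / 4, by positivity, X₀, fun X hX => ?_⟩
  obtain ⟨a1, a2, a3⟩ := h X hX
  have e := card_fields (Gp := fun _ => True) (GF := fun _ => True) X
    (fun _ _ _ _ _ _ _ => Iff.rfl)
  simp only [and_true, filter_true] at e
  rw [e]
  have ha := card_all X
  have hw : c * X ≤ 1 + ((PN X).card : ℝ) * 2 := by
    refine a1.trans (le_of_eq ?_)
    unfold wt
    rw [split_empty a3 (fun S => (2 : ℝ) ^ S.card), ← ha, card_empty, pow_zero]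
  rw [div_le_iff₀ hc] at a2
  linarith

/-- **The proportion.** -/
theorem prop_fields (K : Type) [Field K] [NumberField K] [IsCyclotomicExtension {3} ℚ K] {q : ℕ}
    (hq : q.Prime) (hq9 : q % 9 = 2 ∨ q % 9 = 5) {GF : Subfield ℂ → Prop}
    (hG : ∀ (F : Subfield ℂ) (_ : NumberField F), Module.finrank ℚ F = 3 → IsGalois ℚ F →
      ∀ u v : ℕ, IsPair F u v → (GF F ↔ Gq K q (u, v))) :
    Tendsto (fun X : ℕ => ({F : Subfield ℂ | Cyc X F ∧ GF F}.ncard : ℝ) /
      ({F : Subfield ℂ | Cyc X F}.ncard : ℝ)) atTop (nhds c9) := by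
  have hq2 : q % 3 = 2 := by omega
  refine (ratio hq hq2 (tr_Gq (K := K) hq hq9)).congr fun X => ?_
  have e := card_fields (Gp := fun _ => True) (GF := fun _ => True) X
    (fun _ _ _ _ _ _ _ => Iff.rfl)
  simp only [and_true, filter_true] at e
  rw [e, card_fields X hG]

end Run7.h238.X
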