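import Pool.Agent.Run7.h741.CC.Dic5
import Pool.Agent.Run7.h238.X.Cnt2

/-!
# Cyclic cubic subfields of the complex numbers and pairs
-/

set_option autoImplicit false
set_option linter.unusedVariables false

open scoped Classical

namespace Run7.h238.X

open NumberField Finset
open Pool.Agent.Run7.h741.CC (IsPair field_of pair_of iso_of disc_three)

/-- `F` is a cyclic cubic field of conductor at most `X` and prime to `3` -/
def Cyc (X : ℕ) (F : Subfield ℂ) : Prop :=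
  ∃ _ : NumberField F, Module.finrank ℚ F = 3 ∧ IsGalois ℚ F ∧ ¬ (3 : ℤ) ∣ discr F ∧
    discr F ≤ (X : ℤ) ^ 2

theorem sub_le {F F' : Subfield ℂ} [IsGalois ℚ F] (e : F ≃ₐ[ℚ] F') : F' ≤ F := by
  let f : F →ₐ[ℚ] ℂ := (RingHom.toRatAlgHom F'.subtype).comp (e : F →ₐ[ℚ] F')
  intro x hx
  have h1 := AlgHom.restrictNormal_commutes f F (e.symm ⟨x, hx⟩)
  have h2 : f (algebraMap F F (e.symm ⟨x, hx⟩)) = x := by
    show ((e (e.symm ⟨x, hx⟩) : F') : ℂ) = x
    rw [AlgEquiv.apply_symm_apply]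
  rw [h2] at h1
  rw [← h1]
  exact (f.restrictNormal F (e.symm ⟨x, hx⟩)).2

theorem sub_eq {F F' : Subfield ℂ} [NumberField F] [NumberField F'] [IsGalois ℚ F]
    [IsGalois ℚ F'] {u v : ℕ} (hd : Module.finrank ℚ F = 3) (hd' : Module.finrank ℚ F' = 3)
    (h : IsPair F u v) (h' : IsPair F' u v) : F = F' := by
  obtain ⟨e⟩ := iso_of hd hd' h h'
  exact le_antisymm (sub_le e.symm) (sub_le e)

/-- the subfield of a pair -/
theorem exists_sub {u v n : ℕ} (hu : 0 < u) (hv : 0 < v) (hn : 4 * n = u ^ 2 + 27 * v ^ 2)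
    (hsq : Squarefree n) : ∃ (F : Subfield ℂ) (_ : NumberField F), Module.finrank ℚ F = 3 ∧
      IsGalois ℚ F ∧ discr F = (n : ℤ) ^ 2 ∧ IsPair F u v := by
  obtain ⟨F₀, i1, i2, hd, hg, hdisc, th, hth⟩ := field_of hn hsq hv
  let φ : F₀ →+* ℂ := (IsAlgClosed.lift (R := ℚ) (S := F₀) (M := ℂ)).toRingHom
  let e : F₀ ≃+* φ.fieldRange := RingHom.rangeRestrictFieldEquiv φ
  have hN : NumberField φ.fieldRange := NumberField.of_ringEquiv _ _ e
  let e' : F₀ ≃ₐ[ℚ] φ.fieldRange := RingEquiv.toRatAlgEquiv e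
  have hd' : Module.finrank ℚ φ.fieldRange = 3 := by
    rw [← hd]
    exact e'.toLinearEquiv.finrank_eq.symm
  have hdisc' : discr φ.fieldRange = (n : ℤ) ^ 2 := by
    rw [← hdisc]
    exact (discr_eq_discr_of_ringEquiv _ e).symm
  refine ⟨φ.fieldRange, hN, hd', IsGalois.of_algEquiv e', hdisc', hu, hv, n, hn, hsq, hdisc',
    e th, ?_⟩
  have h1 := congrArg e hth
  simp only [map_pow, map_add, map_mul, map_natCast, map_ofNat] at h1
  exact h1

section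
variable {Gp : ℕ × ℕ → Prop} {GF : Subfield ℂ → Prop}

/-- **the number of the fields is the number of the pairs** -/
theorem card_fields (X : ℕ)
    (hG : ∀ (F : Subfield ℂ) (_ : NumberField F), Module.finrank ℚ F = 3 → IsGalois ℚ F →
      ∀ u v : ℕ, IsPair F u v → (GF F ↔ Gp (u, v))) :
    {F : Subfield ℂ | Cyc X F ∧ GF F}.ncard = ((PN X).filter Gp).card := by
  have hex : ∀ F : Subfield ℂ, Cyc X F → ∃ b : ℕ × ℕ, ∃ _ : NumberField F, IsPair F b.1 b.2 := by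
    rintro F ⟨hN, hd, hg, h3, hX⟩
    obtain ⟨b, hb, -⟩ := pair_of F hd h3
    exact ⟨b, hN, hb⟩
  choose! f hf using hex
  rw [← Set.ncard_coe_finset]
  refine Set.ncard_congr (fun F _ => f F) ?_ ?_ ?_
  · rintro F ⟨hF, hGF⟩
    obtain ⟨hN, hp⟩ := hf F hF
    obtain ⟨hN', hd, hg, h3, hX⟩ := hF
    rw [mem_coe, mem_filter, mem_PN]
    refine ⟨?_, (hG F hN hd hg _ _ hp).1 hGF⟩
    obtain ⟨hu, hv, n, hn, hsq, hdisc, -⟩ := hp
    refine ⟨hu, hv, n, ?_, hsq, hn⟩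
    have h1 : (n : ℤ) ^ 2 ≤ (X : ℤ) ^ 2 := hdisc ▸ hX
    have h2 : n ^ 2 ≤ X ^ 2 := by exact_mod_cast h1
    exact (Nat.pow_le_pow_iff_left (by norm_num)).1 h2
  · rintro F F' ⟨hF, -⟩ ⟨hF', -⟩ hff
    obtain ⟨hN, hp⟩ := hf F hF
    obtain ⟨hN', hp'⟩ := hf F' hF'
    obtain ⟨-, hd, hg, -, -⟩ := hF
    obtain ⟨-, hd', hg', -, -⟩ := hF'
    have hff' : f F = f F' := hff
    rw [← hff'] at hp'
    exact sub_eq hd hd' hp hp'
  · rintro ⟨u, v⟩ hb
    rw [mem_coe, mem_filter, mem_PN] at hb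
    obtain ⟨⟨hu, hv, n, hnX, hsq, hn⟩, hGp⟩ := hb
    obtain ⟨F, hN, hd, hg, hdisc, hp⟩ := exists_sub hu hv hn hsq
    have h3 : ¬ (3 : ℤ) ∣ discr F := by
      rw [hdisc]
      exact disc_three hn hsq
    have hc : Cyc X F := by
      refine ⟨hN, hd, hg, h3, ?_⟩
      rw [hdisc]
      have : n ^ 2 ≤ X ^ 2 := Nat.pow_le_pow_left hnX 2
      exact_mod_cast this
    refine ⟨F, ⟨hc, (hG F hN hd hg u v hp).2 hGp⟩, ?_⟩
    obtain ⟨hN', hp'⟩ := hf F hc
    obtain ⟨b, -, hb⟩ := pair_of F hd h3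
    have h1 := hb (f F) hp'
    have h2 := hb (u, v) hp
    show f F = (u, v)
    rw [h1, h2]

end

end Run7.h238.X
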