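import Pool.Agent.Run7.h238.X.Bord

/-!
# A random column

A symmetric matrix over the field with three elements with a free block; one more index with a
random column.
-/

set_option autoImplicit false
set_option linter.unusedSectionVars false
set_option linter.unusedVariables false

open scoped Classical

namespace Run7.h238.X

open Finset Module

abbrev F3 : Type := ZMod 3

/-- a function which is shifted by a translation takes each value a third of the time -/
theorem third {G : Type} [AddGroup G] (A : Finset G) (f : G → F3) (g : G) (s : F3)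
    (hs : s ≠ 0) (h1 : ∀ c ∈ A, c + g ∈ A) (h2 : ∀ c ∈ A, f (c + g) = f c + s) :
    3 * (A.filter fun c => f c = 0).card = A.card := by
  have h3 : ∀ j : F3, (A.filter fun c => f c = j).card ≤ (A.filter fun c => f c = j + s).card := by
    intro j
    apply card_le_card_of_injOn (fun c => c + g)
    · intro c hc
      rw [mem_coe, mem_filter] at hc ⊢
      exact ⟨h1 c hc.1, by rw [h2 c hc.1, hc.2]⟩
    · intro c _ c' _ h
      exact add_right_cancel h
  have h4 : ∑ j : F3, (A.filter fun c => f c = j).card = A.card :=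
    (card_eq_sum_card_fiberwise (f := f) (t := univ) (fun x _ => mem_univ _)).symm
  have e3 : ∀ g : F3 → ℕ, ∑ j : F3, g j = g 0 + g 1 + g 2 := fun g => Fin.sum_univ_three g
  rw [e3] at h4
  have hs' : s = 1 ∨ s = 2 := (by decide : ∀ s : F3, s ≠ 0 → s = 1 ∨ s = 2) s hs
  rcases hs' with rfl | rfl
  · have k0 := h3 0
    have k1 := h3 1
    have k2 := h3 2
    rw [show (0 : F3) + 1 = 1 by decide] at k0
    rw [show (1 : F3) + 1 = 2 by decide] at k1
    rw [show (2 : F3) + 1 = 0 by decide] at k2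
    omega
  · have k0 := h3 0
    have k1 := h3 1
    have k2 := h3 2
    rw [show (0 : F3) + 2 = 2 by decide] at k0
    rw [show (1 : F3) + 2 = 0 by decide] at k1
    rw [show (2 : F3) + 2 = 1 by decide] at k2
    omega

section
variable {Y Z : Type} [Fintype Y] [Fintype Z]

/-- a matrix in block form -/
def blk (a : Y → Y → F3) (b : Z → Y → F3) (d : Z → Z → F3) : (Y ⊕ Z) → (Y ⊕ Z) → F3
  | .inl y, .inl y' => a y y'
  | .inl y, .inr z => b z y
  | .inr z, .inl y => b z y
  | .inr z, .inr z' => d z z'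

theorem blk_symm {a : Y → Y → F3} {b : Z → Y → F3} {d : Z → Z → F3}
    (ha : ∀ y y', a y y' = a y' y) (hd : ∀ z z', d z z' = d z' z) (j l : Y ⊕ Z) :
    blk a b d j l = blk a b d l j := by
  cases j <;> cases l
  · exact ha _ _
  · rfl
  · rfl
  · exact hd _ _

/-- all of `Y` and a part of `Z` -/
def tt (t : Finset Z) : Finset (Y ⊕ Z) := (univ : Finset Y).disjSum t

/-- a part of `Z` -/
def t0 (t : Finset Z) : Finset (Y ⊕ Z) := (∅ : Finset Y).disjSum t

theorem inl_tt {t : Finset Z} (y : Y) : (Sum.inl y : Y ⊕ Z) ∈ tt t := by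
  unfold tt
  rw [inl_mem_disjSum]
  exact mem_univ _

theorem inr_tt {t : Finset Z} {z : Z} : (Sum.inr z : Y ⊕ Z) ∈ (tt t : Finset (Y ⊕ Z)) ↔ z ∈ t := by
  unfold tt
  rw [inr_mem_disjSum]

theorem inl_t0 {t : Finset Z} (y : Y) : ¬ (Sum.inl y : Y ⊕ Z) ∈ (t0 t : Finset (Y ⊕ Z)) := by
  unfold t0
  rw [inl_mem_disjSum]
  exact notMem_empty _

theorem inr_t0 {t : Finset Z} {z : Z} : (Sum.inr z : Y ⊕ Z) ∈ (t0 t : Finset (Y ⊕ Z)) ↔ z ∈ t := by
  unfold t0
  rw [inr_mem_disjSum]

theorem tt_insert (t : Finset Z) (i : Z) :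
    (tt (insert i t) : Finset (Y ⊕ Z)) = insert (Sum.inr i) (tt t) := by
  ext j
  rcases j with y | z
  · rw [mem_insert]
    exact ⟨fun _ => Or.inr (inl_tt y), fun _ => inl_tt y⟩
  · rw [mem_insert, inr_tt, inr_tt, mem_insert, Sum.inr.injEq]

theorem Dm_inl (a : Y → Y → F3) (b : Z → Y → F3) (d : Z → Z → F3) (y : Y) (w : Y ⊕ Z → F3) :
    Dm (blk a b d) (Sum.inl y) w = ∑ y', a y y' * w (Sum.inl y') + ∑ z, b z y * w (Sum.inr z) := by
  unfold Dm
  rw [Fintype.sum_sum_type]
  rfl

theorem Dm_inr (a : Y → Y → F3) (b : Z → Y → F3) (d : Z → Z → F3) (z : Z) (w : Y ⊕ Z → F3) :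
    Dm (blk a b d) (Sum.inr z) w =
      ∑ y, b z y * w (Sum.inl y) + ∑ z', d z z' * w (Sum.inr z') := by
  unfold Dm
  rw [Fintype.sum_sum_type]
  rfl

/-- the kernel does not depend on a column outside -/
theorem K_upd {a : Y → Y → F3} {b : Z → Y → F3} {d : Z → Z → F3} {t : Finset Z} {i : Z}
    (hi : i ∉ t) (c : Y → F3) :
    K (blk a (Function.update b i c) d) (tt t) = K (blk a b d) (tt t) := by
  apply K_congr
  intro j hj l hl
  rcases j with y | z <;> rcases l with y' | z'
  · rfl
  · rw [inr_tt] at hl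
    have : z' ≠ i := fun h => hi (h ▸ hl)
    show Function.update b i c z' y = b z' y
    rw [Function.update_of_ne this]
  · rw [inr_tt] at hj
    have : z ≠ i := fun h => hi (h ▸ hj)
    show Function.update b i c z y' = b z y'
    rw [Function.update_of_ne this]
  · rfl

/-- the data of a step: the column of `i` is random -/
structure Stp (a : Y → Y → F3) (b : Z → Y → F3) (d : Z → Z → F3) (t : Finset Z) (i : Z) : Prop where
  ha : ∀ y y', a y y' = a y' y
  hd : ∀ z z', d z z' = d z' z
  hi : i ∉ t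
  inj : ∀ w ∈ K (blk a b d) (tt t), (∀ y, w (Sum.inl y) = 0) → w = 0

variable {a : Y → Y → F3} {b : Z → Y → F3} {d : Z → Z → F3} {t : Finset Z} {i : Z}

/-- the matrix with a new column -/
noncomputable abbrev Nc (a : Y → Y → F3) (b : Z → Y → F3) (d : Z → Z → F3) (i : Z) (c : Y → F3) :
    (Y ⊕ Z) → (Y ⊕ Z) → F3 := blk a (Function.update b i c) d

/-- the directions -/
def Hs (a : Y → Y → F3) (b : Z → Y → F3) (d : Z → Z → F3) (t : Finset Z) : Submodule F3 (Y → F3) where
  carrier := {h | ∀ w ∈ K (blk a b d) (tt t), ∑ y, h y * w (Sum.inl y) = 0}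
  add_mem' := by
    intro h h' h1 h2 w hw
    have e : ∑ y, (h + h') y * w (Sum.inl y) =
        ∑ y, h y * w (Sum.inl y) + ∑ y, h' y * w (Sum.inl y) := by
      rw [← sum_add_distrib]
      exact sum_congr rfl fun y _ => by rw [Pi.add_apply, add_mul]
    rw [e, h1 w hw, h2 w hw, add_zero]
  zero_mem' := fun w _ => sum_eq_zero fun y _ => by rw [Pi.zero_apply, zero_mul]
  smul_mem' := by
    intro c h h1 w hw
    have e : ∑ y, (c • h) y * w (Sum.inl y) = c * ∑ y, h y * w (Sum.inl y) := by
      rw [mul_sum]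
      exact sum_congr rfl fun y _ => by rw [Pi.smul_apply, smul_eq_mul, mul_assoc]
    rw [e, h1 w hw, mul_zero]

theorem mem_Hs {h : Y → F3} : h ∈ Hs a b d t ↔
    ∀ w ∈ K (blk a b d) (tt t), ∑ y, h y * w (Sum.inl y) = 0 := Iff.rfl

/-- the projection of the kernel -/
def prY (a : Y → Y → F3) (b : Z → Y → F3) (d : Z → Z → F3) (t : Finset Z) :
    K (blk a b d) (tt t) →ₗ[F3] (Y → F3) where
  toFun w := fun y => w.1 (Sum.inl y)
  map_add' := fun x y => rfl
  map_smul' := fun c x => rfl

theorem prY_inj (S : Stp a b d t i) : Function.Injective (prY a b d t) := by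
  rw [← LinearMap.ker_eq_bot, LinearMap.ker_eq_bot']
  intro w hw
  have h1 := S.inj w.1 w.2 fun y => congrFun hw y
  exact Subtype.ext h1

/-- the double annihilator -/
theorem dbl {u : Y → F3} (hu : ∀ h ∈ Hs a b d t, ∑ y, h y * u y = 0) :
    ∃ w ∈ K (blk a b d) (tt t), ∀ y, w (Sum.inl y) = u y := by
  by_contra hno
  have h1 : u ∉ LinearMap.range (prY a b d t) := by
    rintro ⟨w, hw⟩
    exact hno ⟨w.1, w.2, fun y => congrFun hw y⟩
  obtain ⟨f, hf1, hf2⟩ := Submodule.exists_le_ker_of_notMem h1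
  have hfx : ∀ x : Y → F3, f x = ∑ y, f (Pi.single y 1) * x y := by
    intro x
    conv_lhs => rw [← Finset.univ_sum_single x]
    rw [map_sum]
    refine sum_congr rfl fun y _ => ?_
    have e : (Pi.single y (x y) : Y → F3) = x y • Pi.single y 1 := by
      rw [← Pi.single_smul, smul_eq_mul, mul_one]
    rw [e, map_smul, smul_eq_mul, mul_comm]
  apply hf1
  rw [hfx]
  apply hu
  rw [mem_Hs]
  intro w hw
  have h2 : f (prY a b d t ⟨w, hw⟩) = 0 := hf2 ⟨_, rfl⟩
  rw [hfx] at h2
  exact h2

/-- the columns for which the new row vanishes on the kernel -/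
noncomputable def As (a : Y → Y → F3) (b : Z → Y → F3) (d : Z → Z → F3) (t : Finset Z) (i : Z) :
    Finset (Y → F3) :=
  univ.filter fun c => ∀ w ∈ K (blk a b d) (tt t), Dm (Nc a b d i c) (Sum.inr i) w = 0

theorem Dm_i (c : Y → F3) (w : Y ⊕ Z → F3) : Dm (Nc a b d i c) (Sum.inr i) w =
    ∑ y, c y * w (Sum.inl y) + ∑ z, d i z * w (Sum.inr z) := by
  rw [Dm_inr, Function.update_self]

/-- the number of the directions -/
theorem card_Hs (S : Stp a b d t i) : finrank F3 (Hs a b d t) + nu (blk a b d) (tt t) =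
    Fintype.card Y := by
  -- the map onto the dual of the kernel
  let Ψ : (Y → F3) →ₗ[F3] (K (blk a b d) (tt t) →ₗ[F3] F3) :=
    { toFun := fun c =>
        { toFun := fun w => ∑ y, c y * w.1 (Sum.inl y)
          map_add' := fun w w' => by
            rw [← sum_add_distrib]
            exact sum_congr rfl fun y _ => mul_add _ _ _
          map_smul' := fun x w => by
            rw [RingHom.id_apply, smul_eq_mul, mul_sum]
            refine sum_congr rfl fun y _ => ?_
            show c y * (x * w.1 (Sum.inl y)) = _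
            ring }
      map_add' := fun c c' => by
        ext w
        show ∑ y, (c y + c' y) * w.1 (Sum.inl y) = ∑ y, c y * w.1 (Sum.inl y) +
          ∑ y, c' y * w.1 (Sum.inl y)
        rw [← sum_add_distrib]
        exact sum_congr rfl fun y _ => add_mul _ _ _
      map_smul' := fun x c => by
        ext w
        show ∑ y, (x * c y) * w.1 (Sum.inl y) = x * ∑ y, c y * w.1 (Sum.inl y)
        rw [mul_sum]
        exact sum_congr rfl fun y _ => mul_assoc _ _ _ }
  have hsur : Function.Surjective Ψ := by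
    intro φ
    obtain ⟨g, hg⟩ := LinearMap.exists_leftInverse_of_injective (prY a b d t)
      (LinearMap.ker_eq_bot.2 (prY_inj S))
    refine ⟨fun y => φ (g (Pi.single y 1)), ?_⟩
    ext w
    show ∑ y, φ (g (Pi.single y 1)) * w.1 (Sum.inl y) = φ w
    have h1 : g (prY a b d t w) = w := LinearMap.congr_fun hg w
    conv_rhs => rw [← h1]
    have h2 : prY a b d t w = ∑ y, w.1 (Sum.inl y) • (Pi.single y 1 : Y → F3) := by
      conv_lhs => rw [← Finset.univ_sum_single (prY a b d t w)]
      refine sum_congr rfl fun y _ => ?_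
      rw [← Pi.single_smul, smul_eq_mul, mul_one]
      rfl
    rw [h2, map_sum, map_sum]
    refine sum_congr rfl fun y _ => ?_
    rw [map_smul, map_smul, smul_eq_mul, mul_comm]
  have h1 := LinearMap.finrank_range_add_finrank_ker Ψ
  rw [LinearMap.range_eq_top.2 hsur, finrank_top, Module.finrank_fintype_fun_eq_card] at h1
  have h2 : finrank F3 (K (blk a b d) (tt t) →ₗ[F3] F3) = nu (blk a b d) (tt t) := by
    rw [Module.finrank_linearMap, Module.finrank_self, mul_one]
    rfl
  have h3 : LinearMap.ker Ψ = Hs a b d t := by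
    ext h
    rw [LinearMap.mem_ker, mem_Hs]
    constructor
    · intro h4 w hw
      exact LinearMap.congr_fun h4 ⟨w, hw⟩
    · intro h4
      ext w
      exact h4 w.1 w.2
  rw [h2, h3] at h1
  omega

theorem exists_As (S : Stp a b d t i) : ∃ c, c ∈ As a b d t i := by
  obtain ⟨g, hg⟩ := LinearMap.exists_leftInverse_of_injective (prY a b d t)
      (LinearMap.ker_eq_bot.2 (prY_inj S))
  -- the functional to be realized
  let φ : K (blk a b d) (tt t) →ₗ[F3] F3 :=
    { toFun := fun w => -∑ z, d i z * w.1 (Sum.inr z)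
      map_add' := fun w w' => by
        rw [← neg_add, ← sum_add_distrib]
        congr 1
        exact sum_congr rfl fun y _ => mul_add _ _ _
      map_smul' := fun x w => by
        rw [RingHom.id_apply, smul_eq_mul, mul_neg, mul_sum]
        congr 1
        refine sum_congr rfl fun y _ => ?_
        show d i y * (x * w.1 (Sum.inr y)) = _
        ring }
  refine ⟨fun y => φ (g (Pi.single y 1)), ?_⟩
  unfold As
  rw [mem_filter]
  refine ⟨mem_univ _, fun w hw => ?_⟩
  rw [Dm_i]
  have h1 : g (prY a b d t ⟨w, hw⟩) = ⟨w, hw⟩ := LinearMap.congr_fun hg _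
  have h2 : prY a b d t ⟨w, hw⟩ = ∑ y, w (Sum.inl y) • (Pi.single y 1 : Y → F3) := by
    conv_lhs => rw [← Finset.univ_sum_single (prY a b d t ⟨w, hw⟩)]
    refine sum_congr rfl fun y _ => ?_
    rw [← Pi.single_smul, smul_eq_mul, mul_one]
    rfl
  have h3 : φ ⟨w, hw⟩ = ∑ y, φ (g (Pi.single y 1)) * w (Sum.inl y) := by
    conv_lhs => rw [← h1, h2, map_sum, map_sum]
    refine sum_congr rfl fun y _ => ?_
    rw [map_smul, map_smul, smul_eq_mul, mul_comm]
  rw [← h3]
  show -∑ z, d i z * w (Sum.inr z) + _ = 0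
  exact neg_add_cancel _

theorem As_iff {c h : Y → F3} (hc : c ∈ As a b d t i) :
    c + h ∈ As a b d t i ↔ h ∈ Hs a b d t := by
  unfold As at hc ⊢
  rw [mem_filter] at hc ⊢
  rw [mem_Hs]
  have e : ∀ w, Dm (Nc a b d i (c + h)) (Sum.inr i) w =
      Dm (Nc a b d i c) (Sum.inr i) w + ∑ y, h y * w (Sum.inl y) := by
    intro w
    rw [Dm_i, Dm_i]
    have : ∑ y, (c + h) y * w (Sum.inl y) =
        ∑ y, c y * w (Sum.inl y) + ∑ y, h y * w (Sum.inl y) := by
      rw [← sum_add_distrib]
      exact sum_congr rfl fun y _ => by rw [Pi.add_apply, add_mul]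
    rw [this]
    ring
  constructor
  · rintro ⟨-, h1⟩ w hw
    have := h1 w hw
    rwa [e, hc.2 w hw, zero_add] at this
  · intro h1
    refine ⟨mem_univ _, fun w hw => ?_⟩
    rw [e, hc.2 w hw, h1 w hw, add_zero]

/-- the directions, as a finite set -/
noncomputable def Hf (a : Y → Y → F3) (b : Z → Y → F3) (d : Z → Z → F3) (t : Finset Z) :
    Finset (Y → F3) := univ.filter fun h => h ∈ Hs a b d t

theorem card_Hf (S : Stp a b d t i) :
    (Hf a b d t).card * 3 ^ nu (blk a b d) (tt t) = 3 ^ Fintype.card Y := by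
  have h1 : (Hf a b d t).card = Nat.card (Hs a b d t) := by
    unfold Hf
    rw [← Fintype.card_subtype, Nat.card_eq_fintype_card]
  have h2 : Nat.card (Hs a b d t) = 3 ^ finrank F3 (Hs a b d t) := by
    rw [Module.natCard_eq_pow_finrank (K := F3), Nat.card_zmod]
  rw [h1, h2, ← pow_add, card_Hs S]

theorem card_As (S : Stp a b d t i) : (As a b d t i).card = (Hf a b d t).card := by
  obtain ⟨c, hc⟩ := exists_As S
  symm
  apply card_bij (fun h _ => c + h)
  · intro h hh
    unfold Hf at hh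
    rw [mem_filter] at hh
    exact (As_iff hc).2 hh.2
  · intro h _ h' _ e
    exact add_left_cancel e
  · intro c' hc'
    refine ⟨c' - c, ?_, by rw [add_sub_cancel]⟩
    unfold Hf
    rw [mem_filter]
    refine ⟨mem_univ _, (As_iff hc).1 ?_⟩
    rwa [add_sub_cancel]

/-! ### the second moment -/

/-- a vector which completes the kernel -/
def Vc (a : Y → Y → F3) (b : Z → Y → F3) (d : Z → Z → F3) (t : Finset Z) (i : Z) (c : Y → F3)
    (v : Y ⊕ Z → F3) : Prop :=
  (∀ j, j ∉ tt t → j ≠ Sum.inr i → v j = 0) ∧ v (Sum.inr i) = 1 ∧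
    ∀ j ∈ tt t, Dm (Nc a b d i c) j v = 0

theorem exists_Vc (S : Stp a b d t i) {c : Y → F3} (hc : c ∈ As a b d t i) :
    ∃ v, Vc a b d t i c v := by
  have hs := blk_symm (b := Function.update b i c) S.ha S.hd
  have hi : (Sum.inr i : Y ⊕ Z) ∉ tt t := fun h => S.hi (inr_tt.1 h)
  unfold As at hc
  rw [mem_filter] at hc
  obtain ⟨z, hz1, hz2⟩ := fred hs (tt t) (fun j => -Nc a b d i c j (Sum.inr i)) (by
    intro w hw
    rw [K_upd S.hi] at hw
    have h1 := hc.2 w hw
    unfold Dm at h1
    rw [← neg_eq_zero, ← sum_neg_distrib] at h1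
    rw [← h1]
    refine sum_congr rfl fun j _ => ?_
    have h2 : Nc a b d i c j (Sum.inr i) = Nc a b d i c (Sum.inr i) j := hs _ _
    rw [h2, neg_mul])
  refine ⟨z + Pi.single (Sum.inr i) 1, ?_, ?_, ?_⟩
  · intro j hj hji
    rw [Pi.add_apply, hz1 j hj, Pi.single_eq_of_ne hji, zero_add]
  · rw [Pi.add_apply, hz1 _ hi, Pi.single_eq_same, zero_add]
  · intro j hj
    rw [Dm_add, hz2 j hj]
    have : Dm (Nc a b d i c) j (Pi.single (Sum.inr i) 1) = Nc a b d i c j (Sum.inr i) := by
      unfold Dm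
      rw [Finset.sum_eq_single (Sum.inr i)]
      · rw [Pi.single_eq_same, mul_one]
      · intro l _ hl
        rw [Pi.single_eq_of_ne hl, mul_zero]
      · intro h
        exact absurd (mem_univ _) h
    rw [this]
    exact neg_add_cancel _

/-- the vector -/
noncomputable def vf (a : Y → Y → F3) (b : Z → Y → F3) (d : Z → Z → F3) (t : Finset Z) (i : Z)
    (c : Y → F3) : Y ⊕ Z → F3 :=
  if h : ∃ v, Vc a b d t i c v then h.choose else 0

theorem vf_spec (S : Stp a b d t i) {c : Y → F3} (hc : c ∈ As a b d t i) :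
    Vc a b d t i c (vf a b d t i c) := by
  unfold vf
  rw [dif_pos (exists_Vc S hc)]
  exact (exists_Vc S hc).choose_spec

/-- the value -/
noncomputable def val (a : Y → Y → F3) (b : Z → Y → F3) (d : Z → Z → F3) (t : Finset Z) (i : Z)
    (c : Y → F3) : F3 := Dm (Nc a b d i c) (Sum.inr i) (vf a b d t i c)

theorem sub_K (S : Stp a b d t i) {c : Y → F3} {v v' : Y ⊕ Z → F3} (h : Vc a b d t i c v)
    (h' : Vc a b d t i c v') : v - v' ∈ K (blk a b d) (tt t) := by
  rw [← K_upd S.hi c]
  refine mem_K.2 ⟨fun j hj => ?_, fun j hj => ?_⟩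
  · by_cases hji : j = Sum.inr i
    · subst hji
      rw [Pi.sub_apply, h.2.1, h'.2.1, sub_self]
    · rw [Pi.sub_apply, h.1 j hj hji, h'.1 j hj hji, sub_self]
  · rw [Dm_sub, h.2.2 j hj, h'.2.2 j hj, sub_self]

theorem val_eq (S : Stp a b d t i) {c : Y → F3} (hc : c ∈ As a b d t i) {v : Y ⊕ Z → F3}
    (h : Vc a b d t i c v) : val a b d t i c = Dm (Nc a b d i c) (Sum.inr i) v := by
  have h1 := sub_K S (vf_spec S hc) h
  unfold As at hc
  rw [mem_filter] at hc
  have h2 := hc.2 _ h1
  rw [Dm_sub, sub_eq_zero] at h2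
  exact h2

/-- the derivative of the vector -/
def Zc (a : Y → Y → F3) (b : Z → Y → F3) (d : Z → Z → F3) (t : Finset Z) (h : Y → F3)
    (v : Y ⊕ Z → F3) : Prop :=
  (∀ j, j ∉ tt t → v j = 0) ∧ (∀ y, Dm (blk a b d) (Sum.inl y) v = -h y) ∧
    ∀ z ∈ t, Dm (blk a b d) (Sum.inr z) v = 0

theorem exists_Zc (S : Stp a b d t i) {h : Y → F3} (hh : h ∈ Hs a b d t) :
    ∃ v, Zc a b d t h v := by
  have hs := blk_symm (b := b) S.ha S.hd
  obtain ⟨z, hz1, hz2⟩ := fred hs (tt t) (Sum.elim (fun y => -h y) fun _ => 0) (by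
    intro w hw
    rw [Fintype.sum_sum_type]
    simp only [Sum.elim_inl, Sum.elim_inr, zero_mul, sum_const_zero, add_zero, neg_mul,
      sum_neg_distrib]
    rw [mem_Hs.1 hh w hw, neg_zero])
  exact ⟨z, hz1, fun y => hz2 _ (inl_tt y), fun z hz => hz2 _ (inr_tt.2 hz)⟩

/-- the derivative -/
noncomputable def zf (a : Y → Y → F3) (b : Z → Y → F3) (d : Z → Z → F3) (t : Finset Z)
    (h : Y → F3) : Y ⊕ Z → F3 :=
  if h : ∃ v, Zc a b d t h v then h.choose else 0

theorem zf_spec (S : Stp a b d t i) {h : Y → F3} (hh : h ∈ Hs a b d t) :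
    Zc a b d t h (zf a b d t h) := by
  unfold zf
  rw [dif_pos (exists_Zc S hh)]
  exact (exists_Zc S hh).choose_spec

/-- the rows do not see the new column on vectors supported on `t` -/
theorem Dm_Nc (hi : i ∉ t) (c : Y → F3) {j : Y ⊕ Z} (hj : j ∈ tt t) {v : Y ⊕ Z → F3}
    (hv : ∀ j, j ∉ tt t → v j = 0) : Dm (Nc a b d i c) j v = Dm (blk a b d) j v := by
  unfold Dm
  refine sum_congr rfl fun l _ => ?_
  by_cases hl : l ∈ tt t
  · congr 1
    rcases j with y | z <;> rcases l with y' | z'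
    · rfl
    · rw [inr_tt] at hl
      have : z' ≠ i := fun h => hi (h ▸ hl)
      show Function.update b i c z' y = b z' y
      rw [Function.update_of_ne this]
    · rw [inr_tt] at hj
      have : z ≠ i := fun h => hi (h ▸ hj)
      show Function.update b i c z y' = b z y'
      rw [Function.update_of_ne this]
    · rfl
  · rw [hv l hl, mul_zero, mul_zero]

theorem Vc_add (S : Stp a b d t i) {c h : Y → F3} {v z : Y ⊕ Z → F3} (hv : Vc a b d t i c v)
    (hz : Zc a b d t h z) : Vc a b d t i (c + h) (v + z) := by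
  have hi : (Sum.inr i : Y ⊕ Z) ∉ tt t := fun h => S.hi (inr_tt.1 h)
  refine ⟨fun j hj hji => ?_, ?_, fun j hj => ?_⟩
  · rw [Pi.add_apply, hv.1 j hj hji, hz.1 j hj, add_zero]
  · rw [Pi.add_apply, hv.2.1, hz.1 _ hi, add_zero]
  · rw [Dm_add, Dm_Nc S.hi (c + h) hj hz.1]
    rcases j with y | x
    · rw [hz.2.1 y]
      have h1 := hv.2.2 _ hj
      rw [Dm_inl] at h1 ⊢
      have e : ∑ z, Function.update b i (c + h) z y * v (Sum.inr z) =
          ∑ z, Function.update b i c z y * v (Sum.inr z) + h y := by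
        rw [← Finset.add_sum_erase _ _ (mem_univ i), ← Finset.add_sum_erase _ _ (mem_univ i),
          Function.update_self, Function.update_self, hv.2.1]
        have : ∀ x ∈ univ.erase i, Function.update b i (c + h) x y * v (Sum.inr x) =
            Function.update b i c x y * v (Sum.inr x) := by
          intro x hx
          rw [mem_erase] at hx
          rw [Function.update_of_ne hx.1, Function.update_of_ne hx.1]
        rw [sum_congr rfl this, Pi.add_apply]
        ring
      rw [e, ← add_assoc, h1]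
      ring
    · rw [inr_tt] at hj
      rw [hz.2.2 x hj, add_zero]
      have h1 := hv.2.2 _ (inr_tt.2 hj)
      rw [Dm_inr] at h1 ⊢
      have hne : x ≠ i := fun h => S.hi (h ▸ hj)
      rw [Function.update_of_ne hne] at h1 ⊢
      exact h1

theorem val_add (S : Stp a b d t i) {c h : Y → F3} (hc : c ∈ As a b d t i)
    (hh : h ∈ Hs a b d t) : val a b d t i (c + h) = val a b d t i c +
      2 * ∑ y, h y * vf a b d t i c (Sum.inl y) + ∑ y, h y * zf a b d t h (Sum.inl y) := by
  have hch := (As_iff hc).2 hh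
  have hv := vf_spec S hc
  have hz := zf_spec S hh
  set v := vf a b d t i c with hvdef
  set z := zf a b d t h with hzdef
  rw [val_eq S hch (Vc_add S hv hz), Dm_add]
  have e0 : ∀ w, Dm (Nc a b d i (c + h)) (Sum.inr i) w =
      Dm (Nc a b d i c) (Sum.inr i) w + ∑ y, h y * w (Sum.inl y) := by
    intro w
    rw [Dm_i, Dm_i]
    have : ∑ y, (c + h) y * w (Sum.inl y) =
        ∑ y, c y * w (Sum.inl y) + ∑ y, h y * w (Sum.inl y) := by
      rw [← sum_add_distrib]
      exact sum_congr rfl fun y _ => by rw [Pi.add_apply, add_mul]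
    rw [this]
    ring
  rw [e0 v, e0 z]
  have e1 : val a b d t i c = Dm (Nc a b d i c) (Sum.inr i) v := rfl
  rw [e1]
  have e2 : Dm (Nc a b d i c) (Sum.inr i) z = ∑ y, h y * v (Sum.inl y) := by
    have hs := blk_symm (b := Function.update b i c) S.ha S.hd
    have h1 := pair hs z v
    have h2 : ∑ j, z j * Dm (Nc a b d i c) j v = 0 := sum_eq_zero fun j _ => by
      by_cases hj : j ∈ tt t
      · rw [hv.2.2 j hj, mul_zero]
      · rw [hz.1 j hj, zero_mul]
    rw [h2] at h1
    have h3 : ∑ j, v j * Dm (Nc a b d i c) j z =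
        Dm (Nc a b d i c) (Sum.inr i) z - ∑ y, h y * v (Sum.inl y) := by
      rw [Fintype.sum_sum_type]
      have h4 : ∑ y, v (Sum.inl y) * Dm (Nc a b d i c) (Sum.inl y) z =
          -∑ y, h y * v (Sum.inl y) := by
        rw [← sum_neg_distrib]
        refine sum_congr rfl fun y _ => ?_
        rw [Dm_Nc S.hi c (inl_tt y) hz.1, hz.2.1 y]
        ring
      have h5 : ∑ x, v (Sum.inr x) * Dm (Nc a b d i c) (Sum.inr x) z =
          Dm (Nc a b d i c) (Sum.inr i) z := by
        rw [Finset.sum_eq_single i]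
        · rw [hv.2.1, one_mul]
        · intro x _ hx
          by_cases hxt : x ∈ t
          · rw [Dm_Nc S.hi c (inr_tt.2 hxt) hz.1, hz.2.2 x hxt, mul_zero]
          · rw [hv.1 (Sum.inr x) (fun h => hxt (inr_tt.1 h))
              (fun h => hx (Sum.inr_injective h)), zero_mul]
        · intro h
          exact absurd (mem_univ _) h
      rw [h4, h5]
      ring
    rw [h3] at h1
    exact (sub_eq_zero.1 h1.symm)
  rw [e2]
  ring

/-- the pairing of the derivatives -/
theorem zf_pair (S : Stp a b d t i) {h h' : Y → F3} (hh : h ∈ Hs a b d t)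
    (hh' : h' ∈ Hs a b d t) : ∑ y, h y * zf a b d t h' (Sum.inl y) =
      ∑ y, h' y * zf a b d t h (Sum.inl y) := by
  have hs := blk_symm (b := b) S.ha S.hd
  have hz := zf_spec S hh
  have hz' := zf_spec S hh'
  set z := zf a b d t h with hzdef
  set z' := zf a b d t h' with hzdef'
  have h1 := pair hs z z'
  have h2 : ∀ (u u' : Y ⊕ Z → F3) (g : Y → F3), Zc a b d t g u' → (∀ j, j ∉ tt t → u j = 0) →
      ∑ j, u j * Dm (blk a b d) j u' = -∑ y, g y * u (Sum.inl y) := by
    intro u u' g hu' hu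
    rw [Fintype.sum_sum_type]
    have h4 : ∑ y, u (Sum.inl y) * Dm (blk a b d) (Sum.inl y) u' =
        -∑ y, g y * u (Sum.inl y) := by
      rw [← sum_neg_distrib]
      refine sum_congr rfl fun y _ => ?_
      rw [hu'.2.1 y]
      ring
    have h5 : ∑ x, u (Sum.inr x) * Dm (blk a b d) (Sum.inr x) u' = 0 :=
      sum_eq_zero fun x _ => by
        by_cases hxt : x ∈ t
        · rw [hu'.2.2 x hxt, mul_zero]
        · rw [hu (Sum.inr x) (fun h => hxt (inr_tt.1 h)), zero_mul]
    rw [h4, h5, add_zero]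
  rw [h2 z z' h' hz' hz.1, h2 z' z h hz hz'.1, neg_inj] at h1
  exact h1.symm

/-- the radical -/
noncomputable def Rs (a : Y → Y → F3) (b : Z → Y → F3) (d : Z → Z → F3) (t : Finset Z) :
    Finset (Y → F3) :=
  (Hf a b d t).filter fun h => ∀ h' ∈ Hs a b d t, ∑ y, h' y * zf a b d t h (Sum.inl y) = 0

theorem card_Rs (S : Stp a b d t i) :
    (Rs a b d t).card ≤ 3 ^ nu (blk a b d) (t0 t) := by
  have h0 : ∀ h ∈ Rs a b d t, ∃ u ∈ K (blk a b d) (t0 t), ∀ y, h y = -Dm (blk a b d) (Sum.inl y) u := by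
    intro h hh
    unfold Rs at hh
    rw [mem_filter] at hh
    have hhH : h ∈ Hs a b d t := (mem_filter.1 hh.1).2
    obtain ⟨w, hw, hw2⟩ := dbl hh.2
    have hw' := mem_K.1 hw
    have hz := zf_spec S hhH
    refine ⟨zf a b d t h - w, ?_, ?_⟩
    · refine mem_K.2 ⟨fun j hj => ?_, fun j hj => ?_⟩
      · rcases j with y | z
        · rw [Pi.sub_apply, hw2, sub_self]
        · have hzt : (Sum.inr z : Y ⊕ Z) ∉ tt t := fun h => hj (inr_t0.2 (inr_tt.1 h))
          rw [Pi.sub_apply, hz.1 _ hzt, hw'.1 _ hzt, sub_self]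
      · rcases j with y | z
        · exact absurd hj (inl_t0 y)
        · have hzt := inr_t0.1 hj
          rw [Dm_sub, hz.2.2 z hzt, hw'.2 _ (inr_tt.2 hzt), sub_self]
    · intro y
      rw [Dm_sub, hz.2.1 y, hw'.2 _ (inl_tt y), sub_zero, neg_neg]
  choose! u hu1 hu2 using h0
  have h1 : (Rs a b d t).card ≤
      (univ.filter fun x : Y ⊕ Z → F3 => x ∈ K (blk a b d) (t0 t)).card := by
    apply card_le_card_of_injOn u
    · intro h hh
      rw [mem_coe] at hh
      rw [mem_coe, mem_filter]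
      exact ⟨mem_univ _, hu1 h hh⟩
    · intro h hh h' hh' e
      funext y
      rw [hu2 h hh y, hu2 h' hh' y, e]
  refine h1.trans (le_of_eq ?_)
  rw [← Fintype.card_subtype, ← Nat.card_eq_fintype_card]
  show Nat.card (K (blk a b d) (t0 t)) = _
  rw [Module.natCard_eq_pow_finrank (K := F3), Nat.card_zmod]
  rfl

/-- outside the radical the difference is equidistributed -/
theorem diff_third (S : Stp a b d t i) {h : Y → F3} (hh : h ∈ Hf a b d t) (hR : h ∉ Rs a b d t) :
    3 * ((As a b d t i).filter fun c => val a b d t i (c + h) = val a b d t i c).card =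
      (As a b d t i).card := by
  have hhH : h ∈ Hs a b d t := (mem_filter.1 hh).2
  unfold Rs at hR
  rw [mem_filter, not_and] at hR
  have h1 := hR hh
  push Not at h1
  obtain ⟨h', hh', hne⟩ := h1
  have key := third (As a b d t i) (fun c => val a b d t i (c + h) - val a b d t i c) h'
    (2 * ∑ y, h' y * zf a b d t h (Sum.inl y))
    (mul_ne_zero (by decide) hne) (fun c hc => (As_iff hc).2 hh') (by
    intro c hc
    have hc' := (As_iff hc).2 hh'
    rw [val_add S hc' hhH, val_add S hc hhH]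
    have e1 : ∑ y, h y * vf a b d t i (c + h') (Sum.inl y) =
        ∑ y, h y * vf a b d t i c (Sum.inl y) + ∑ y, h y * zf a b d t h' (Sum.inl y) := by
      have h2 := sub_K S (vf_spec S hc') (Vc_add S (vf_spec S hc) (zf_spec S hh'))
      have h3 := mem_Hs.1 hhH _ h2
      rw [← sub_eq_zero, ← h3, ← sum_add_distrib, ← sum_sub_distrib]
      refine sum_congr rfl fun y _ => ?_
      rw [Pi.sub_apply, Pi.add_apply]
      ring
    rw [e1, zf_pair S hhH hh']
    ring)
  simp only [sub_eq_zero] at key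
  exact key

/-- the number of the zeros of the value -/
theorem zeros (S : Stp a b d t i) :
    ((((As a b d t i).filter fun c => val a b d t i c = 0).card : ℝ) -
      ((As a b d t i).card : ℝ) / 3) ^ 2 ≤
    4 / 9 * (3 ^ nu (blk a b d) (t0 t) * ((As a b d t i).card : ℝ)) := by
  set A := As a b d t i with hA
  set n : F3 → ℕ := fun j => (A.filter fun c => val a b d t i c = j).card with hn
  have e3 : ∀ g : F3 → ℕ, ∑ j : F3, g j = g 0 + g 1 + g 2 := fun g => Fin.sum_univ_three g
  -- the number of the pairs with equal values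
  have h1 : ∑ j : F3, n j ^ 2 = ∑ h ∈ Hf a b d t,
      (A.filter fun c => val a b d t i (c + h) = val a b d t i c).card := by
    have e1 : ∑ j : F3, n j ^ 2 =
        ((A ×ˢ A).filter fun p => val a b d t i p.1 = val a b d t i p.2).card := by
      rw [card_eq_sum_card_fiberwise (f := fun p : (Y → F3) × (Y → F3) => val a b d t i p.1)
        (t := univ) (fun x _ => mem_univ _)]
      refine sum_congr rfl fun j _ => ?_
      rw [pow_two, hn]
      simp only
      rw [← card_product]
      congr 1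
      ext ⟨c, c'⟩
      simp only [mem_product, mem_filter]
      constructor
      · rintro ⟨⟨h1, h2⟩, h3, h4⟩
        exact ⟨⟨⟨h1, h3⟩, by rw [h2, h4]⟩, h2⟩
      · rintro ⟨⟨⟨h1, h3⟩, h4⟩, h2⟩
        exact ⟨⟨h1, h2⟩, h3, by rw [← h4, h2]⟩
    rw [e1, ← card_sigma]
    symm
    apply card_bij (fun (x : Σ _ : Y → F3, Y → F3) _ => (x.2 + x.1, x.2))
    · rintro ⟨h, c⟩ hx
      rw [mem_sigma, mem_filter] at hx
      rw [mem_filter, mem_product]
      have hh : h ∈ Hs a b d t := (mem_filter.1 hx.1).2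
      exact ⟨⟨(As_iff hx.2.1).2 hh, hx.2.1⟩, hx.2.2⟩
    · rintro ⟨h, c⟩ _ ⟨h', c'⟩ _ e
      simp only [Prod.mk.injEq] at e
      obtain ⟨e1, e2⟩ := e
      subst e2
      have := add_left_cancel e1
      subst this
      rfl
    · rintro ⟨c', c⟩ hx
      rw [mem_filter, mem_product] at hx
      refine ⟨⟨c' - c, c⟩, ?_, by simp only [add_sub_cancel]⟩
      rw [mem_sigma, mem_filter]
      simp only [add_sub_cancel]
      refine ⟨?_, hx.1.2, hx.2⟩
      unfold Hf
      rw [mem_filter]
      refine ⟨mem_univ _, (As_iff hx.1.2).1 ?_⟩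
      rw [add_sub_cancel]
      exact hx.1.1
  have h2 : ∑ h ∈ Hf a b d t,
      3 * (A.filter fun c => val a b d t i (c + h) = val a b d t i c).card ≤
      ∑ h ∈ Hf a b d t, (A.card + if h ∈ Rs a b d t then 2 * A.card else 0) := by
    refine sum_le_sum fun h hh => ?_
    split_ifs with hR
    · have : (A.filter fun c => val a b d t i (c + h) = val a b d t i c).card ≤ A.card :=
        card_filter_le _ _
      omega
    · have h3 := diff_third S hh hR
      rw [← hA] at h3
      omega
  rw [← mul_sum, ← h1, sum_add_distrib, sum_const, ← sum_filter, sum_const, smul_eq_mul,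
    smul_eq_mul, e3] at h2
  have h3 : ((Hf a b d t).filter fun h => h ∈ Rs a b d t).card ≤ 3 ^ nu (blk a b d) (t0 t) := by
    refine le_trans (card_le_card ?_) (card_Rs S)
    intro h hh
    exact (mem_filter.1 hh).2
  have h4 : n 0 + n 1 + n 2 = A.card := by
    rw [← e3]
    exact (card_eq_sum_card_fiberwise (f := fun c => val a b d t i c) (t := univ)
      (fun x _ => mem_univ _)).symm
  rw [← card_As S, ← hA] at h2
  have h5 : (3 : ℝ) * ((n 0 : ℝ) ^ 2 + (n 1 : ℝ) ^ 2 + (n 2 : ℝ) ^ 2) ≤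
      (A.card : ℝ) * A.card + 3 ^ nu (blk a b d) (t0 t) * (2 * A.card) := by
    have h6 : 3 * (n 0 ^ 2 + n 1 ^ 2 + n 2 ^ 2) ≤
        A.card * A.card + 3 ^ nu (blk a b d) (t0 t) * (2 * A.card) :=
      h2.trans (Nat.add_le_add_left (Nat.mul_le_mul_right _ h3) _)
    exact_mod_cast h6
  have h6 : (n 0 : ℝ) + n 1 + n 2 = A.card := by exact_mod_cast h4
  have h7 : ((n 0 : ℝ) - (A.card : ℝ) / 3) ^ 2 ≤
      2 / 3 * ((n 0 : ℝ) ^ 2 + (n 1 : ℝ) ^ 2 + (n 2 : ℝ) ^ 2 - (A.card : ℝ) * A.card / 3) := by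
    rw [← h6]
    nlinarith [sq_nonneg ((n 1 : ℝ) - n 2)]
  have h8 : ((A.filter fun c => val a b d t i c = 0).card : ℝ) = n 0 := rfl
  rw [h8]
  refine h7.trans ?_
  linarith

/-- **one random column** -/
theorem avg (S : Stp a b d t i) (φ : ℕ → ℝ) (hφ : ∀ n, 0 ≤ φ n ∧ φ n ≤ 1) :
    |∑ c : Y → F3, φ (nu (blk a (Function.update b i c) d) (tt (insert i t))) -
      3 ^ Fintype.card Y * ((1 - (1 / 3) ^ nu (blk a b d) (tt t)) * φ (nu (blk a b d) (tt t) - 1) +
        (1 / 3) ^ nu (blk a b d) (tt t) * (2 / 3 * φ (nu (blk a b d) (tt t)) +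
          1 / 3 * φ (nu (blk a b d) (tt t) + 1)))| ≤
    Real.sqrt (3 ^ nu (blk a b d) (t0 t) * 3 ^ Fintype.card Y) := by
  set k := nu (blk a b d) (tt t) with hk
  set A := As a b d t i with hA
  set A0 := A.filter fun c => val a b d t i c = 0 with hA0
  have hi : (Sum.inr i : Y ⊕ Z) ∉ tt t := fun h => S.hi (inr_tt.1 h)
  have hK : ∀ c : Y → F3, nu (blk a (Function.update b i c) d) (tt t) = k := by
    intro c
    unfold nu
    rw [K_upd S.hi]
    rfl
  have c1 : ∀ c, c ∉ A → nu (blk a (Function.update b i c) d) (tt (insert i t)) = k - 1 := by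
    intro c hc
    rw [hA] at hc
    unfold As at hc
    rw [mem_filter, not_and] at hc
    have h1 := hc (mem_univ _)
    push Not at h1
    obtain ⟨w, hw, hw2⟩ := h1
    have h2 := step_a (blk_symm (b := Function.update b i c) S.ha S.hd) hi
      ⟨w, by rw [K_upd S.hi]; exact hw, hw2⟩
    rw [hK] at h2
    rw [tt_insert]
    omega
  have c2 : ∀ c ∈ A, val a b d t i c ≠ 0 →
      nu (blk a (Function.update b i c) d) (tt (insert i t)) = k := by
    intro c hc hv
    have h1 := vf_spec S hc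
    have h2 := step_b0 (blk_symm (b := Function.update b i c) S.ha S.hd) hi h1.1 h1.2.1 h1.2.2 hv
    rw [tt_insert, h2, hK]
  have c3 : ∀ c ∈ A, val a b d t i c = 0 →
      nu (blk a (Function.update b i c) d) (tt (insert i t)) = k + 1 := by
    intro c hc hv
    have h1 := vf_spec S hc
    have h2 := step_b1 (blk_symm (b := Function.update b i c) S.ha S.hd) hi h1.1 h1.2.1 h1.2.2 hv
    rw [tt_insert, h2, hK]
  have hsum : ∑ c : Y → F3, φ (nu (blk a (Function.update b i c) d) (tt (insert i t))) =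
      (3 ^ Fintype.card Y - (A.card : ℝ)) * φ (k - 1) + ((A.card : ℝ) - A0.card) * φ k +
        (A0.card : ℝ) * φ (k + 1) := by
    rw [← Finset.sum_filter_add_sum_filter_not univ (fun c => c ∈ A)]
    have e1 : (univ.filter fun c : Y → F3 => c ∈ A) = A := by
      ext c
      rw [mem_filter]
      exact ⟨fun h => h.2, fun h => ⟨mem_univ _, h⟩⟩
    have e2 : ((univ.filter fun c : Y → F3 => ¬ c ∈ A).card : ℝ) =
        3 ^ Fintype.card Y - (A.card : ℝ) := by
      have h1 := Finset.card_filter_add_card_filter_not (s := (univ : Finset (Y → F3)))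
        (fun c => c ∈ A)
      rw [e1, card_univ, Fintype.card_fun, ZMod.card] at h1
      rw [eq_sub_iff_add_eq']
      exact_mod_cast h1
    have e3 : ∑ c ∈ univ.filter (fun c : Y → F3 => ¬ c ∈ A),
        φ (nu (blk a (Function.update b i c) d) (tt (insert i t))) =
        (3 ^ Fintype.card Y - (A.card : ℝ)) * φ (k - 1) := by
      rw [← e2, ← nsmul_eq_mul, ← sum_const]
      refine sum_congr rfl fun c hc => ?_
      rw [c1 c (mem_filter.1 hc).2]
    rw [e1, e3, ← Finset.sum_filter_add_sum_filter_not A (fun c => val a b d t i c = 0)]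
    have e4 : ∑ c ∈ A.filter (fun c => val a b d t i c = 0),
        φ (nu (blk a (Function.update b i c) d) (tt (insert i t))) =
        (A0.card : ℝ) * φ (k + 1) := by
      rw [← nsmul_eq_mul, ← sum_const]
      refine sum_congr rfl fun c hc => ?_
      rw [mem_filter] at hc
      rw [c3 c hc.1 hc.2]
    have e5 : ((A.filter fun c => ¬ val a b d t i c = 0).card : ℝ) = (A.card : ℝ) - A0.card := by
      have h1 := Finset.card_filter_add_card_filter_not (s := A)
        (fun c => val a b d t i c = 0)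
      rw [eq_sub_iff_add_eq']
      exact_mod_cast h1
    have e6 : ∑ c ∈ A.filter (fun c => ¬ val a b d t i c = 0),
        φ (nu (blk a (Function.update b i c) d) (tt (insert i t))) =
        ((A.card : ℝ) - A0.card) * φ k := by
      rw [← e5, ← nsmul_eq_mul, ← sum_const]
      refine sum_congr rfl fun c hc => ?_
      rw [mem_filter] at hc
      rw [c2 c hc.1 hc.2]
    rw [e4, e6]
    ring
  have hcard : (A.card : ℝ) = 3 ^ Fintype.card Y * (1 / 3) ^ k := by
    have h1 : ((Hf a b d t).card : ℝ) * 3 ^ k = 3 ^ Fintype.card Y := by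
      exact_mod_cast card_Hf S
    rw [hA, card_As S, ← h1, one_div, inv_pow]
    field_simp
  have hz := zeros S
  rw [← hA, ← hA0] at hz
  rw [hsum]
  have e7 : (3 ^ Fintype.card Y - (A.card : ℝ)) * φ (k - 1) + ((A.card : ℝ) - A0.card) * φ k +
        (A0.card : ℝ) * φ (k + 1) - 3 ^ Fintype.card Y * ((1 - (1 / 3) ^ k) * φ (k - 1) +
        (1 / 3) ^ k * (2 / 3 * φ k + 1 / 3 * φ (k + 1))) =
      ((A0.card : ℝ) - (A.card : ℝ) / 3) * (φ (k + 1) - φ k) := by
    have : (3 : ℝ) ^ Fintype.card Y * ((1 - (1 / 3) ^ k) * φ (k - 1) +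
        (1 / 3) ^ k * (2 / 3 * φ k + 1 / 3 * φ (k + 1))) =
        (3 ^ Fintype.card Y - 3 ^ Fintype.card Y * (1 / 3) ^ k) * φ (k - 1) +
        (3 ^ Fintype.card Y * (1 / 3) ^ k) * (2 / 3 * φ k + 1 / 3 * φ (k + 1)) := by ring
    rw [this, ← hcard]
    ring
  rw [e7, abs_mul]
  have h9 : |φ (k + 1) - φ k| ≤ 1 := by
    have h1 := hφ (k + 1)
    have h2 := hφ k
    rw [abs_le]
    constructor <;> linarith
  have h10 : |(A0.card : ℝ) - (A.card : ℝ) / 3| ≤
      Real.sqrt (3 ^ nu (blk a b d) (t0 t) * 3 ^ Fintype.card Y) := by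
    apply Real.abs_le_sqrt
    refine hz.trans ?_
    have h11 : (A.card : ℝ) ≤ 3 ^ Fintype.card Y := by
      rw [hcard]
      have : ((1 : ℝ) / 3) ^ k ≤ 1 := pow_le_one₀ (by norm_num) (by norm_num)
      have h12 : (0 : ℝ) < 3 ^ Fintype.card Y := by positivity
      nlinarith
    have h12 : (3 : ℝ) ^ nu (blk a b d) (t0 t) * (A.card : ℝ) ≤
        3 ^ nu (blk a b d) (t0 t) * 3 ^ Fintype.card Y :=
      mul_le_mul_of_nonneg_left h11 (by positivity)
    have h13 : (0 : ℝ) ≤ 3 ^ nu (blk a b d) (t0 t) * (A.card : ℝ) := by positivity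
    linarith
  calc |(A0.card : ℝ) - (A.card : ℝ) / 3| * |φ (k + 1) - φ k| ≤
        |(A0.card : ℝ) - (A.card : ℝ) / 3| * 1 := mul_le_mul_of_nonneg_left h9 (abs_nonneg _)
    _ ≤ _ := by rw [mul_one]; exact h10

end

end Run7.h238.X
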