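import Mathlib

/-!
# Bordering a symmetric matrix

For a symmetric matrix `N` over a field, `K N t` is the kernel of the part of `N` on the finite
set `t` of indices. One more index changes the dimension of the kernel by at most one.
-/

set_option autoImplicit false
set_option linter.unusedSectionVars false
set_option linter.unusedVariables false

namespace Run7.h238.X

open Finset Module

section
variable {F : Type} [Field F] {ι : Type} [Fintype ι] [DecidableEq ι]

/-- a row of a matrix, applied to a vector -/
def Dm (N : ι → ι → F) (j : ι) (z : ι → F) : F := ∑ l, N j l * z l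

/-- the kernel of the part on `t` -/
def K (N : ι → ι → F) (t : Finset ι) : Submodule F (ι → F) where
  carrier := {z | (∀ j, j ∉ t → z j = 0) ∧ ∀ j ∈ t, Dm N j z = 0}
  add_mem' := by
    rintro a b ⟨h1, h2⟩ ⟨h3, h4⟩
    refine ⟨fun j hj => ?_, fun j hj => ?_⟩
    · rw [Pi.add_apply, h1 j hj, h3 j hj, add_zero]
    · have : Dm N j (a + b) = Dm N j a + Dm N j b := by
        unfold Dm
        rw [← sum_add_distrib]
        exact sum_congr rfl fun l _ => by rw [Pi.add_apply, mul_add]
      rw [this, h2 j hj, h4 j hj, add_zero]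
  zero_mem' := by
    refine ⟨fun j _ => rfl, fun j _ => ?_⟩
    unfold Dm
    exact sum_eq_zero fun l _ => by rw [Pi.zero_apply, mul_zero]
  smul_mem' := by
    rintro c a ⟨h1, h2⟩
    refine ⟨fun j hj => ?_, fun j hj => ?_⟩
    · rw [Pi.smul_apply, h1 j hj, smul_zero]
    · have : Dm N j (c • a) = c * Dm N j a := by
        unfold Dm
        rw [mul_sum]
        exact sum_congr rfl fun l _ => by rw [Pi.smul_apply, smul_eq_mul]; ring
      rw [this, h2 j hj, mul_zero]

theorem mem_K {N : ι → ι → F} {t : Finset ι} {z : ι → F} :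
    z ∈ K N t ↔ (∀ j, j ∉ t → z j = 0) ∧ ∀ j ∈ t, Dm N j z = 0 := Iff.rfl

/-- the dimension of the kernel -/
noncomputable def nu (N : ι → ι → F) (t : Finset ι) : ℕ := finrank F (K N t)

theorem Dm_add (N : ι → ι → F) (j : ι) (a b : ι → F) : Dm N j (a + b) = Dm N j a + Dm N j b := by
  unfold Dm
  rw [← sum_add_distrib]
  exact sum_congr rfl fun l _ => by rw [Pi.add_apply, mul_add]

theorem Dm_smul (N : ι → ι → F) (j : ι) (c : F) (a : ι → F) : Dm N j (c • a) = c * Dm N j a := by
  unfold Dm
  rw [mul_sum]
  exact sum_congr rfl fun l _ => by rw [Pi.smul_apply, smul_eq_mul]; ring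

theorem Dm_sub (N : ι → ι → F) (j : ι) (a b : ι → F) : Dm N j (a - b) = Dm N j a - Dm N j b := by
  unfold Dm
  rw [← sum_sub_distrib]
  exact sum_congr rfl fun l _ => by rw [Pi.sub_apply, mul_sub]

theorem Dm_zero (N : ι → ι → F) (j : ι) : Dm N j 0 = 0 := by
  unfold Dm
  exact sum_eq_zero fun l _ => by rw [Pi.zero_apply, mul_zero]

/-- a row, as a linear map -/
def DL (N : ι → ι → F) (j : ι) : (ι → F) →ₗ[F] F where
  toFun := Dm N j
  map_add' := Dm_add N j
  map_smul' := fun c a => by rw [Dm_smul, RingHom.id_apply, smul_eq_mul]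

theorem pair {N : ι → ι → F} (hN : ∀ j l, N j l = N l j) (z w : ι → F) :
    ∑ j, z j * Dm N j w = ∑ j, w j * Dm N j z := by
  unfold Dm
  simp_rw [mul_sum]
  rw [sum_comm]
  exact sum_congr rfl fun l _ => sum_congr rfl fun j _ => by rw [hN]; ring

theorem K_congr {N N' : ι → ι → F} {t : Finset ι} (h : ∀ j ∈ t, ∀ l ∈ t, N j l = N' j l) :
    K N t = K N' t := by
  ext z
  rw [mem_K, mem_K]
  refine and_congr_right fun h1 => ?_
  refine forall_congr' fun j => forall_congr' fun hj => ?_
  have : Dm N j z = Dm N' j z := by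
    unfold Dm
    refine sum_congr rfl fun l _ => ?_
    by_cases hl : l ∈ t
    · rw [h j hj l hl]
    · rw [h1 l hl, mul_zero, mul_zero]
  rw [this]

/-- the solvability of the linear system on `t` -/
theorem fred {N : ι → ι → F} (hN : ∀ j l, N j l = N l j) (t : Finset ι) (r : ι → F)
    (hr : ∀ w ∈ K N t, ∑ j, r j * w j = 0) :
    ∃ z : ι → F, (∀ j, j ∉ t → z j = 0) ∧ ∀ j ∈ t, Dm N j z = r j := by
  classical
  -- the restricted matrix
  let L : (ι → F) →ₗ[F] (ι → F) :=
    LinearMap.pi fun j => if j ∈ t then (∑ l ∈ t, N j l • LinearMap.proj l) else 0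
  have hL : ∀ z j, L z j = if j ∈ t then ∑ l ∈ t, N j l * z l else 0 := by
    intro z j
    simp only [L, LinearMap.pi_apply]
    split_ifs
    · simp
    · simp
  set r' : ι → F := fun j => if j ∈ t then r j else 0 with hr'
  have hmem : r' ∈ LinearMap.range L := by
    by_contra hno
    obtain ⟨f, hf1, hf2⟩ := Submodule.exists_le_ker_of_notMem hno
    set c : ι → F := fun j => if j ∈ t then f (Pi.single j 1) else 0 with hc
    have hfx : ∀ x : ι → F, (∀ j, j ∉ t → x j = 0) → f x = ∑ j, x j * c j := by
      intro x hx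
      conv_lhs => rw [← Finset.univ_sum_single x]
      rw [map_sum]
      refine sum_congr rfl fun j _ => ?_
      by_cases hj : j ∈ t
      · have e : (Pi.single j (x j) : ι → F) = x j • Pi.single j 1 := by
          rw [← Pi.single_smul, smul_eq_mul, mul_one]
        rw [e, map_smul, smul_eq_mul, hc]
        simp only [hj, if_true]
      · rw [hx j hj, Pi.single_zero, map_zero, zero_mul]
    have hcK : c ∈ K N t := by
      rw [mem_K]
      refine ⟨fun j hj => by simp only [hc, hj, if_false], fun l hl => ?_⟩
      have h1 : f (L (Pi.single l 1)) = 0 := hf2 ⟨Pi.single l 1, rfl⟩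
      rw [hfx _ (fun j hj => by rw [hL, if_neg hj])] at h1
      unfold Dm
      rw [← h1]
      refine sum_congr rfl fun j _ => ?_
      by_cases hj : j ∈ t
      · rw [hL, if_pos hj, hN l j]
        congr 1
        rw [Finset.sum_eq_single l]
        · rw [Pi.single_eq_same, mul_one]
        · intro k _ hk
          rw [Pi.single_eq_of_ne hk, mul_zero]
        · intro h
          exact absurd hl h
      · simp only [hc, hj, if_false, mul_zero]
    have h2 := hr c hcK
    apply hf1
    rw [hfx r' (fun j hj => by simp only [hr', hj, if_false]), ← h2]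
    refine sum_congr rfl fun j _ => ?_
    by_cases hj : j ∈ t
    · simp only [hr', hj, if_true]
    · simp only [hc, hj, if_false, mul_zero]
  obtain ⟨z, hz⟩ := hmem
  refine ⟨fun j => if j ∈ t then z j else 0, fun j hj => by simp only [hj, if_false],
    fun j hj => ?_⟩
  have h1 := congrFun hz j
  rw [hL, if_pos hj] at h1
  simp only [hr', hj, if_true] at h1
  rw [← h1]
  unfold Dm
  rw [← Finset.sum_subset (Finset.subset_univ t)]
  · exact sum_congr rfl fun l hl => by simp only [hl, if_true]
  · intro l _ hl
    simp only [hl, if_false, mul_zero]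

/-- one more index, first case -/
theorem step_a {N : ι → ι → F} (hN : ∀ j l, N j l = N l j) {t : Finset ι} {i : ι} (hi : i ∉ t)
    (h : ∃ z ∈ K N t, Dm N i z ≠ 0) : nu N (insert i t) + 1 = nu N t := by
  obtain ⟨z, hz, hzi⟩ := h
  have hz' := mem_K.1 hz
  -- the last coordinate vanishes
  have h0 : ∀ x ∈ K N (insert i t), x i = 0 := by
    intro x hx
    rw [mem_K] at hx
    have h1 : ∑ j, z j * Dm N j x = 0 := sum_eq_zero fun j _ => by
      by_cases hj : j ∈ t
      · rw [hx.2 j (mem_insert_of_mem hj), mul_zero]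
      · rw [hz'.1 j hj, zero_mul]
    rw [pair hN, Finset.sum_eq_single i] at h1
    · exact (mul_eq_zero.1 h1).resolve_right hzi
    · intro j _ hj
      by_cases hjt : j ∈ t
      · rw [hz'.2 j hjt, mul_zero]
      · rw [hx.1 j (fun h => (mem_insert.1 h).elim hj hjt), zero_mul]
    · intro h
      exact absurd (Finset.mem_univ i) h
  let g : K N t →ₗ[F] F := (DL N i).comp (K N t).subtype
  have hg : Function.Surjective g := by
    apply LinearMap.surjective
    intro h
    apply hzi
    have := LinearMap.congr_fun h ⟨z, hz⟩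
    exact this
  have e1 : finrank F (LinearMap.ker g) + 1 = finrank F (K N t) := by
    have h1 := LinearMap.finrank_range_add_finrank_ker g
    rw [LinearMap.range_eq_top.2 hg, finrank_top, Module.finrank_self] at h1
    omega
  have e2 : finrank F (LinearMap.ker g) = finrank F (K N (insert i t)) := by
    refine LinearEquiv.finrank_eq ?_
    refine
      { toFun := fun x => ⟨x.1.1, ?_⟩
        invFun := fun x => ⟨⟨x.1, ?_⟩, ?_⟩
        left_inv := fun x => rfl
        right_inv := fun x => rfl
        map_add' := fun x y => rfl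
        map_smul' := fun c x => rfl }
    · have h1 := mem_K.1 x.1.2
      have h2 : Dm N i x.1.1 = 0 := x.2
      refine mem_K.2 ⟨fun j hj => h1.1 j fun h => hj (mem_insert_of_mem h), fun j hj => ?_⟩
      rcases mem_insert.1 hj with rfl | hj
      · exact h2
      · exact h1.2 j hj
    · have h1 := mem_K.1 x.2
      refine mem_K.2 ⟨fun j hj => ?_, fun j hj => h1.2 j (mem_insert_of_mem hj)⟩
      by_cases hji : j = i
      · subst hji
        exact h0 _ x.2
      · exact h1.1 j fun h => (mem_insert.1 h).elim hji hj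
    · exact (mem_K.1 x.2).2 i (mem_insert_self i t)
  unfold nu
  rw [← e2, e1]

/-- one more index, second case: the new row vanishes on the kernel -/
theorem vanish {N : ι → ι → F} (hN : ∀ j l, N j l = N l j) {t : Finset ι} {i : ι} (hi : i ∉ t)
    {v : ι → F} (hv0 : ∀ j, j ∉ t → j ≠ i → v j = 0) (hvi : v i = 1)
    (hv : ∀ j ∈ t, Dm N j v = 0) {z : ι → F} (hz : z ∈ K N t) : Dm N i z = 0 := by
  have hz' := mem_K.1 hz
  have h1 : ∑ j, z j * Dm N j v = 0 := sum_eq_zero fun j _ => by
    by_cases hj : j ∈ t
    · rw [hv j hj, mul_zero]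
    · rw [hz'.1 j hj, zero_mul]
  rw [pair hN, Finset.sum_eq_single i] at h1
  · rwa [hvi, one_mul] at h1
  · intro j _ hj
    by_cases hjt : j ∈ t
    · rw [hz'.2 j hjt, mul_zero]
    · rw [hv0 j hjt hj, zero_mul]
  · intro h
    exact absurd (Finset.mem_univ i) h

theorem step_b0 {N : ι → ι → F} (hN : ∀ j l, N j l = N l j) {t : Finset ι} {i : ι} (hi : i ∉ t)
    {v : ι → F} (hv0 : ∀ j, j ∉ t → j ≠ i → v j = 0) (hvi : v i = 1)
    (hv : ∀ j ∈ t, Dm N j v = 0) (h : Dm N i v ≠ 0) : nu N (insert i t) = nu N t := by
  have e : K N (insert i t) = K N t := by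
    ext x
    constructor
    · intro hx
      have hx' := mem_K.1 hx
      -- `x - x i • v` is in the kernel
      have h1 : x - x i • v ∈ K N t := by
        refine mem_K.2 ⟨fun j hj => ?_, fun j hj => ?_⟩
        · rw [Pi.sub_apply, Pi.smul_apply, smul_eq_mul]
          by_cases hji : j = i
          · subst hji
            rw [hvi, mul_one, sub_self]
          · rw [hx'.1 j (fun h => (mem_insert.1 h).elim hji hj), hv0 j hj hji, mul_zero, sub_zero]
        · rw [Dm_sub, Dm_smul, hx'.2 j (mem_insert_of_mem hj), hv j hj, mul_zero, sub_zero]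
      have h2 := vanish hN hi hv0 hvi hv h1
      rw [Dm_sub, Dm_smul, hx'.2 i (mem_insert_self i t), zero_sub, neg_eq_zero] at h2
      have h3 : x i = 0 := (mul_eq_zero.1 h2).resolve_right h
      rw [h3, zero_smul, sub_zero] at h1
      exact h1
    · intro hx
      have hx' := mem_K.1 hx
      refine mem_K.2 ⟨fun j hj => hx'.1 j fun h => hj (mem_insert_of_mem h), fun j hj => ?_⟩
      rcases mem_insert.1 hj with rfl | hj
      · exact vanish hN hi hv0 hvi hv hx
      · exact hx'.2 j hj
  unfold nu
  rw [e]

theorem step_b1 {N : ι → ι → F} (hN : ∀ j l, N j l = N l j) {t : Finset ι} {i : ι} (hi : i ∉ t)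
    {v : ι → F} (hv0 : ∀ j, j ∉ t → j ≠ i → v j = 0) (hvi : v i = 1)
    (hv : ∀ j ∈ t, Dm N j v = 0) (h : Dm N i v = 0) : nu N (insert i t) = nu N t + 1 := by
  have hvK : v ∈ K N (insert i t) := by
    refine mem_K.2 ⟨fun j hj => hv0 j (fun h => hj (mem_insert_of_mem h))
      fun h => hj (mem_insert.2 (Or.inl h)), fun j hj => ?_⟩
    rcases mem_insert.1 hj with rfl | hj
    · exact h
    · exact hv j hj
  let g : K N (insert i t) →ₗ[F] F := (LinearMap.proj i).comp (K N (insert i t)).subtype
  have hg : Function.Surjective g := by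
    apply LinearMap.surjective
    intro h
    have := LinearMap.congr_fun h ⟨v, hvK⟩
    change v i = 0 at this
    rw [hvi] at this
    exact one_ne_zero this
  have e1 : finrank F (LinearMap.ker g) + 1 = finrank F (K N (insert i t)) := by
    have h1 := LinearMap.finrank_range_add_finrank_ker g
    rw [LinearMap.range_eq_top.2 hg, finrank_top, Module.finrank_self] at h1
    omega
  have e2 : finrank F (LinearMap.ker g) = finrank F (K N t) := by
    refine LinearEquiv.finrank_eq ?_
    refine
      { toFun := fun x => ⟨x.1.1, ?_⟩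
        invFun := fun x => ⟨⟨x.1, ?_⟩, ?_⟩
        left_inv := fun x => rfl
        right_inv := fun x => rfl
        map_add' := fun x y => rfl
        map_smul' := fun c x => rfl }
    · have h1 := mem_K.1 x.1.2
      have h2 : x.1.1 i = 0 := x.2
      refine mem_K.2 ⟨fun j hj => ?_, fun j hj => h1.2 j (mem_insert_of_mem hj)⟩
      by_cases hji : j = i
      · subst hji
        exact h2
      · exact h1.1 j fun h => (mem_insert.1 h).elim hji hj
    · have h1 := mem_K.1 x.2
      refine mem_K.2 ⟨fun j hj => h1.1 j fun h => hj (mem_insert_of_mem h), fun j hj => ?_⟩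
      rcases mem_insert.1 hj with rfl | hj
      · exact vanish hN hi hv0 hvi hv x.2
      · exact h1.2 j hj
    · exact (mem_K.1 x.2).1 i hi
  unfold nu
  rw [← e1, e2]

end

end Run7.h238.X
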