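import Pool.Agent.Y703.XK.Stm
import Pool.Agent.Y528.XK.C9

/-!
# The probability that the nullity becomes zero
-/

set_option autoImplicit false
set_option linter.unusedVariables false

namespace Run7.h238.X

open Finset
open Pool.Agent.Y703.XK (c9)

/-- the product with `⌈j / 2⌉` factors -/
noncomputable def sj (j : ℕ) : ℝ := ∏ i ∈ range ((j + 1) / 2), (1 - (1 / 3 : ℝ) ^ (2 * i + 1))

/-- the probability: `n` steps, nullity `k` -/
noncomputable def fn (n k : ℕ) : ℝ := (∏ i ∈ range k, (1 - (1 / 3 : ℝ) ^ (n - i))) * sj (n - k)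

theorem fac_nonneg (n : ℕ) : 0 ≤ 1 - (1 / 3 : ℝ) ^ n := by
  have : (1 / 3 : ℝ) ^ n ≤ 1 := pow_le_one₀ (by norm_num) (by norm_num)
  linarith

theorem fac_le (n : ℕ) : 1 - (1 / 3 : ℝ) ^ n ≤ 1 := by
  have : (0 : ℝ) ≤ (1 / 3 : ℝ) ^ n := by positivity
  linarith

theorem sj_nonneg (j : ℕ) : 0 ≤ sj j := prod_nonneg fun i _ => fac_nonneg _

theorem sj_le (j : ℕ) : sj j ≤ 1 := prod_le_one (fun i _ => fac_nonneg _) fun i _ => fac_le _

theorem sj_c9 (j : ℕ) : |sj j - c9| ≤ (1 / 3 : ℝ) ^ j := by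
  refine (Pool.Agent.Y528.XK.t_C9.1 ((j + 1) / 2)).trans ?_
  have e : (1 / 9 : ℝ) ^ ((j + 1) / 2) = (1 / 3) ^ (2 * ((j + 1) / 2)) := by
    rw [pow_mul]
    norm_num
  rw [e]
  exact pow_le_pow_of_le_one (by norm_num) (by norm_num) (by omega)

/-- the recursion of the products -/
theorem sj_rec (j : ℕ) : sj (j + 1) = 2 / 3 * sj j + 1 / 3 * ((1 - (1 / 3) ^ j) * sj (j - 1)) := by
  obtain ⟨a, rfl | rfl⟩ : ∃ a, j = 2 * a ∨ j = 2 * a + 1 := ⟨j / 2, by omega⟩
  · unfold sj
    rw [show (2 * a + 1 + 1) / 2 = a + 1 by omega, show (2 * a + 1) / 2 = a by omega,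
      prod_range_succ]
    rcases Nat.eq_zero_or_pos a with rfl | ha
    · norm_num
    · rw [show (2 * a - 1 + 1) / 2 = a by omega, pow_succ]
      ring
  · unfold sj
    rw [show (2 * a + 1 + 1 + 1) / 2 = a + 1 by omega, show (2 * a + 1 + 1) / 2 = a + 1 by omega,
      show (2 * a + 1 - 1 + 1) / 2 = a by omega, prod_range_succ]
    ring

theorem fn_zero {n k : ℕ} (h : n < k) : fn n k = 0 := by
  unfold fn
  rw [prod_eq_zero (mem_range.2 h), zero_mul]
  rw [Nat.sub_self, pow_zero, sub_self]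

theorem fn_nonneg (n k : ℕ) : 0 ≤ fn n k :=
  mul_nonneg (prod_nonneg fun i _ => fac_nonneg _) (sj_nonneg _)

theorem fn_le (n k : ℕ) : fn n k ≤ 1 := by
  have h1 : ∏ i ∈ range k, (1 - (1 / 3 : ℝ) ^ (n - i)) ≤ 1 :=
    prod_le_one (fun i _ => fac_nonneg _) fun i _ => fac_le _
  calc fn n k ≤ 1 * 1 := mul_le_mul h1 (sj_le _) (sj_nonneg _) zero_le_one
    _ = 1 := one_mul _

theorem fn_zero_n (k : ℕ) : fn 0 k = if k = 0 then 1 else 0 := by
  split_ifs with h
  · subst h
    unfold fn sj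
    simp
  · exact fn_zero (Nat.pos_of_ne_zero h)

/-- **the recursion** -/
theorem fn_rec (n k : ℕ) : fn (n + 1) k = (1 - (1 / 3) ^ k) * fn n (k - 1) +
    (1 / 3) ^ k * (2 / 3 * fn n k + 1 / 3 * fn n (k + 1)) := by
  rcases Nat.lt_or_ge (n + 1) k with h | h
  · rw [fn_zero h, fn_zero (show n < k - 1 by omega), fn_zero (show n < k by omega),
      fn_zero (show n < k + 1 by omega)]
    ring
  rcases Nat.lt_or_ge n k with h' | h'
  · -- `k = n + 1`
    obtain rfl : k = n + 1 := by omega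
    rw [fn_zero h', fn_zero (show n < n + 1 + 1 by omega), Nat.add_sub_cancel]
    unfold fn
    rw [Nat.sub_self, Nat.sub_self, prod_range_succ']
    simp only [Nat.add_sub_add_right, Nat.sub_zero]
    ring
  · obtain ⟨j, rfl⟩ : ∃ j, n = k + j := ⟨n - k, by omega⟩
    have hs := sj_rec j
    rcases Nat.eq_zero_or_pos k with rfl | hk
    · -- `k = 0`
      unfold fn
      simp only [range_zero, prod_empty, one_mul, pow_zero, sub_self, zero_mul, zero_add,
        Nat.sub_zero, prod_range_one, prod_range_succ]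
      rw [hs]
    · obtain ⟨m, rfl⟩ : ∃ m, k = m + 1 := ⟨k - 1, by omega⟩
      have e1 : fn (m + 1 + j + 1) (m + 1) =
          (1 - (1 / 3) ^ (m + 1 + j + 1)) * (∏ i ∈ range m, (1 - (1 / 3 : ℝ) ^ (m + 1 + j - i))) *
            sj (j + 1) := by
        unfold fn
        rw [prod_range_succ', show m + 1 + j + 1 - (m + 1) = j + 1 by omega, Nat.sub_zero]
        have : ∀ i ∈ range m, (1 - (1 / 3 : ℝ) ^ (m + 1 + j + 1 - (i + 1))) =
            1 - (1 / 3 : ℝ) ^ (m + 1 + j - i) := by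
          intro i _
          rw [Nat.add_sub_add_right]
        rw [prod_congr rfl this]
        ring
      have e2 : fn (m + 1 + j) (m + 1 - 1) =
          (∏ i ∈ range m, (1 - (1 / 3 : ℝ) ^ (m + 1 + j - i))) * sj (j + 1) := by
        unfold fn
        rw [Nat.add_sub_cancel, show m + 1 + j - m = j + 1 by omega]
      have e3 : fn (m + 1 + j) (m + 1) =
          (∏ i ∈ range m, (1 - (1 / 3 : ℝ) ^ (m + 1 + j - i))) * (1 - (1 / 3) ^ (j + 1)) * sj j := by
        unfold fn
        rw [prod_range_succ, show m + 1 + j - m = j + 1 by omega,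
          show m + 1 + j - (m + 1) = j by omega]
      have e4 : fn (m + 1 + j) (m + 1 + 1) =
          (∏ i ∈ range m, (1 - (1 / 3 : ℝ) ^ (m + 1 + j - i))) * (1 - (1 / 3) ^ (j + 1)) *
            (1 - (1 / 3) ^ j) * sj (j - 1) := by
        unfold fn
        rw [prod_range_succ, prod_range_succ, show m + 1 + j - m = j + 1 by omega,
          show m + 1 + j - (m + 1) = j by omega, show m + 1 + j - (m + 1 + 1) = j - 1 by omega]
      rw [e1, e2, e3, e4]
      set P := ∏ i ∈ range m, (1 - (1 / 3 : ℝ) ^ (m + 1 + j - i)) with hP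
      have e5 : 2 / 3 * (P * (1 - (1 / 3) ^ (j + 1)) * sj j) +
          1 / 3 * (P * (1 - (1 / 3) ^ (j + 1)) * (1 - (1 / 3) ^ j) * sj (j - 1)) =
          P * (1 - (1 / 3) ^ (j + 1)) * sj (j + 1) := by
        rw [hs]
        ring
      rw [e5]
      have e6 : (1 / 3 : ℝ) ^ (m + 1 + j + 1) = (1 / 3) ^ (m + 1) * (1 / 3) ^ (j + 1) := by
        rw [← pow_add]
        congr 1
      rw [e6]
      ring

/-- the limit -/
theorem fn_c9 (n k : ℕ) : |fn n k - c9| ≤ 2 * (3 ^ k / 3 ^ n) := by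
  have hc := Pool.Agent.Y528.XK.t_C9
  rcases Nat.lt_or_ge n k with h | h
  · rw [fn_zero h, zero_sub, abs_neg, abs_of_pos hc.2.1]
    have h1 : (1 : ℝ) ≤ 3 ^ k / 3 ^ n := by
      rw [le_div_iff₀ (by positivity), one_mul]
      exact pow_le_pow_right₀ (by norm_num) h.le
    have h2 := hc.2.2.1
    linarith
  · obtain ⟨j, rfl⟩ : ∃ j, n = k + j := ⟨n - k, by omega⟩
    have e1 : (3 : ℝ) ^ k / 3 ^ (k + j) = (1 / 3) ^ j := by
      rw [pow_add, one_div, inv_pow]
      field_simp
    rw [e1]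
    have hP : ∀ l : ℕ, l ≤ k → 1 - ∑ i ∈ range l, (1 / 3 : ℝ) ^ (k + j - i) ≤
        ∏ i ∈ range l, (1 - (1 / 3 : ℝ) ^ (k + j - i)) := by
      intro l
      induction l with
      | zero => intro _; simp
      | succ l ih =>
        intro hl
        rw [sum_range_succ, prod_range_succ]
        have h1 := ih (by omega)
        have h2 := fac_nonneg (k + j - l)
        have h3 : ∏ i ∈ range l, (1 - (1 / 3 : ℝ) ^ (k + j - i)) ≤ 1 :=
          prod_le_one (fun i _ => fac_nonneg _) fun i _ => fac_le _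
        have h4 : (0 : ℝ) ≤ (1 / 3 : ℝ) ^ (k + j - l) := by positivity
        nlinarith
    have hS : ∀ l : ℕ, l ≤ k → ∑ i ∈ range l, (1 / 3 : ℝ) ^ (k + j - i) ≤
        1 / 2 * (1 / 3) ^ (k + j - l) := by
      intro l
      induction l with
      | zero => intro _; rw [sum_range_zero]; positivity
      | succ l ih =>
        intro hl
        rw [sum_range_succ]
        have h1 := ih (by omega)
        have h2 : (1 / 3 : ℝ) ^ (k + j - l) = 1 / 3 * (1 / 3) ^ (k + j - (l + 1)) := by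
          rw [← pow_succ']
          congr 1
          omega
        rw [h2] at h1 ⊢
        have h3 : (0 : ℝ) ≤ (1 / 3) ^ (k + j - (l + 1)) := by positivity
        linarith
    have h1 := hP k le_rfl
    have h2 := hS k le_rfl
    have h3 : ∏ i ∈ range k, (1 - (1 / 3 : ℝ) ^ (k + j - i)) ≤ 1 :=
      prod_le_one (fun i _ => fac_nonneg _) fun i _ => fac_le _
    rw [Nat.add_sub_cancel_left] at h2
    have h4 := sj_c9 j
    unfold fn
    rw [Nat.add_sub_cancel_left]
    set P := ∏ i ∈ range k, (1 - (1 / 3 : ℝ) ^ (k + j - i)) with hPd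
    have h5 : P * sj j - c9 = (sj j - c9) - (1 - P) * sj j := by ring
    have h6 := sj_nonneg j
    have h7 := sj_le j
    have h8 : |(1 - P) * sj j| ≤ 1 / 2 * (1 / 3) ^ j := by
      rw [abs_of_nonneg (mul_nonneg (by linarith) h6)]
      calc (1 - P) * sj j ≤ (1 - P) * 1 := mul_le_mul_of_nonneg_left h7 (by linarith)
        _ ≤ _ := by linarith
    rw [h5]
    refine (abs_sub _ _).trans ?_
    have h9 : (0 : ℝ) ≤ (1 / 3) ^ j := by positivity
    linarith

end Run7.h238.X
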