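import Pool.Agent.Run7.h238.X.Avg
import Pool.Agent.Run7.h238.X.Fn

/-!
# The chain of the random columns
-/

set_option autoImplicit false
set_option linter.unusedSectionVars false
set_option linter.unusedVariables false

open scoped Classical

namespace Run7.h238.X

open Finset Module
open Pool.Agent.Y703.XK (c9)

section
variable {X Y W : Type} [Fintype X] [Fintype Y] [Fintype W]

/-- a double sum over the functions and the new values -/
theorem sum_update (x : X) (G : (X → Y → F3) → ℝ) :
    ∑ b : X → Y → F3, ∑ c : Y → F3, G (Function.update b x c) =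
      3 ^ Fintype.card Y * ∑ b : X → Y → F3, G b := by
  have e1 : ∑ b : X → Y → F3, ∑ c : Y → F3, G (Function.update b x c) =
      ∑ p : (X → Y → F3) × (Y → F3), G (Function.update p.1 x p.2) := by
    rw [Fintype.sum_prod_type]
  have e2 : ∑ p : (X → Y → F3) × (Y → F3), G (Function.update p.1 x p.2) =
      ∑ p : (X → Y → F3) × (Y → F3), G p.1 := by
    let σ : Equiv.Perm ((X → Y → F3) × (Y → F3)) :=
      { toFun := fun p => (Function.update p.1 x p.2, p.1 x)
        invFun := fun p => (Function.update p.1 x p.2, p.1 x)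
        left_inv := by
          rintro ⟨b, c⟩
          simp
        right_inv := by
          rintro ⟨b, c⟩
          simp }
    exact Equiv.sum_comp σ (fun p => G p.1)
  have e3 : ∑ p : (X → Y → F3) × (Y → F3), G p.1 = 3 ^ Fintype.card Y * ∑ b : X → Y → F3, G b := by
    rw [Fintype.sum_prod_type]
    simp only [sum_const, card_univ, nsmul_eq_mul, Fintype.card_fun, ZMod.card]
    rw [mul_sum]
    push_cast
    rfl
  rw [e1, e2, e3]

/-- the processed columns -/
def tz (s : Finset X) : Finset (X ⊕ W) := s.disjSum univ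

theorem inl_tz {s : Finset X} {x : X} : (Sum.inl x : X ⊕ W) ∈ (tz s : Finset (X ⊕ W)) ↔ x ∈ s := by
  unfold tz
  rw [inl_mem_disjSum]

theorem inr_tz {s : Finset X} (w : W) : (Sum.inr w : X ⊕ W) ∈ (tz s : Finset (X ⊕ W)) := by
  unfold tz
  rw [inr_mem_disjSum]
  exact mem_univ _

theorem tz_insert [inst : DecidableEq (X ⊕ W)] (s : Finset X) (x : X) :
    (tz (insert x s) : Finset (X ⊕ W)) = insert (Sum.inl x) (tz s) := by
  ext j
  rcases j with y | z
  · rw [mem_insert, inl_tz, inl_tz, mem_insert, Sum.inl.injEq]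
  · rw [mem_insert]
    exact ⟨fun _ => Or.inr (inr_tz z), fun _ => inr_tz z⟩

/-- the data of the chain -/
structure Ch (a : Y → Y → F3) (bW : W → Y → F3) (d : X ⊕ W → X ⊕ W → F3) (s₀ : Finset X) :
    Prop where
  ha : ∀ y y', y ≠ y' → a y y' = 0
  hd : ∀ z z', d z z' = d z' z
  hX : ∀ x x', x ≠ x' → d (Sum.inl x) (Sum.inl x') = 0
  nd : ∀ z : W → F3, (∀ y, ∑ w, bW w y * z w = 0) →
    (∀ x ∈ s₀, ∑ w, d (Sum.inl x) (Sum.inr w) * z w = 0) → z = 0

variable {a : Y → Y → F3} {bW : W → Y → F3} {d : X ⊕ W → X ⊕ W → F3} {s₀ : Finset X}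

/-- the matrix -/
noncomputable def Mx (a : Y → Y → F3) (bW : W → Y → F3) (d : X ⊕ W → X ⊕ W → F3)
    (b : X → Y → F3) : (Y ⊕ (X ⊕ W)) → (Y ⊕ (X ⊕ W)) → F3 :=
  blk a (Sum.elim b bW) d

theorem Mx_update (b : X → Y → F3) (x : X) (c : Y → F3) :
    Mx a bW d (Function.update b x c) = Nc a (Sum.elim b bW) d (Sum.inl x) c := by
  unfold Mx Nc
  congr 1
  funext z
  rcases z with z | z
  · by_cases h : z = x
    · subst h
      simp
    · have h' : (Sum.inl z : X ⊕ W) ≠ Sum.inl x := fun h' => h (Sum.inl_injective h')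
      unfold Function.update
      rw [dif_neg h']
      simp [h]
  · have h' : (Sum.inr z : X ⊕ W) ≠ Sum.inl x := fun h' => Sum.inr_ne_inl h'
    unfold Function.update
    rw [dif_neg h']
    rfl

theorem a_symm (C : Ch a bW d s₀) (y y' : Y) : a y y' = a y' y := by
  by_cases h : y = y'
  · rw [h]
  · rw [C.ha y y' h, C.ha y' y (Ne.symm h)]

/-- the number of the vanishing diagonal entries of the columns -/
noncomputable def n0 (W : Type) [Fintype W] (d : X ⊕ W → X ⊕ W → F3) : ℕ :=
  Fintype.card W + (univ.filter fun x : X => d (Sum.inl x) (Sum.inl x) = 0).card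

/-- a row of the part `X` -/
theorem Dm_X (C : Ch a bW d s₀) (x : X) (z : X ⊕ W → F3) :
    Dm d (Sum.inl x) z = d (Sum.inl x) (Sum.inl x) * z (Sum.inl x) +
      ∑ w, d (Sum.inl x) (Sum.inr w) * z (Sum.inr w) := by
  unfold Dm
  rw [Fintype.sum_sum_type]
  congr 1
  rw [Finset.sum_eq_single x]
  · intro x' _ hx'
    rw [C.hX x x' (Ne.symm hx'), zero_mul]
  · intro h
    exact absurd (mem_univ _) h

theorem nu_d_le (C : Ch a bW d s₀) (s : Finset X) : nu d (tz s) ≤ n0 W d := by
  -- the map onto the coordinates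
  let I := W ⊕ {x : X // d (Sum.inl x) (Sum.inl x) = 0}
  let g : K d (tz s) →ₗ[F3] (I → F3) :=
    { toFun := fun z => Sum.elim (fun w => z.1 (Sum.inr w)) fun x => z.1 (Sum.inl x.1)
      map_add' := fun z z' => by
        funext i
        rcases i with i | i <;> rfl
      map_smul' := fun c z => by
        funext i
        rcases i with i | i <;> rfl }
  have hg : Function.Injective g := by
    rw [← LinearMap.ker_eq_bot, LinearMap.ker_eq_bot']
    rintro ⟨z, hz⟩ h0
    have hz' := mem_K.1 hz
    have hW : ∀ w, z (Sum.inr w) = 0 := fun w => congrFun h0 (Sum.inl w)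
    have hX : ∀ x, d (Sum.inl x) (Sum.inl x) = 0 → z (Sum.inl x) = 0 := fun x hx =>
      congrFun h0 (Sum.inr ⟨x, hx⟩)
    apply Subtype.ext
    funext j
    rcases j with x | w
    · by_cases hx : d (Sum.inl x) (Sum.inl x) = 0
      · exact hX x hx
      · by_cases hxs : x ∈ s
        · have h1 := hz'.2 (Sum.inl x) (inl_tz.2 hxs)
          rw [Dm_X C, sum_eq_zero fun w _ => by rw [hW, mul_zero], add_zero] at h1
          exact (mul_eq_zero.1 h1).resolve_left hx
        · exact hz'.1 _ fun h => hxs (inl_tz.1 h)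
    · exact hW w
  have h1 := LinearMap.finrank_le_finrank_of_injective hg
  rw [Module.finrank_fintype_fun_eq_card] at h1
  refine h1.trans (le_of_eq ?_)
  unfold n0
  rw [Fintype.card_sum, Fintype.card_subtype]

/-- the vectors on `Z` -/
theorem nu_t0 (C : Ch a bW d s₀) (b : X → Y → F3) (s : Finset X) :
    nu (Mx a bW d b) (t0 (tz s)) = nu d (tz s) := by
  refine LinearEquiv.finrank_eq ?_
  have hrow : ∀ (z : X ⊕ W) (v : X ⊕ W → F3) , Dm (Mx a bW d b) (Sum.inr z)
      (Sum.elim (fun _ => 0) v) = Dm d z v := by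
    intro z v
    unfold Mx
    rw [Dm_inr]
    simp only [Sum.elim_inl, mul_zero, sum_const_zero, zero_add, Sum.elim_inr]
    rfl
  have hv : ∀ v ∈ K (Mx a bW d b) (t0 (tz s)), v = Sum.elim (fun _ => 0) fun z => v (Sum.inr z) := by
    intro v hv
    funext j
    rcases j with y | z
    · exact (mem_K.1 hv).1 _ (inl_t0 y)
    · rfl
  exact
    { toFun := fun v => ⟨fun z => v.1 (Sum.inr z), mem_K.2 ⟨fun z hz =>
        (mem_K.1 v.2).1 _ fun h => hz (inr_t0.1 h), fun z hz => by
          rw [← hrow z, ← hv v.1 v.2]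
          exact (mem_K.1 v.2).2 _ (inr_t0.2 hz)⟩⟩
      invFun := fun v => ⟨Sum.elim (fun _ => 0) v.1, mem_K.2 ⟨fun j hj => by
        rcases j with y | z
        · rfl
        · exact (mem_K.1 v.2).1 _ fun h => hj (inr_t0.2 h), fun j hj => by
        rcases j with y | z
        · exact absurd hj (inl_t0 y)
        · rw [hrow]
          exact (mem_K.1 v.2).2 _ (inr_t0.1 hj)⟩⟩
      left_inv := fun v => Subtype.ext (hv v.1 v.2).symm
      right_inv := fun v => rfl
      map_add' := fun v v' => rfl
      map_smul' := fun c v => rfl }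

/-- the bad matrices -/
def Bd (a : Y → Y → F3) (bW : W → Y → F3) (d : X ⊕ W → X ⊕ W → F3) (s : Finset X)
    (b : X → Y → F3) : Prop :=
  ∃ w ∈ K (Mx a bW d b) (tt (tz s)), (∀ y, w (Sum.inl y) = 0) ∧ w ≠ 0

/-- the number of the matrices with a given relation -/
theorem rel_count (z : X → F3) (u : Y → F3) (hz : z ≠ 0) :
    (univ.filter fun b : X → Y → F3 => ∀ y, ∑ x, b x y * z x + u y = 0).card *
      3 ^ Fintype.card Y ≤ 3 ^ (Fintype.card X * Fintype.card Y) := by
  obtain ⟨x₀, hx₀⟩ := Function.ne_iff.1 hz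
  have h1 : (univ.filter fun b : X → Y → F3 => ∀ y, ∑ x, b x y * z x + u y = 0).card *
      3 ^ Fintype.card Y =
      ((univ.filter fun b : X → Y → F3 => ∀ y, ∑ x, b x y * z x + u y = 0) ×ˢ
        (univ : Finset (Y → F3))).card := by
    rw [card_product, card_univ, Fintype.card_fun, ZMod.card]
  have h2 : Fintype.card (X → Y → F3) = 3 ^ (Fintype.card X * Fintype.card Y) := by
    rw [Fintype.card_fun, Fintype.card_fun, ZMod.card, ← pow_mul, mul_comm]
  rw [h1, ← h2, ← card_univ]
  apply card_le_card_of_injOn (fun p => Function.update p.1 x₀ p.2) (fun _ _ => mem_univ _)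
  rintro ⟨b, c⟩ hb ⟨b', c'⟩ hb' e
  rw [mem_coe, mem_product, mem_filter] at hb hb'
  simp only at e hb hb'
  have hc : c = c' := by
    have := congrFun e x₀
    rwa [Function.update_self, Function.update_self] at this
  have hne : ∀ x, x ≠ x₀ → b x = b' x := by
    intro x hx
    have := congrFun e x
    rwa [Function.update_of_ne hx, Function.update_of_ne hx] at this
  have h0 : b x₀ = b' x₀ := by
    funext y
    have k1 := hb.1.2 y
    have k2 := hb'.1.2 y
    rw [← Finset.add_sum_erase _ _ (mem_univ x₀)] at k1 k2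
    have k3 : ∑ x ∈ univ.erase x₀, b x y * z x = ∑ x ∈ univ.erase x₀, b' x y * z x :=
      sum_congr rfl fun x hx => by rw [hne x (ne_of_mem_erase hx)]
    rw [k3] at k1
    have k4 : b x₀ y * z x₀ = b' x₀ y * z x₀ := by linear_combination k1 - k2
    exact mul_right_cancel₀ hx₀ k4
  refine Prod.ext ?_ hc
  funext x
  by_cases hx : x = x₀
  · rw [hx]; exact h0
  · exact hne x hx

/-- the number of the bad matrices -/
theorem bad_count (C : Ch a bW d s₀) {s : Finset X} (hs : s₀ ⊆ s) :
    ((univ.filter fun b : X → Y → F3 => Bd a bW d s b).card : ℝ) * 3 ^ Fintype.card Y ≤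
      3 ^ n0 W d * 3 ^ (Fintype.card X * Fintype.card Y) := by
  set Q : Finset (X ⊕ W → F3) := univ.filter fun z => z ∈ K d (tz s) ∧
    (fun x => z (Sum.inl x)) ≠ 0 with hQ
  have h1 : (univ.filter fun b : X → Y → F3 => Bd a bW d s b) ⊆
      Q.biUnion fun z => univ.filter fun b : X → Y → F3 =>
        ∀ y, ∑ x, b x y * z (Sum.inl x) + ∑ w, bW w y * z (Sum.inr w) = 0 := by
    intro b hb
    rw [mem_filter] at hb
    obtain ⟨v, hv, hv0, hvn⟩ := hb.2
    have hv' := mem_K.1 hv
    have e0 : ∀ y, ∑ x, b x y * v (Sum.inr (Sum.inl x)) +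
        ∑ w, bW w y * v (Sum.inr (Sum.inr w)) = 0 := by
      intro y
      have h2 := hv'.2 (Sum.inl y) (inl_tt y)
      unfold Mx at h2
      rw [Dm_inl, Fintype.sum_sum_type] at h2
      simp only [hv0, mul_zero, sum_const_zero, zero_add, Sum.elim_inl, Sum.elim_inr] at h2
      exact h2
    have e1 : ∀ z ∈ (tz s : Finset (X ⊕ W)), Dm d z (fun z => v (Sum.inr z)) = 0 := by
      intro z hz
      have h2 := hv'.2 (Sum.inr z) (inr_tt.2 hz)
      unfold Mx at h2
      rw [Dm_inr] at h2
      simp only [hv0, mul_zero, sum_const_zero, zero_add] at h2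
      exact h2
    rw [mem_biUnion]
    refine ⟨fun z => v (Sum.inr z), ?_, ?_⟩
    · rw [hQ, mem_filter]
      refine ⟨mem_univ _, mem_K.2 ⟨fun z hz => hv'.1 _ fun h => hz (inr_tt.1 h), e1⟩, ?_⟩
      intro hX
      have hX' : ∀ x, v (Sum.inr (Sum.inl x)) = 0 := fun x => congrFun hX x
      have hW : (fun w => v (Sum.inr (Sum.inr w))) = 0 := by
        apply C.nd
        · intro y
          have h2 := e0 y
          rw [sum_eq_zero fun x _ => by rw [hX', mul_zero], zero_add] at h2
          exact h2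
        · intro x hx
          have h2 := e1 (Sum.inl x) (inl_tz.2 (hs hx))
          rw [Dm_X C] at h2
          simp only [hX', mul_zero, zero_add] at h2
          exact h2
      apply hvn
      funext j
      rcases j with y | x | w
      · exact hv0 y
      · exact hX' x
      · exact congrFun hW w
    · rw [mem_filter]
      exact ⟨mem_univ _, e0⟩
  have hQc : (Q.card : ℝ) ≤ 3 ^ n0 W d := by
    have h2 : Q.card ≤ (univ.filter fun z : X ⊕ W → F3 => z ∈ K d (tz s)).card := by
      apply card_le_card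
      intro z hz
      rw [hQ, mem_filter] at hz
      rw [mem_filter]
      exact ⟨mem_univ _, hz.2.1⟩
    have h3 : (univ.filter fun z : X ⊕ W → F3 => z ∈ K d (tz s)).card = 3 ^ nu d (tz s) := by
      rw [← Fintype.card_subtype, ← Nat.card_eq_fintype_card]
      show Nat.card (K d (tz s)) = _
      rw [Module.natCard_eq_pow_finrank (K := F3), Nat.card_zmod]
      rfl
    have h4 : Q.card ≤ 3 ^ n0 W d := by
      rw [h3] at h2
      exact h2.trans (Nat.pow_le_pow_right (by norm_num) (nu_d_le C s))
    exact_mod_cast h4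
  have h2 : ((univ.filter fun b : X → Y → F3 => Bd a bW d s b).card : ℝ) ≤
      ∑ z ∈ Q, ((univ.filter fun b : X → Y → F3 =>
        ∀ y, ∑ x, b x y * z (Sum.inl x) + ∑ w, bW w y * z (Sum.inr w) = 0).card : ℝ) := by
    have := (card_le_card h1).trans card_biUnion_le
    exact_mod_cast this
  have h3 := mul_le_mul_of_nonneg_right h2 (show (0 : ℝ) ≤ 3 ^ Fintype.card Y by positivity)
  refine h3.trans ?_
  rw [sum_mul]
  have h4 : ∀ z ∈ Q, ((univ.filter fun b : X → Y → F3 =>
        ∀ y, ∑ x, b x y * z (Sum.inl x) + ∑ w, bW w y * z (Sum.inr w) = 0).card : ℝ) *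
        3 ^ Fintype.card Y ≤ 3 ^ (Fintype.card X * Fintype.card Y) := by
    intro z hz
    rw [hQ, mem_filter] at hz
    exact_mod_cast rel_count (fun x => z (Sum.inl x)) (fun y => ∑ w, bW w y * z (Sum.inr w))
      hz.2.2
  refine (sum_le_sum h4).trans ?_
  rw [sum_const, nsmul_eq_mul]
  exact mul_le_mul_of_nonneg_right hQc (by positivity)

/-- the nullity after the columns in `s` -/
noncomputable def NU (a : Y → Y → F3) (bW : W → Y → F3) (d : X ⊕ W → X ⊕ W → F3) (b : X → Y → F3)
    (s : Finset X) : ℕ := nu (Mx a bW d b) (tt (tz s))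

/-- the error of one step -/
noncomputable def er (X Y W : Type) [Fintype X] [Fintype Y] [Fintype W]
    (d : X ⊕ W → X ⊕ W → F3) : ℝ :=
  Real.sqrt (3 ^ n0 W d / 3 ^ Fintype.card Y) + 3 ^ n0 W d / 3 ^ Fintype.card Y

theorem er_nonneg : 0 ≤ er X Y W d := by
  unfold er
  positivity

/-- one step -/
theorem step (C : Ch a bW d s₀) {s : Finset X} (hs : s₀ ⊆ s) {x : X} (hx : x ∉ s) (n : ℕ) :
    |∑ b : X → Y → F3, fn (n + 1) (NU a bW d b s) -
      ∑ b : X → Y → F3, fn n (NU a bW d b (insert x s))| ≤
    er X Y W d * 3 ^ (Fintype.card X * Fintype.card Y) := by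
  set M : ℝ := 3 ^ Fintype.card Y with hM
  have hM0 : 0 < M := by positivity
  have e1 : M * ∑ b : X → Y → F3, fn n (NU a bW d b (insert x s)) =
      ∑ b : X → Y → F3, ∑ c : Y → F3, fn n (NU a bW d (Function.update b x c) (insert x s)) :=
    (sum_update x fun b => fn n (NU a bW d b (insert x s))).symm
  have hxt : (Sum.inl x : X ⊕ W) ∉ (tz s : Finset (X ⊕ W)) := fun h => hx (inl_tz.1 h)
  have h1 : ∀ b : X → Y → F3, |M * fn (n + 1) (NU a bW d b s) -
      ∑ c : Y → F3, fn n (NU a bW d (Function.update b x c) (insert x s))| ≤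
      Real.sqrt (3 ^ n0 W d * M) + (if Bd a bW d s b then M else 0) := by
    intro b
    have e2 : ∀ c : Y → F3, NU a bW d (Function.update b x c) (insert x s) =
        nu (Nc a (Sum.elim b bW) d (Sum.inl x) c)
          (tt (@insert _ _ (@Finset.instInsert _ fun a b => Classical.propDecidable (a = b))
            (Sum.inl x) (tz s))) := by
      intro c
      unfold NU
      rw [Mx_update, tz_insert (inst := fun a b => Classical.propDecidable (a = b))]
    simp only [e2]
    split_ifs with hb
    · -- a bad matrix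
      have hG : ∀ G : (Y → F3) → ℕ, |M * fn (n + 1) (NU a bW d b s) - ∑ c : Y → F3,
          fn n (G c)| ≤ M := by
        intro G
        have h3 : 0 ≤ ∑ c : Y → F3, fn n (G c) := sum_nonneg fun c _ => fn_nonneg _ _
        have h4 : ∑ c : Y → F3, fn n (G c) ≤ M := by
          refine (sum_le_sum fun c _ => fn_le n _).trans (le_of_eq ?_)
          rw [sum_const, card_univ, Fintype.card_fun, ZMod.card, nsmul_eq_mul, mul_one, hM]
          push_cast
          rfl
        have h5 := fn_nonneg (n + 1) (NU a bW d b s)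
        have h6 := fn_le (n + 1) (NU a bW d b s)
        rw [abs_le]
        constructor <;> nlinarith
      have h3 := Real.sqrt_nonneg (3 ^ n0 W d * M)
      exact (hG _).trans (by linarith)
    · rw [add_zero]
      have S : Stp a (Sum.elim b bW) d (tz s) (Sum.inl x) :=
        { ha := a_symm C
          hd := C.hd
          hi := hxt
          inj := by
            intro w hw hw0
            by_contra hne
            exact hb ⟨w, hw, hw0, hne⟩ }
      have h2 := avg S (fn n) fun k => ⟨fn_nonneg n k, fn_le n k⟩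
      rw [← fn_rec, abs_sub_comm] at h2
      refine h2.trans (Real.sqrt_le_sqrt ?_)
      refine mul_le_mul_of_nonneg_right ?_ hM0.le
      refine pow_le_pow_right₀ (by norm_num) ?_
      have h3 := nu_t0 C b s
      unfold Mx at h3
      rw [h3]
      exact nu_d_le C s
  have h2 : M * |∑ b : X → Y → F3, fn (n + 1) (NU a bW d b s) -
      ∑ b : X → Y → F3, fn n (NU a bW d b (insert x s))| ≤
      ∑ b : X → Y → F3, (Real.sqrt (3 ^ n0 W d * M) + (if Bd a bW d s b then M else 0)) := by
    rw [← abs_of_pos hM0, ← abs_mul, mul_sub, e1, mul_sum, ← sum_sub_distrib, abs_of_pos hM0]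
    exact (abs_sum_le_sum_abs _ _).trans (sum_le_sum fun b _ => h1 b)
  rw [sum_add_distrib, sum_const, card_univ, ← sum_filter, sum_const, nsmul_eq_mul,
    nsmul_eq_mul] at h2
  have h3 : (Fintype.card (X → Y → F3) : ℝ) = 3 ^ (Fintype.card X * Fintype.card Y) := by
    rw [Fintype.card_fun, Fintype.card_fun, ZMod.card, ← pow_mul, mul_comm]
    push_cast
    rfl
  have h4 := bad_count C hs (Y := Y)
  rw [← hM] at h4
  rw [h3] at h2
  have h5 : Real.sqrt (3 ^ n0 W d * M) = M * Real.sqrt (3 ^ n0 W d / M) := by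
    have : (3 : ℝ) ^ n0 W d * M = M ^ 2 * (3 ^ n0 W d / M) := by field_simp
    rw [this, Real.sqrt_mul (by positivity), Real.sqrt_sq hM0.le]
  rw [h5] at h2
  have h6 : M * |∑ b : X → Y → F3, fn (n + 1) (NU a bW d b s) -
      ∑ b : X → Y → F3, fn n (NU a bW d b (insert x s))| ≤
      M * (er X Y W d * 3 ^ (Fintype.card X * Fintype.card Y)) := by
    refine h2.trans ?_
    unfold er
    rw [← hM]
    have h7 : M * ((Real.sqrt (3 ^ n0 W d / M) + 3 ^ n0 W d / M) *
        3 ^ (Fintype.card X * Fintype.card Y)) =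
        3 ^ (Fintype.card X * Fintype.card Y) * (M * Real.sqrt (3 ^ n0 W d / M)) +
        3 ^ n0 W d * 3 ^ (Fintype.card X * Fintype.card Y) := by
      field_simp
    rw [h7]
    exact add_le_add le_rfl h4
  exact le_of_mul_le_mul_left h6 hM0

/-- the chain -/
theorem chain0 (C : Ch a bW d s₀) : ∀ (n : ℕ) (s : Finset X), s₀ ⊆ s →
    s.card + n = Fintype.card X →
    |∑ b : X → Y → F3, fn n (NU a bW d b s) -
      ∑ b : X → Y → F3, fn 0 (NU a bW d b univ)| ≤
    n * (er X Y W d * 3 ^ (Fintype.card X * Fintype.card Y)) := by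
  intro n
  induction n with
  | zero =>
    intro s _ hs
    have : s = univ := by
      rw [← Finset.card_eq_iff_eq_univ]
      omega
    subst this
    simp
  | succ n ih =>
    intro s hs hsn
    obtain ⟨x, hx⟩ : ∃ x, x ∉ s := by
      by_contra h
      push Not at h
      have : s = univ := by
        ext x
        exact ⟨fun _ => mem_univ _, fun _ => h x⟩
      rw [this, card_univ] at hsn
      omega
    have h1 := step C hs hx n
    have h2 := ih (insert x s) (hs.trans (subset_insert _ _)) (by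
      rw [card_insert_of_notMem hx]
      omega)
    have h3 := abs_sub_le (∑ b : X → Y → F3, fn (n + 1) (NU a bW d b s))
      (∑ b : X → Y → F3, fn n (NU a bW d b (insert x s)))
      (∑ b : X → Y → F3, fn 0 (NU a bW d b univ))
    push_cast
    rw [add_mul, one_mul]
    linarith

/-- the nullity at the beginning -/
theorem NU_le (C : Ch a bW d s₀) (b : X → Y → F3) (s : Finset X) :
    NU a bW d b s ≤ (univ.filter fun y : Y => a y y = 0).card + s.card + Fintype.card W := by
  let I := {y : Y // a y y = 0} ⊕ (s ⊕ W)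
  let g : K (Mx a bW d b) (tt (tz s)) →ₗ[F3] (I → F3) :=
    { toFun := fun z => Sum.elim (fun y => z.1 (Sum.inl y.1))
        (Sum.elim (fun x => z.1 (Sum.inr (Sum.inl x.1))) fun w => z.1 (Sum.inr (Sum.inr w)))
      map_add' := fun z z' => by
        funext i
        rcases i with i | i | i <;> rfl
      map_smul' := fun c z => by
        funext i
        rcases i with i | i | i <;> rfl }
  have hg : Function.Injective g := by
    rw [← LinearMap.ker_eq_bot, LinearMap.ker_eq_bot']
    rintro ⟨z, hz⟩ h0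
    have hz' := mem_K.1 hz
    have hW : ∀ w, z (Sum.inr (Sum.inr w)) = 0 := fun w => congrFun h0 (Sum.inr (Sum.inr w))
    have hX : ∀ x, z (Sum.inr (Sum.inl x)) = 0 := by
      intro x
      by_cases hx : x ∈ s
      · exact congrFun h0 (Sum.inr (Sum.inl ⟨x, hx⟩))
      · exact hz'.1 _ fun h => hx (inl_tz.1 (inr_tt.1 h))
    have hY : ∀ y, a y y = 0 → z (Sum.inl y) = 0 := fun y hy =>
      congrFun h0 (Sum.inl ⟨y, hy⟩)
    apply Subtype.ext
    funext j
    rcases j with y | x | w
    · by_cases hy : a y y = 0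
      · exact hY y hy
      · have h1 := hz'.2 (Sum.inl y) (inl_tt y)
        unfold Mx at h1
        rw [Dm_inl, Fintype.sum_sum_type] at h1
        simp only [hW, hX, mul_zero, sum_const_zero, add_zero] at h1
        rw [Finset.sum_eq_single y] at h1
        · exact (mul_eq_zero.1 h1).resolve_left hy
        · intro y' _ hy'
          rw [C.ha y y' (Ne.symm hy'), zero_mul]
        · intro h
          exact absurd (mem_univ _) h
    · exact hX x
    · exact hW w
  have h1 := LinearMap.finrank_le_finrank_of_injective hg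
  rw [Module.finrank_fintype_fun_eq_card] at h1
  refine h1.trans (le_of_eq ?_)
  rw [Fintype.card_sum, Fintype.card_sum, Fintype.card_subtype, Fintype.card_coe, add_assoc]

theorem tt_univ : (tt (tz (univ : Finset X) : Finset (X ⊕ W)) : Finset (Y ⊕ (X ⊕ W))) = univ := by
  ext j
  rcases j with y | x | w
  · exact ⟨fun _ => mem_univ _, fun _ => inl_tt y⟩
  · exact ⟨fun _ => mem_univ _, fun _ => inr_tt.2 (inl_tz.2 (mem_univ x))⟩
  · exact ⟨fun _ => mem_univ _, fun _ => inr_tt.2 (inr_tz w)⟩

/-- the nonsingular matrices -/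
def Nsg (N : (Y ⊕ (X ⊕ W)) → (Y ⊕ (X ⊕ W)) → F3) : Prop := ∀ w, (∀ j, Dm N j w = 0) → w = 0

theorem Nsg_iff (b : X → Y → F3) : Nsg (Mx a bW d b) ↔ NU a bW d b univ = 0 := by
  unfold NU nu
  rw [tt_univ]
  constructor
  · intro h
    have : K (Mx a bW d b) univ = ⊥ := by
      rw [eq_bot_iff]
      intro w hw
      exact h w fun j => (mem_K.1 hw).2 j (mem_univ _)
    rw [this, finrank_bot]
  · intro h w hw
    have h1 := Submodule.finrank_eq_zero.1 h
    have h2 : w ∈ K (Mx a bW d b) univ := mem_K.2 ⟨fun j hj => absurd (mem_univ _) hj,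
      fun j _ => hw j⟩
    rw [h1] at h2
    exact (Submodule.mem_bot F3).1 h2

/-- **the proportion of the nonsingular matrices** -/
theorem chain (C : Ch a bW d s₀) :
    |((univ.filter fun b : X → Y → F3 => Nsg (Mx a bW d b)).card : ℝ) -
      c9 * 3 ^ (Fintype.card X * Fintype.card Y)| ≤
    (Fintype.card X * er X Y W d +
      2 * (3 ^ ((univ.filter fun y : Y => a y y = 0).card + s₀.card + Fintype.card W) /
        3 ^ (Fintype.card X - s₀.card))) * 3 ^ (Fintype.card X * Fintype.card Y) := by
  set T : ℝ := 3 ^ (Fintype.card X * Fintype.card Y) with hT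
  have hT0 : 0 < T := by positivity
  have hcardT : (Fintype.card (X → Y → F3) : ℝ) = T := by
    rw [Fintype.card_fun, Fintype.card_fun, ZMod.card, ← pow_mul, mul_comm, hT]
    push_cast
    rfl
  have hs0 : s₀.card ≤ Fintype.card X := card_le_univ _
  have h1 := chain0 C (Y := Y) (Fintype.card X - s₀.card) s₀ subset_rfl (by omega)
  have e1 : ∑ b : X → Y → F3, fn 0 (NU a bW d b univ) =
      ((univ.filter fun b : X → Y → F3 => Nsg (Mx a bW d b)).card : ℝ) := by
    rw [card_filter]
    push_cast
    refine sum_congr rfl fun b _ => ?_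
    rw [fn_zero_n]
    refine if_congr ?_ rfl rfl
    exact (Nsg_iff b).symm
  rw [e1, ← hT] at h1
  have h2 : |∑ b : X → Y → F3, fn (Fintype.card X - s₀.card) (NU a bW d b s₀) - c9 * T| ≤
      2 * (3 ^ ((univ.filter fun y : Y => a y y = 0).card + s₀.card + Fintype.card W) /
        3 ^ (Fintype.card X - s₀.card)) * T := by
    have e2 : c9 * T = ∑ b : X → Y → F3, c9 := by
      rw [sum_const, card_univ, nsmul_eq_mul, hcardT, mul_comm]
    rw [e2, ← sum_sub_distrib]
    refine (abs_sum_le_sum_abs _ _).trans ?_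
    have h3 : ∀ b ∈ (univ : Finset (X → Y → F3)),
        |fn (Fintype.card X - s₀.card) (NU a bW d b s₀) - c9| ≤
        2 * (3 ^ ((univ.filter fun y : Y => a y y = 0).card + s₀.card + Fintype.card W) /
        3 ^ (Fintype.card X - s₀.card)) := by
      intro b _
      refine (fn_c9 _ _).trans ?_
      refine mul_le_mul_of_nonneg_left ?_ (by norm_num)
      refine div_le_div_of_nonneg_right ?_ (by positivity)
      exact pow_le_pow_right₀ (by norm_num) (NU_le C b s₀)
    refine (sum_le_sum h3).trans (le_of_eq ?_)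
    rw [sum_const, card_univ, nsmul_eq_mul, hcardT, mul_comm]
  have h3 := abs_sub_le ((univ.filter fun b : X → Y → F3 => Nsg (Mx a bW d b)).card : ℝ)
    (∑ b : X → Y → F3, fn (Fintype.card X - s₀.card) (NU a bW d b s₀)) (c9 * T)
  rw [abs_sub_comm] at h1
  have h4 : ((Fintype.card X - s₀.card : ℕ) : ℝ) * (er X Y W d * T) ≤
      (Fintype.card X : ℝ) * (er X Y W d * T) := by
    refine mul_le_mul_of_nonneg_right ?_ (mul_nonneg er_nonneg hT0.le)
    exact_mod_cast Nat.sub_le _ _
  rw [add_mul, mul_assoc (Fintype.card X : ℝ)]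
  linarith

end

end Run7.h238.X
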