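import Pool.Agent.Run7.h238.X.KeyX
import Pool.Agent.Y333.CX.LAM
import Pool.Agent.Y405.CT.CriB
import Pool.Agent.Y703.CT.StmB

/-!
# The kernel condition of the Laplacian in terms of the two systems
-/

set_option autoImplicit false
set_option linter.unusedVariables false

open scoped Classical

namespace Run7.h238.X

open Finset
open Pool.Agent.Y692.QS
open Pool.Agent.Y703.CX
open Pool.Agent.Y715.T.Rec (cs)
open Pool.Agent.Y715.T.RecG (Pq cs_mul cs_congr cs_zero_iff cs_neg)
open Pool.Agent.Y703.CT (Dt pD Ker)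
open Pool.Agent.Y699.E (rec_all eq_of_dvd)
open Pool.Agent.Y405.CT (pq_star cs_starG nat_int)
open Pool.Agent.Y333.CX (pp_spec not_dvd_pq t_LAM dvd_nat)

/-- the index type of the primes -/
abbrev Jx (S : Finset ℕ) := Option (Bool × {p // p ∈ S})

/-- the primes -/
noncomputable def px (q : ℕ) (S : Finset ℕ) : Jx S → Ei
  | none => -(q : Ei)
  | some (true, p) => pp p.1
  | some (false, p) => star (pp p.1)

/-- the exponents -/
noncomputable def exx (A S : Finset ℕ) : Jx S → ZMod 3
  | none => 1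
  | some (true, p) => sg A p.1
  | some (false, p) => -sg A p.1

/-- the element of norm `n` -/
noncomputable def be (S A : Finset ℕ) : Ei := ∏ p ∈ S, if p ∈ A then star (pp p) else pp p

theorem star_ne {p : ℕ} (hp : p.Prime) (h1 : p % 3 = 1) : ¬ star (pp p) ∣ pp p := by
  intro hd
  obtain ⟨hπ, hn⟩ := pp_spec hp h1
  have h := eq_of_dvd (pq_star hπ) hπ hd
  -- the norm would be a square or the prime would be rational
  have h2 := Pool.Agent.Y405.CT.real_of_star h
  have h3 : nr (pp p) = (pp p).re ^ 2 := by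
    conv_lhs => rw [h2]
    have h4 : nr (((pp p).re : ℤ) : Ei) = (pp p).re ^ 2 := by
      simp [nr]
      try ring
    exact h4
  rw [hn] at h3
  have h5 : IsSquare ((p : ℕ) : ℤ) := ⟨(pp p).re, by rw [h3]; ring⟩
  exact (Nat.prime_iff_prime_int.1 hp).irreducible.not_isSquare h5

theorem ne_star {p : ℕ} (hp : p.Prime) (h1 : p % 3 = 1) : ¬ pp p ∣ star (pp p) := by
  intro hd
  obtain ⟨hπ, hn⟩ := pp_spec hp h1
  have h := eq_of_dvd hπ (pq_star hπ) hd
  exact star_ne hp h1 (h ▸ dvd_refl _)

theorem cs_self {p : ℕ} (hp : p.Prime) (h1 : p % 3 = 1) : cs (pp p) (star (pp p)) = 0 ∧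
    cs (star (pp p)) (pp p) = 0 := by
  obtain ⟨hπ, hn⟩ := pp_spec hp h1
  have r1 := cs_starG hπ (ne_star hp h1)
  rw [star_star] at r1
  have r2 : cs (star (pp p)) (pp p) = cs (pp p) (star (pp p)) :=
    rec_all _ _ hπ (pq_star hπ) (star_ne hp h1)
  rw [r2] at r1
  have h : ∀ a : ZMod 3, a = -a → a = 0 := by decide
  have h0 := h _ r1
  exact ⟨h0, by rw [r2, h0]⟩

variable {q : ℕ} {S A : Finset ℕ}

theorem pq_px (hq : q.Prime) (hq2 : q % 3 = 2) (hS : ∀ p ∈ S, p.Prime ∧ p % 3 = 1) (j : Jx S) :
    Pq (px q S j) := by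
  rcases j with _ | ⟨b, p, hp⟩
  · exact (t_LAM.rec2 7 q (by norm_num) (by norm_num) hq hq2).1
  · obtain ⟨hπ, -⟩ := pp_spec (hS p hp).1 (hS p hp).2
    cases b
    · exact pq_star hπ
    · exact hπ

theorem nr_negq : nr (-(q : Ei)) = (q : ℤ) ^ 2 := by
  rw [nr_neg, nr_nat]

theorem nr_px (hS : ∀ p ∈ S, p.Prime ∧ p % 3 = 1) (b : Bool) (p : {p // p ∈ S}) :
    nr (px q S (some (b, p))) = p.1 := by
  obtain ⟨p, hp⟩ := p
  obtain ⟨-, hn⟩ := pp_spec (hS p hp).1 (hS p hp).2
  cases b
  · show nr (star (pp p)) = _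
    rw [nr_star, hn]
  · exact hn

theorem nd_px (hq : q.Prime) (hq2 : q % 3 = 2) (hS : ∀ p ∈ S, p.Prime ∧ p % 3 = 1) (i j : Jx S)
    (hij : i ≠ j) : ¬ px q S j ∣ px q S i := by
  intro hd
  have he := eq_of_dvd (pq_px hq hq2 hS j) (pq_px hq hq2 hS i) hd
  have hsq : ∀ (b : Bool) (p : {p // p ∈ S}), nr (px q S none) ≠ nr (px q S (some (b, p))) := by
    intro b p h
    rw [nr_px hS] at h
    have h2 : nr (px q S none) = (q : ℤ) ^ 2 := nr_negq
    rw [h2] at h
    have h3 : q ^ 2 = p.1 := by exact_mod_cast h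
    have h4 := (hS p.1 p.2).1
    rw [← h3] at h4
    exact Nat.Prime.not_prime_pow (le_refl 2) h4
  rcases i with _ | ⟨b, p⟩ <;> rcases j with _ | ⟨b', p'⟩
  · exact hij rfl
  · exact hsq b' p' (by rw [he])
  · exact hsq b p (by rw [he])
  · have h1 : nr (px q S (some (b', p'))) = nr (px q S (some (b, p))) := by rw [he]
    rw [nr_px hS, nr_px hS] at h1
    have h2 : p' = p := Subtype.ext (by exact_mod_cast h1)
    subst h2
    obtain ⟨p, hp⟩ := p'
    cases b <;> cases b'
    · exact hij rfl
    · exact ne_star (hS p hp).1 (hS p hp).2 hd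
    · exact star_ne (hS p hp).1 (hS p hp).2 hd
    · exact hij rfl

theorem dt_px (hq : q.Prime) (hq2 : q % 3 = 2) (hS : ∀ p ∈ S, p.Prime ∧ p % 3 = 1) :
    Dt (px q S) (exx A S) where
  pq := pq_px hq hq2 hS
  nd := nd_px hq hq2 hS
  e0 := by
    rintro (_ | ⟨b, p⟩)
    · show (1 : ZMod 3) ≠ 0
      decide
    · cases b
      · exact neg_ne_zero.2 (sg_ne A p.1)
      · exact sg_ne A p.1

theorem pD_px (hS : ∀ p ∈ S, p.Prime ∧ p % 3 = 1) :
    pD (px q S) (exx A S) = -((q : Ei) * ((∏ p ∈ S, p : ℕ) : Ei) * be S A) := by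
  unfold pD
  rw [Fintype.prod_option, Fintype.prod_prod_type, Fintype.prod_bool, ← Finset.prod_mul_distrib]
  have h1 : px q S none ^ (exx A S none).val = -(q : Ei) := by
    show (-(q : Ei)) ^ (1 : ZMod 3).val = _
    have : (1 : ZMod 3).val = 1 := rfl
    rw [this, pow_one]
  have h2 : ∀ p : {p // p ∈ S}, px q S (some (true, p)) ^ (exx A S (some (true, p))).val *
      px q S (some (false, p)) ^ (exx A S (some (false, p))).val =
      ((p.1 : ℕ) : Ei) * (if p.1 ∈ A then star (pp p.1) else pp p.1) := by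
    intro p
    obtain ⟨-, hn⟩ := pp_spec (hS p.1 p.2).1 (hS p.1 p.2).2
    have e2 : ((p.1 : ℕ) : Ei) = pp p.1 * star (pp p.1) := by
      rw [mul_star, hn, Int.cast_natCast]
    show (pp p.1) ^ (sg A p.1).val * (star (pp p.1)) ^ (-sg A p.1).val = _
    rw [e2]
    unfold sg
    split_ifs with h
    · have v1 : (1 : ZMod 3).val = 1 := rfl
      have v2 : (-1 : ZMod 3).val = 2 := rfl
      rw [v1, v2]
      ring
    · have v1 : (- -1 : ZMod 3).val = 1 := rfl
      have v2 : (-1 : ZMod 3).val = 2 := rfl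
      rw [v1, v2]
      ring
  rw [h1, Finset.prod_congr rfl fun p _ => h2 p,
    Finset.prod_coe_sort S (fun p => ((p : ℕ) : Ei) * (if p ∈ A then star (pp p) else pp p)),
    Finset.prod_mul_distrib]
  unfold be
  push_cast
  ring

/-- the antisymmetric double sum -/
theorem dbl0 (S : Finset ℕ) (f : ℕ → ℕ → F3) :
    ∑ p ∈ S, ∑ l ∈ S, f p l = ∑ p ∈ S, ∑ l ∈ S, f l p := Finset.sum_comm

theorem sum_J (f : Jx S → F3) : ∑ i, f i = f none +
    ((∑ l : {p // p ∈ S}, f (some (true, l))) + ∑ l : {p // p ∈ S}, f (some (false, l))) := by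
  rw [Fintype.sum_option, Fintype.sum_prod_type, Fintype.sum_bool]

/-- the extension by zero of a function on `S` -/
noncomputable def xt (S : Finset ℕ) (f : {p // p ∈ S} → F3) (n : ℕ) : F3 :=
  if h : n ∈ S then f ⟨n, h⟩ else 0

theorem xt_apply (f : {p // p ∈ S} → F3) (p : {p // p ∈ S}) : xt S f p = f p := by
  unfold xt
  rw [dif_pos p.2]

/-- the values of the symbols -/
theorem symb (hq : q.Prime) (hq2 : q % 3 = 2) (hS : ∀ p ∈ S, p.Prime ∧ p % 3 = 1)
    {p : ℕ} (hp : p ∈ S) : cs (pp p) (-(q : Ei)) = lam p q ∧ cs (star (pp p)) (-(q : Ei)) = -lam p q ∧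
    cs (-(q : Ei)) (pp p) = lam p q ∧ cs (-(q : Ei)) (star (pp p)) = -lam p q := by
  obtain ⟨hp1, hp2⟩ := hS p hp
  obtain ⟨hπ, hn⟩ := pp_spec hp1 hp2
  obtain ⟨hQ, hr⟩ := t_LAM.rec2 p q hp1 hp2 hq hq2
  have hne : nr (-(q : Ei)) ≠ nr (pp p) := by
    rw [nr_negq, hn]
    intro h
    have h3 : q ^ 2 = p := by exact_mod_cast h
    rw [← h3] at hp1
    exact Nat.Prime.not_prime_pow (le_refl 2) hp1
  have d1 : ¬ pp p ∣ -(q : Ei) := not_dvd_pq hπ hQ hne.symm
  have d2 : ¬ -(q : Ei) ∣ pp p := not_dvd_pq hQ hπ hne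
  have hst : star (-(q : Ei)) = -(q : Ei) := by
    rw [star_neg, star_natCast]
  have a1 : cs (pp p) (-(q : Ei)) = lam p q := by
    rw [hr]
    exact rec_all _ _ hQ hπ d1
  have a2 := cs_starG hπ d1
  rw [hst] at a2
  have a3 := cs_starG hQ d2
  rw [hst] at a3
  exact ⟨a1, by rw [a2, a1], hr.symm, by rw [a3, hr]⟩

theorem symb2 (hS : ∀ p ∈ S, p.Prime ∧ p % 3 = 1) {p l : ℕ} (hp : p ∈ S) (hl : l ∈ S)
    (hpl : p ≠ l) :
    lam p l = cs (pp p) (pp l) + cs (pp p) (star (pp l)) ∧
    lam l p = cs (pp p) (pp l) - cs (pp p) (star (pp l)) ∧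
    cs (star (pp p)) (pp l) = - cs (pp p) (star (pp l)) ∧
    cs (star (pp p)) (star (pp l)) = - cs (pp p) (pp l) := by
  obtain ⟨hp1, hp2⟩ := hS p hp
  obtain ⟨hl1, hl2⟩ := hS l hl
  obtain ⟨hπ, hn⟩ := pp_spec hp1 hp2
  obtain ⟨hρ, hm⟩ := pp_spec hl1 hl2
  obtain ⟨r1, r2, r3, -, -⟩ := t_LAM.rec1 p l hp1 hp2 hl1 hl2 hpl
  have d1 : ¬ pp p ∣ pp l := not_dvd_pq hπ hρ (by rw [hn, hm]; exact_mod_cast hpl)
  exact ⟨r1, r2, r3, cs_starG hπ d1⟩

/-- the equation at a prime of the first kind -/
theorem eqT (hq : q.Prime) (hq2 : q % 3 = 2) (hS : ∀ p ∈ S, p.Prime ∧ p % 3 = 1)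
    (v : Jx S → F3) (p : {p // p ∈ S}) :
    ∑ i, exx A S i * cs (px q S (some (true, p))) (px q S i) * (v i - v (some (true, p))) =
    -(lam p q * (v (some (true, p)) - v none)) +
    ∑ l : {p // p ∈ S}, sg A l * (cs (pp p) (pp l) * (v (some (true, l)) - v (some (true, p))) -
      cs (pp p) (star (pp l)) * (v (some (false, l)) - v (some (true, p)))) := by
  have h1 : (∑ l : {p // p ∈ S}, exx A S (some (true, l)) *
      cs (px q S (some (true, p))) (px q S (some (true, l))) *
      (v (some (true, l)) - v (some (true, p)))) +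
      (∑ l : {p // p ∈ S}, exx A S (some (false, l)) *
      cs (px q S (some (true, p))) (px q S (some (false, l))) *
      (v (some (false, l)) - v (some (true, p)))) =
      ∑ l : {p // p ∈ S}, sg A l * (cs (pp p) (pp l) * (v (some (true, l)) - v (some (true, p))) -
      cs (pp p) (star (pp l)) * (v (some (false, l)) - v (some (true, p)))) := by
    rw [← Finset.sum_add_distrib]
    refine Finset.sum_congr rfl fun l _ => ?_
    show sg A l * cs (pp p) (pp l) * (v (some (true, l)) - v (some (true, p))) +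
      -sg A l * cs (pp p) (star (pp l)) * (v (some (false, l)) - v (some (true, p))) = _
    ring
  rw [sum_J, h1]
  congr 1
  show 1 * cs (pp p) (-(q : Ei)) * (v none - v (some (true, p))) = _
  rw [(symb hq hq2 hS p.2).1]
  ring

/-- the equation at a prime of the second kind -/
theorem eqF (hq : q.Prime) (hq2 : q % 3 = 2) (hS : ∀ p ∈ S, p.Prime ∧ p % 3 = 1)
    (v : Jx S → F3) (p : {p // p ∈ S}) :
    ∑ i, exx A S i * cs (px q S (some (false, p))) (px q S i) * (v i - v (some (false, p))) =
    lam p q * (v (some (false, p)) - v none) +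
    ∑ l : {p // p ∈ S}, sg A l * (cs (star (pp p)) (pp l) *
      (v (some (true, l)) - v (some (false, p))) -
      cs (star (pp p)) (star (pp l)) * (v (some (false, l)) - v (some (false, p)))) := by
  have h1 : (∑ l : {p // p ∈ S}, exx A S (some (true, l)) *
      cs (px q S (some (false, p))) (px q S (some (true, l))) *
      (v (some (true, l)) - v (some (false, p)))) +
      (∑ l : {p // p ∈ S}, exx A S (some (false, l)) *
      cs (px q S (some (false, p))) (px q S (some (false, l))) *
      (v (some (false, l)) - v (some (false, p)))) =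
      ∑ l : {p // p ∈ S}, sg A l * (cs (star (pp p)) (pp l) *
      (v (some (true, l)) - v (some (false, p))) -
      cs (star (pp p)) (star (pp l)) * (v (some (false, l)) - v (some (false, p)))) := by
    rw [← Finset.sum_add_distrib]
    refine Finset.sum_congr rfl fun l _ => ?_
    show sg A l * cs (star (pp p)) (pp l) * (v (some (true, l)) - v (some (false, p))) +
      -sg A l * cs (star (pp p)) (star (pp l)) * (v (some (false, l)) - v (some (false, p))) = _
    ring
  rw [sum_J, h1]
  congr 1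
  show 1 * cs (star (pp p)) (-(q : Ei)) * (v none - v (some (false, p))) = _
  rw [(symb hq hq2 hS p.2).2.1]
  ring

/-- the equation at `q` -/
theorem eqN (hq : q.Prime) (hq2 : q % 3 = 2) (hS : ∀ p ∈ S, p.Prime ∧ p % 3 = 1)
    (v : Jx S → F3) :
    ∑ i, exx A S i * cs (px q S none) (px q S i) * (v i - v none) =
    ∑ l : {p // p ∈ S}, sg A l * lam l q * ((v (some (true, l)) - v none) +
      (v (some (false, l)) - v none)) := by
  rw [sum_J, ← Finset.sum_add_distrib, sub_self, mul_zero, zero_add]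
  refine Finset.sum_congr rfl fun l _ => ?_
  show sg A l * cs (-(q : Ei)) (pp l) * (v (some (true, l)) - v none) +
      -sg A l * cs (-(q : Ei)) (star (pp l)) * (v (some (false, l)) - v none) = _
  rw [(symb hq hq2 hS l.2).2.2.1, (symb hq hq2 hS l.2).2.2.2]
  ring

/-- the sum of the two equations -/
theorem eqA (hq : q.Prime) (hq2 : q % 3 = 2) (hS : ∀ p ∈ S, p.Prime ∧ p % 3 = 1)
    (v : Jx S → F3) (x y : ℕ → F3)
    (hx : ∀ p : {p // p ∈ S}, x p = (v (some (true, p)) - v none) + (v (some (false, p)) - v none))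
    (hy : ∀ p : {p // p ∈ S}, y p = v (some (true, p)) - v (some (false, p)))
    (p : {p // p ∈ S}) :
    (∑ i, exx A S i * cs (px q S (some (true, p))) (px q S i) * (v i - v (some (true, p)))) +
    (∑ i, exx A S i * cs (px q S (some (false, p))) (px q S i) * (v i - v (some (false, p)))) =
    EX2 (fun n => lam n q) (sg A) S x y p ∧
    (∑ i, exx A S i * cs (px q S (some (true, p))) (px q S i) * (v i - v (some (true, p)))) -
    (∑ i, exx A S i * cs (px q S (some (false, p))) (px q S i) * (v i - v (some (false, p)))) =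
    EX1 (fun n => lam n q) (sg A) S x y p := by
  rw [eqT hq hq2 hS, eqF hq hq2 hS]
  constructor
  · unfold EX2
    rw [← Finset.sum_coe_sort S]
    have h1 : ∑ l : {p // p ∈ S}, sg A l * (lam l p * (x l - x p)) =
        (∑ l : {p // p ∈ S}, sg A l * (cs (pp p) (pp l) *
          (v (some (true, l)) - v (some (true, p))) -
          cs (pp p) (star (pp l)) * (v (some (false, l)) - v (some (true, p))))) +
        ∑ l : {p // p ∈ S}, sg A l * (cs (star (pp p)) (pp l) *
          (v (some (true, l)) - v (some (false, p))) -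
          cs (star (pp p)) (star (pp l)) * (v (some (false, l)) - v (some (false, p)))) := by
      rw [← Finset.sum_add_distrib]
      refine Finset.sum_congr rfl fun l _ => ?_
      rcases eq_or_ne p l with rfl | hpl
      · have h2 := cs_self (hS p.1 p.2).1 (hS p.1 p.2).2
        rw [h2.1, h2.2]
        ring
      · obtain ⟨r1, r2, r3, r4⟩ := symb2 hS p.2 l.2 (fun h => hpl (Subtype.ext h))
        rw [r2, r3, r4, hx, hx]
        ring
    rw [h1, hy]
    ring
  · unfold EX1
    rw [← Finset.sum_coe_sort S]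
    have h1 : ∑ l : {p // p ∈ S}, sg A l * (lam p l * y l - lam l p * y p) =
        (∑ l : {p // p ∈ S}, sg A l * (cs (pp p) (pp l) *
          (v (some (true, l)) - v (some (true, p))) -
          cs (pp p) (star (pp l)) * (v (some (false, l)) - v (some (true, p))))) -
        ∑ l : {p // p ∈ S}, sg A l * (cs (star (pp p)) (pp l) *
          (v (some (true, l)) - v (some (false, p))) -
          cs (star (pp p)) (star (pp l)) * (v (some (false, l)) - v (some (false, p)))) := by
      rw [← Finset.sum_sub_distrib]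
      refine Finset.sum_congr rfl fun l _ => ?_
      rcases eq_or_ne p l with rfl | hpl
      · have h2 := cs_self (hS p.1 p.2).1 (hS p.1 p.2).2
        rw [h2.1, h2.2]
        ring
      · obtain ⟨r1, r2, r3, r4⟩ := symb2 hS p.2 l.2 (fun h => hpl (Subtype.ext h))
        rw [r1, r2, r3, r4, hy, hy]
        ring
    rw [h1, hx]
    ring

/-- the antisymmetric sum of the first equations -/
theorem sum_EX1 (g : ℕ → F3) (S : Finset ℕ) (x y : ℕ → F3) :
    ∑ p ∈ S, sg A p * EX1 g (sg A) S x y p = -∑ p ∈ S, sg A p * g p * x p := by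
  have h1 : ∀ p, sg A p * EX1 g (sg A) S x y p =
      (∑ l ∈ S, sg A p * sg A l * (lam p l * y l)) - (∑ l ∈ S, sg A l * sg A p * (lam l p * y p)) -
      sg A p * g p * x p := by
    intro p
    unfold EX1
    rw [← Finset.sum_sub_distrib, mul_sub, Finset.mul_sum]
    congr 1
    · refine Finset.sum_congr rfl fun l _ => ?_
      ring
    · ring
  rw [Finset.sum_congr rfl fun p _ => h1 p, Finset.sum_sub_distrib, Finset.sum_sub_distrib,
    dbl0 S (fun p l => sg A p * sg A l * (lam p l * y l)), sub_self, zero_sub]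

theorem ker_iff (hq : q.Prime) (hq2 : q % 3 = 2) (hS : ∀ p ∈ S, p.Prime ∧ p % 3 = 1) :
    Ker (px q S) (exx A S) ↔ GdX (fun n => lam n q) (sg A) S := by
  have two : ∀ a b : F3, a + b = 0 → a - b = 0 → a = 0 ∧ b = 0 := by decide
  constructor
  · intro hk x y h1 h2
    -- the vector
    set v : Jx S → F3 := fun i => match i with
      | none => 0
      | some (true, p) => -(x p + y p)
      | some (false, p) => -(x p - y p) with hv
    have three : ∀ a b : F3, a = -(a + b) + -(a - b) ∧ b = -(a + b) - -(a - b) := by decide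
    have hx : ∀ p : {p // p ∈ S}, x p =
        (v (some (true, p)) - v none) + (v (some (false, p)) - v none) := by
      intro p
      show x p = (-(x p + y p) - 0) + (-(x p - y p) - 0)
      rw [sub_zero, sub_zero]
      exact (three _ _).1
    have hy : ∀ p : {p // p ∈ S}, y p = v (some (true, p)) - v (some (false, p)) := by
      intro p
      show y p = -(x p + y p) - -(x p - y p)
      exact (three _ _).2
    have hTF : ∀ p : {p // p ∈ S},
        (∑ i, exx A S i * cs (px q S (some (true, p))) (px q S i) * (v i - v (some (true, p)))) = 0 ∧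
        (∑ i, exx A S i * cs (px q S (some (false, p))) (px q S i) *
          (v i - v (some (false, p)))) = 0 := by
      intro p
      obtain ⟨e1, e2⟩ := eqA (A := A) hq hq2 hS v x y hx hy p
      exact two _ _ (e1.trans (h2 p p.2)) (e2.trans (h1 p p.2))
    have hk' := hk v ?_
    · intro p hp
      have a1 := hk' (some (true, ⟨p, hp⟩)) none
      have a2 := hk' (some (false, ⟨p, hp⟩)) none
      have b1 := hx ⟨p, hp⟩
      have b2 := hy ⟨p, hp⟩
      rw [a1, a2] at b1 b2
      exact ⟨by rw [b1]; ring, by rw [b2]; ring⟩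
    · rintro (_ | ⟨b, p⟩)
      · rw [eqN hq hq2 hS v]
        have h3 := sum_EX1 (A := A) (fun n => lam n q) S x y
        rw [Finset.sum_eq_zero (fun p hp => by rw [h1 p hp, mul_zero])] at h3
        have h4 := neg_eq_zero.1 h3.symm
        rw [← Finset.sum_coe_sort S] at h4
        rw [← h4]
        refine Finset.sum_congr rfl fun l _ => ?_
        rw [hx]
      · cases b
        · exact (hTF p).2
        · exact (hTF p).1
  · intro hg v hv
    set x : ℕ → F3 := xt S fun p => (v (some (true, p)) - v none) + (v (some (false, p)) - v none)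
      with hxd
    set y : ℕ → F3 := xt S fun p => v (some (true, p)) - v (some (false, p)) with hyd
    have hx : ∀ p : {p // p ∈ S}, x p =
        (v (some (true, p)) - v none) + (v (some (false, p)) - v none) := fun p => xt_apply _ p
    have hy : ∀ p : {p // p ∈ S}, y p = v (some (true, p)) - v (some (false, p)) :=
      fun p => xt_apply _ p
    have h0 := hg x y (fun p hp => by
        obtain ⟨-, e2⟩ := eqA (A := A) hq hq2 hS v x y hx hy ⟨p, hp⟩
        rw [← e2, hv, hv, sub_zero]) (fun p hp => by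
        obtain ⟨e1, -⟩ := eqA (A := A) hq hq2 hS v x y hx hy ⟨p, hp⟩
        rw [← e1, hv, hv, add_zero])
    have key : ∀ i : Jx S, v i = v none := by
      rintro (_ | ⟨b, p⟩)
      · rfl
      · obtain ⟨z1, z2⟩ := h0 p p.2
        rw [hx] at z1
        rw [hy] at z2
        obtain ⟨w1, w2⟩ := two (v (some (true, p)) - v none) (v (some (false, p)) - v none) z1
          (by rw [← z2]; ring)
        cases b
        · exact sub_eq_zero.1 w2
        · exact sub_eq_zero.1 w1
    intro i j
    rw [key i, key j]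

end Run7.h238.X
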